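import Pool.Agent.J4.H41.GT.Edge
import Pool.Agent.N509.TX.Fg

/-!
# The action on the tree and the cylinders
-/

set_option autoImplicit false

namespace Pool.Agent.J4.H41.GT

open DV SimpleGraph
open Pool.Agent.N509.TK (LR Cyl cy lk cs Mem Dt dt Mem_cy Mem_cy' cy_symm cy_rel)

variable {F : Type} [Field F] {V : DV F} (Rs : Subring F)

/-- the ring `Rs` has one place at infinity -/
structure Str (V : DV F) (Rs : Subring F) : Prop where
  h1 : ∀ x ∈ Rs, V.B 1 x → x = 0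

/-- the ring `Rs` has one place at infinity, and its constants form a field -/
structure StrU (V : DV F) (Rs : Subring F) : Prop extends Str V Rs where
  h2 : ∀ x ∈ Rs, x ≠ 0 → V.B 0 x → x⁻¹ ∈ Rs

/-- matrices with entries in the ring -/
def MR : Set (Mt F) := {x | ∀ i j, x i j ∈ Rs}

variable {Rs}

theorem MR_mul {x y : Mt F} (hx : x ∈ MR Rs) (hy : y ∈ MR Rs) : x * y ∈ MR Rs := by
  intro i j
  rw [Matrix.mul_apply, Fin.sum_univ_two]
  exact add_mem (mul_mem (hx i 0) (hy 0 j)) (mul_mem (hx i 1) (hy 1 j))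

theorem MR_sub {x y : Mt F} (hx : x ∈ MR Rs) (hy : y ∈ MR Rs) : x - y ∈ MR Rs :=
  fun i j => sub_mem (hx i j) (hy i j)

theorem MR_add {x y : Mt F} (hx : x ∈ MR Rs) (hy : y ∈ MR Rs) : x + y ∈ MR Rs :=
  fun i j => add_mem (hx i j) (hy i j)

theorem MR_one : (1 : Mt F) ∈ MR Rs := by
  intro i j
  fin_cases i <;> fin_cases j
  · exact one_mem _
  · exact zero_mem _
  · exact zero_mem _
  · exact one_mem _

theorem MR_tc {x : Mt F} (hx : x ∈ MR Rs) : tc x ∈ Rs := add_mem (hx 0 0) (hx 1 1)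

theorem MR_dt {x : Mt F} (hx : x ∈ MR Rs) : GT.dt x ∈ Rs :=
  sub_mem (mul_mem (hx 0 0) (hx 1 1)) (mul_mem (hx 0 1) (hx 1 0))

variable (Rs) in
/-- invertible matrices over the ring -/
def GR : Subgroup (Mt F)ˣ where
  carrier := {g | g.val ∈ MR Rs ∧ (g⁻¹).val ∈ MR Rs}
  one_mem' := ⟨MR_one, by rw [inv_one]; exact MR_one⟩
  mul_mem' := by
    rintro a b ⟨h1, h2⟩ ⟨h3, h4⟩
    refine ⟨MR_mul h1 h3, ?_⟩
    rw [mul_inv_rev]
    exact MR_mul h4 h2
  inv_mem' := by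
    rintro a ⟨h1, h2⟩
    exact ⟨h2, by rwa [inv_inv]⟩

/-- conjugation -/
def cP : (Mt F)ˣ →* Equiv.Perm (Mt F) where
  toFun g :=
    { toFun := fun x => g.val * x * (g⁻¹).val
      invFun := fun x => (g⁻¹).val * x * g.val
      left_inv := by
        intro x
        have e2 : (g⁻¹).val * g.val = 1 := g.inv_mul
        calc (g⁻¹).val * (g.val * x * (g⁻¹).val) * g.val
            = ((g⁻¹).val * g.val) * x * ((g⁻¹).val * g.val) := by simp only [mul_assoc]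
          _ = x := by rw [e2, one_mul, mul_one]
      right_inv := by
        intro x
        have e2 : g.val * (g⁻¹).val = 1 := g.mul_inv
        calc g.val * ((g⁻¹).val * x * g.val) * (g⁻¹).val
            = (g.val * (g⁻¹).val) * x * (g.val * (g⁻¹).val) := by simp only [mul_assoc]
          _ = x := by rw [e2, one_mul, mul_one] }
  map_one' := by
    ext x : 1
    change (1 : (Mt F)ˣ).val * x * ((1 : (Mt F)ˣ)⁻¹).val = x
    simp
  map_mul' a b := by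
    ext x : 1
    change (a * b).val * x * ((a * b)⁻¹).val = a.val * (b.val * x * (b⁻¹).val) * (a⁻¹).val
    rw [mul_inv_rev, Units.val_mul, Units.val_mul]
    simp only [mul_assoc]

theorem cP_apply (g : (Mt F)ˣ) (x : Mt F) : cP g x = g.val * x * (g⁻¹).val := rfl
theorem cP_inv_apply (g : (Mt F)ˣ) (x : Mt F) : (cP g)⁻¹ x = (g⁻¹).val * x * g.val := rfl

variable (Rs) in
/-- the projective group of the ring -/
def PG : Subgroup (Equiv.Perm (Mt F)) := (GR Rs).map cP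

theorem PG_rep (p : PG Rs) : ∃ g ∈ GR Rs, p.1 = cP g := by
  obtain ⟨g, hg, h⟩ := p.2
  exact ⟨g, hg, h.symm⟩

theorem pr_set {p : Equiv.Perm (Mt F)} {g : (Mt F)ˣ} (h : p = cP g) (S : Set (Mt F)) :
    {x | p⁻¹ x ∈ S} = cj g S := by
  subst h
  rfl

instance act : MulAction (PG Rs) (Vx V) where
  smul p S := ⟨{x | p.1⁻¹ x ∈ S.1}, by
    obtain ⟨g, hg, h⟩ := PG_rep p
    obtain ⟨S, k, rfl⟩ := S
    refine ⟨g * k, ?_⟩
    rw [pr_set h, cj_mul]⟩
  one_smul S := rfl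
  mul_smul p q S := Subtype.ext (by
    change {x | (p.1 * q.1)⁻¹ x ∈ S.1} = {x | p.1⁻¹ x ∈ {y | q.1⁻¹ y ∈ S.1}}
    rw [mul_inv_rev]
    rfl)

theorem smul_val (p : PG Rs) (S : Vx V) {g : (Mt F)ˣ} (h : p.1 = cP g) : (p • S).1 = cj g S.1 :=
  pr_set h S.1

theorem hact (p : PG Rs) (u v : Vx V) (h : (Gr V).Adj u v) : (Gr V).Adj (p • u) (p • v) := by
  obtain ⟨g, hg, hp⟩ := PG_rep p
  rcases h with ⟨k, h1, h2⟩ | ⟨k, h1, h2⟩
  · refine Or.inl ⟨g * k, ?_, ?_⟩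
    · rw [smul_val p u hp, h1, cj_mul]
    · rw [smul_val p v hp, h2, cj_mul]
  · refine Or.inr ⟨g * k, ?_, ?_⟩
    · rw [smul_val p v hp, h1, cj_mul]
    · rw [smul_val p u hp, h2, cj_mul]

theorem GR_dt (hR : Str V Rs) {g : (Mt F)ˣ} (hg : g ∈ GR Rs) : V.v (GT.dt g.val) = 0 := by
  have h1 : GT.dt g.val * GT.dt (g⁻¹).val = 1 := by
    rw [← dt_mul, g.mul_inv, dt_eq, Matrix.det_one]
  have h2 : GT.dt g.val ≠ 0 := by
    intro h
    rw [h, zero_mul] at h1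
    exact zero_ne_one h1
  have h3 : GT.dt (g⁻¹).val ≠ 0 := by
    intro h
    rw [h, mul_zero] at h1
    exact zero_ne_one h1
  have h4 := V.mul _ _ h2 h3
  rw [h1, v_one] at h4
  have h5 : V.v (GT.dt g.val) ≤ 0 := by
    by_contra hc
    exact h2 (hR.h1 _ (MR_dt hg.1) (Or.inr (by omega)))
  have h6 : V.v (GT.dt (g⁻¹).val) ≤ 0 := by
    by_contra hc
    exact h3 (hR.h1 _ (MR_dt hg.2) (Or.inr (by omega)))
  omega

/-- the elements which fix a vertex are in the order -/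
theorem mem_of_fix (hR : Str V Rs) {p : PG Rs} {g : (Mt F)ˣ} (hg : g ∈ GR Rs) (hp : p.1 = cP g)
    (S : Vx V) (h : p • S = S) : g.val ∈ S.1 := by
  apply fix (GR_dt hR hg)
  rw [← smul_val p S hp, h]

/-! ### edges -/

variable (Rs) in
/-- the matrices over the ring in the orders of an edge -/
def Ae (S S' : Vx V) : Set (Mt F) := {x | x ∈ S.1 ∧ x ∈ S'.1 ∧ x ∈ MR Rs}

theorem Ae_symm (S S' : Vx V) : Ae Rs S S' = Ae Rs S' S := by
  ext x
  constructor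
  · rintro ⟨h1, h2, h3⟩
    exact ⟨h2, h1, h3⟩
  · rintro ⟨h1, h2, h3⟩
    exact ⟨h2, h1, h3⟩

/-- there are nonzero nilpotent elements -/
def HN (A : Set (Mt F)) : Prop := ∃ x ∈ A, Nl x

theorem F1 (hR : Str V Rs) {S S' : Vx V} (h : (Gr V).Adj S S') {x y : Mt F} (hx : x ∈ Ae Rs S S')
    (hy : y ∈ Ae Rs S S') (hyy : y * y = 0) : tc (x * y) = 0 :=
  hR.h1 _ (MR_tc (MR_mul hx.2.2 hy.2.2)) (E1 h hx.1 hx.2.1 hy.1 hy.2.1 hyy)

theorem F1c (hR : Str V Rs) {S S' : Vx V} (h : (Gr V).Adj S S') {x y : Mt F} (hx : x ∈ Ae Rs S S')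
    (hy : y ∈ Ae Rs S S') (hxx : x * x = 0) (hyy : y * y = 0) : x * y = y * x :=
  nl_comm hxx hyy (F1 hR h hx hy hyy)

theorem F2 (hR : Str V Rs) {S S' : Vx V} (h : (Gr V).Adj S S') (hn : ¬ HN (Ae Rs S S')) {x y : Mt F}
    (hx : x ∈ Ae Rs S S') (hy : y ∈ Ae Rs S S') : x * y = y * x := by
  have h1 : x * y - y * x ∈ Ae Rs S S' :=
    ⟨vx_sub S (vx_mul S hx.1 hy.1) (vx_mul S hy.1 hx.1),
      vx_sub S' (vx_mul S' hx.2.1 hy.2.1) (vx_mul S' hy.2.1 hx.2.1),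
      MR_sub (MR_mul hx.2.2 hy.2.2) (MR_mul hy.2.2 hx.2.2)⟩
  by_contra hne
  apply hn
  refine ⟨_, h1, fun h0 => hne (sub_eq_zero.1 h0), nl_of ?_ ?_⟩
  · have : tc (x * y - y * x) = tc (x * y) - tc (y * x) := by
      unfold tc
      rw [Matrix.sub_apply, Matrix.sub_apply]
      ring
    rw [this, tc_comm, sub_self]
  · exact hR.h1 _ (MR_dt h1.2.2) (E2 h hx.1 hx.2.1 hy.1 hy.2.1)

/-- two edges are related: they have common nilpotents up to factors, or common tori -/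
def Rel (A A' : Set (Mt F)) : Prop :=
  (∃ x ∈ A, ∃ y ∈ A', Nl x ∧ Nl y ∧ x * y = y * x) ∨
    (¬ HN A ∧ ¬ HN A' ∧ ∃ x ∈ A, ∃ y ∈ A', ¬ Sc x ∧ ¬ Sc y ∧ x * y = y * x)

theorem Rel_symm {A A' : Set (Mt F)} (h : Rel A A') : Rel A' A := by
  rcases h with ⟨x, hx, y, hy, h1, h2, h3⟩ | ⟨hA, hA', x, hx, y, hy, h1, h2, h3⟩
  · exact Or.inl ⟨y, hy, x, hx, h2, h1, h3.symm⟩
  · exact Or.inr ⟨hA', hA, y, hy, x, hx, h2, h1, h3.symm⟩

theorem Rel_trans (hR : Str V Rs) {A A'' : Set (Mt F)} {S S' : Vx V} (h : (Gr V).Adj S S')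
    (h1 : Rel A (Ae Rs S S')) (h2 : Rel (Ae Rs S S') A'') : Rel A A'' := by
  rcases h1 with ⟨x, hx, y, hy, a1, a2, a3⟩ | ⟨hA, hA', x, hx, y, hy, a1, a2, a3⟩
  · rcases h2 with ⟨z, hz, w, hw, b1, b2, b3⟩ | ⟨hB, -, -⟩
    · refine Or.inl ⟨x, hx, w, hw, a1, b2, ?_⟩
      have h3 := F1c hR h hy hz a2.2 b1.2
      exact comm_trans b1.not_sc (comm_trans a2.not_sc a3 h3) b3
    · exact absurd ⟨y, hy, a2⟩ hB
  · rcases h2 with ⟨z, hz, w, hw, b1, b2, b3⟩ | ⟨hB, hB', z, hz, w, hw, b1, b2, b3⟩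
    · exact absurd ⟨z, hz, b1⟩ hA'
    · refine Or.inr ⟨hA, hB', x, hx, w, hw, a1, b2, ?_⟩
      have h3 := F2 hR h hA' hy hz
      exact comm_trans b1 (comm_trans a2 a3 h3) b3

variable (Rs) in
/-- the relation on the links -/
def rl (w a b : Vx V) : Prop := a = b ∨ Rel (Ae Rs w a) (Ae Rs w b)

theorem cP_mul (g : (Mt F)ˣ) (x y : Mt F) : cP g (x * y) = cP g x * cP g y := by
  rw [cP_apply, cP_apply, cP_apply]
  have e2 : (g⁻¹).val * g.val = 1 := g.inv_mul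
  calc g.val * (x * y) * (g⁻¹).val = g.val * x * 1 * y * (g⁻¹).val := by
        simp only [mul_assoc, mul_one, one_mul]
    _ = _ := by rw [← e2]; simp only [mul_assoc]

theorem cP_zero (g : (Mt F)ˣ) : cP g 0 = 0 := by
  rw [cP_apply, mul_zero, zero_mul]

theorem cP_Nl (g : (Mt F)ˣ) {x : Mt F} (h : Nl x) : Nl (cP g x) := by
  refine ⟨fun h0 => h.1 ?_, ?_⟩
  · apply (cP g).injective
    rw [h0, cP_zero]
  · rw [← cP_mul, h.2, cP_zero]

theorem cP_Sc (g : (Mt F)ˣ) {x : Mt F} (h : ¬ Sc x) : ¬ Sc (cP g x) := by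
  intro h0
  apply h
  -- a scalar matrix commutes with everything
  obtain ⟨a, ha⟩ : ∃ a : F, cP g x = a • (1 : Mt F) := by
    refine ⟨cP g x 0 0, ?_⟩
    obtain ⟨k1, k2, k3⟩ := h0
    apply mt_ext
    · simp [one00]
    · simp [one01, k1]
    · simp [one10, k2]
    · simp [one11, k3]
  have h1 : x = a • (1 : Mt F) := by
    apply (cP g).injective
    rw [ha, cP_apply, mul_smul_comm, mul_one, smul_mul_assoc, g.mul_inv]
  rw [h1]
  refine ⟨?_, ?_, ?_⟩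
  · simp [one01]
  · simp [one10]
  · simp [one00, one11]

theorem MR_cP {g : (Mt F)ˣ} (hg : g ∈ GR Rs) {x : Mt F} (hx : x ∈ MR Rs) : cP g x ∈ MR Rs :=
  MR_mul (MR_mul hg.1 hx) hg.2

theorem mem_smul {p : PG Rs} {g : (Mt F)ˣ} (hp : p.1 = cP g) {S : Vx V} {x : Mt F} :
    cP g x ∈ (p • S).1 ↔ x ∈ S.1 := by
  rw [smul_val p S hp, mem_cj, cP_apply]
  have e2 : (g⁻¹).val * g.val = 1 := g.inv_mul
  have : (g⁻¹).val * (g.val * x * (g⁻¹).val) * g.val = x := by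
    calc (g⁻¹).val * (g.val * x * (g⁻¹).val) * g.val
        = ((g⁻¹).val * g.val) * x * ((g⁻¹).val * g.val) := by simp only [mul_assoc]
      _ = x := by rw [e2, one_mul, mul_one]
  rw [this]

theorem mem_Ae_smul {p : PG Rs} {g : (Mt F)ˣ} (hg : g ∈ GR Rs) (hp : p.1 = cP g) {S S' : Vx V}
    {x : Mt F} (hx : x ∈ Ae Rs S S') : cP g x ∈ Ae Rs (p • S) (p • S') :=
  ⟨(mem_smul hp).2 hx.1, (mem_smul hp).2 hx.2.1, MR_cP hg hx.2.2⟩

theorem HN_smul {p : PG Rs} {S S' : Vx V} (h : HN (Ae Rs (p • S) (p • S'))) : HN (Ae Rs S S') := by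
  obtain ⟨x, hx, h1⟩ := h
  obtain ⟨g, hg, hp⟩ := PG_rep p⁻¹
  refine ⟨cP g x, ?_, cP_Nl g h1⟩
  have := mem_Ae_smul hg hp hx
  rwa [inv_smul_smul, inv_smul_smul] at this

theorem Rel_smul (p : PG Rs) {S S' T T' : Vx V} (h : Rel (Ae Rs S S') (Ae Rs T T')) :
    Rel (Ae Rs (p • S) (p • S')) (Ae Rs (p • T) (p • T')) := by
  obtain ⟨g, hg, hp⟩ := PG_rep p
  rcases h with ⟨x, hx, y, hy, h1, h2, h3⟩ | ⟨hA, hA', x, hx, y, hy, h1, h2, h3⟩
  · refine Or.inl ⟨cP g x, mem_Ae_smul hg hp hx, cP g y, mem_Ae_smul hg hp hy, cP_Nl g h1,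
      cP_Nl g h2, ?_⟩
    rw [← cP_mul, h3, cP_mul]
  · refine Or.inr ⟨fun h => hA (HN_smul h), fun h => hA' (HN_smul h), cP g x,
      mem_Ae_smul hg hp hx, cP g y, mem_Ae_smul hg hp hy, cP_Sc g h1, cP_Sc g h2, ?_⟩
    rw [← cP_mul, h3, cP_mul]

theorem Rel_refl_of {S S' : Vx V} (x : Mt F) (hx : x ∈ Ae Rs S S') (h : ¬ Sc x) :
    Rel (Ae Rs S S') (Ae Rs S S') := by
  by_cases hn : HN (Ae Rs S S')
  · obtain ⟨y, hy, h1⟩ := hn
    exact Or.inl ⟨y, hy, y, hy, h1, h1, rfl⟩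
  · exact Or.inr ⟨hn, hn, x, hx, x, hx, h, h, rfl⟩

theorem lr (hR : Str V Rs) : LR (PG Rs) (Gr V) (rl Rs) where
  refl _ _ _ := Or.inl rfl
  symm := by
    intro w a b ha hb h
    rcases h with rfl | h
    · exact Or.inl rfl
    · exact Or.inr (Rel_symm h)
  trans := by
    intro w a b c ha hb hc h1 h2
    rcases h1 with rfl | h1
    · exact h2
    rcases h2 with rfl | h2
    · exact Or.inr h1
    · exact Or.inr (Rel_trans hR hb h1 h2)
  eqv := by
    intro p w a b h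
    rcases h with rfl | h
    · exact Or.inl rfl
    · exact Or.inr (Rel_smul p h)

/-- the relation of all edges in a cylinder -/
def Er (p q : Dt (Gr V)) : Prop :=
  (p.1 = q.1 ∨ p.1 = q.1.swap) ∨ Rel (Ae Rs p.1.1 p.1.2) (Ae Rs q.1.1 q.1.2)

theorem Er_Ae {p q : Dt (Gr V)} (h : p.1 = q.1 ∨ p.1 = q.1.swap) :
    Ae Rs p.1.1 p.1.2 = Ae Rs q.1.1 q.1.2 := by
  rcases h with h | h
  · rw [h]
  · rw [h]
    exact Ae_symm _ _

theorem Er_gen (hR : Str V Rs) {p q : Dt (Gr V)} (h : Relation.EqvGen (lk (Gr V) (rl Rs)) p q) :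
    Er (Rs := Rs) p q := by
  induction h with
  | rel p q h =>
    rcases h with h | ⟨h1, h2⟩
    · exact Or.inl (Or.inr (by rw [h, Prod.swap_swap]))
    · rcases h2 with h2 | h2
      · exact Or.inl (Or.inl (Prod.ext h1 h2))
      · right
        rw [← h1]
        exact h2
  | refl x => exact Or.inl (Or.inl rfl)
  | symm p q _ ih =>
    rcases ih with (h | h) | h
    · exact Or.inl (Or.inl h.symm)
    · exact Or.inl (Or.inr (by rw [h, Prod.swap_swap]))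
    · exact Or.inr (Rel_symm h)
  | trans p q s _ _ h1 h2 =>
    rcases h1 with h1 | h1
    · rcases h2 with h2 | h2
      · left
        rcases h1 with h1 | h1
        · rw [h1]; exact h2
        · rcases h2 with h2 | h2
          · right; rw [h1, h2]
          · left; rw [h1, h2, Prod.swap_swap]
      · right
        rw [Er_Ae h1]
        exact h2
    · rcases h2 with h2 | h2
      · right
        rw [← Er_Ae h2]
        exact h1
      · exact Or.inr (Rel_trans hR q.2 h1 h2)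

theorem Er_cy (hR : Str V Rs) {a b c d : Vx V} (h : (Gr V).Adj a b) (h' : (Gr V).Adj c d)
    (he : cy (rl Rs) h = cy (rl Rs) h') :
    (((a, b) = (c, d)) ∨ ((a, b) = (d, c))) ∨ Rel (Ae Rs a b) (Ae Rs c d) :=
  Er_gen hR (p := Pool.Agent.N509.TK.dt h) (q := Pool.Agent.N509.TK.dt h') (Quotient.exact he)

/-- the edges which contain a nilpotent matrix are in one cylinder -/
theorem cy_of_walk {x : Mt F} (hx : x ∈ MR Rs) (hn : Nl x) {S S' : Vx V} (p : (Gr V).Walk S S')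
    (hp : ∀ z ∈ p.support, x ∈ z.1) : ∀ (a b : Vx V) (ha : (Gr V).Adj S a) (hb : (Gr V).Adj S' b),
    x ∈ a.1 → x ∈ b.1 → cy (rl Rs) ha = cy (rl Rs) hb := by
  induction p with
  | @nil u =>
    intro a b ha hb hxa hxb
    have hu : x ∈ u.1 := hp u (by simp)
    exact cy_rel ha hb (Or.inr (Or.inl ⟨x, ⟨hu, hxa, hx⟩, x, ⟨hu, hxb, hx⟩, hn, hn, rfl⟩))
  | @cons u v w h p ih =>
    intro a b ha hb hxa hxb
    have hu : x ∈ u.1 := hp u (by simp)
    have hv : x ∈ v.1 := hp v (by simp)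
    have h1 : cy (rl Rs) ha = cy (rl Rs) h :=
      cy_rel ha h (Or.inr (Or.inl ⟨x, ⟨hu, hxa, hx⟩, x, ⟨hu, hv, hx⟩, hn, hn, rfl⟩))
    have h2 := ih (fun z hz => hp z (by simp [hz])) u b h.symm hb hu hxb
    rw [h1, ← cy_symm h, h2]

theorem cy_of_mem {x : Mt F} (hn : Nl x) {S S' a b : Vx V} (ha : (Gr V).Adj S a)
    (hb : (Gr V).Adj S' b) (hxa : x ∈ Ae Rs S a) (hxb : x ∈ Ae Rs S' b) :
    cy (rl Rs) ha = cy (rl Rs) hb := by
  obtain ⟨p, hp⟩ := walk_mem x S S' hxa.1 hxb.1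
  exact cy_of_walk hxa.2.2 hn p hp a b ha hb hxa.2.1 hxb.2.1

/-- edges with commuting nilpotents are in one cylinder -/
theorem cy_of_comm {x y : Mt F} (hx : Nl x) (hy : Nl y) (hxy : x * y = y * x)
    {S S' a b : Vx V} (ha : (Gr V).Adj S a) (hb : (Gr V).Adj S' b) (hxa : x ∈ Ae Rs S a)
    (hyb : y ∈ Ae Rs S' b) : cy (rl Rs) ha = cy (rl Rs) hb := by
  -- the two matrices are proportional
  obtain ⟨c, d, hcd⟩ := comm_form hx.not_sc hxy
  have hc : c = 0 := by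
    have h1 := (nl_entries hy.2).1
    have h2 := (nl_entries hx.2).1
    have h3 := (nl_entries hy.2).2
    have h4 := (nl_entries hx.2).2
    rw [hcd] at h1 h3
    simp [one00, one11, one01, one10, h2] at h1 h3
    have h5 : c * c = 0 := by
      linear_combination h3 - d * d * h4 - d * x 0 0 * h1
    exact mul_self_eq_zero.1 h5
  rw [hc, zero_smul, zero_add] at hcd
  have hd : d ≠ 0 := by
    rintro rfl
    rw [zero_smul] at hcd
    exact hy.1 hcd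
  have hor : V.B 0 d ∨ V.B 0 d⁻¹ := by
    rcases le_total 0 (V.v d) with h | h
    · exact Or.inl (Or.inr h)
    · exact Or.inr (Or.inr (by rw [v_inv hd]; omega))
  rcases hor with h | h
  · refine cy_of_mem hy ha hb ⟨?_, ?_, hyb.2.2⟩ hyb
    · rw [hcd]
      exact vx_smul _ h hxa.1
    · rw [hcd]
      exact vx_smul _ h hxa.2.1
  · have hcd' : x = d⁻¹ • y := by
      rw [hcd, smul_smul, inv_mul_cancel₀ hd, one_smul]
    refine cy_of_mem hx ha hb hxa ⟨?_, ?_, hxa.2.2⟩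
    · rw [hcd']
      exact vx_smul _ h hyb.1
    · rw [hcd']
      exact vx_smul _ h hyb.2.1

end Pool.Agent.J4.H41.GT
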