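import Pool.Agent.J4.H41.GT.Ord

/-!
# Matrices of size two
-/

set_option autoImplicit false

namespace Pool.Agent.J4.H41.GT

variable {F : Type} [Field F]

/-- scalar matrices -/
def Sc (x : Mt F) : Prop := x 0 1 = 0 ∧ x 1 0 = 0 ∧ x 0 0 = x 1 1

/-- nonzero nilpotent matrices -/
def Nl (x : Mt F) : Prop := x ≠ 0 ∧ x * x = 0

/-- the trace -/
def tc (x : Mt F) : F := x 0 0 + x 1 1

/-- the determinant -/
def dt (x : Mt F) : F := x 0 0 * x 1 1 - x 0 1 * x 1 0

theorem mt_ext {x y : Mt F} (h00 : x 0 0 = y 0 0) (h01 : x 0 1 = y 0 1) (h10 : x 1 0 = y 1 0)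
    (h11 : x 1 1 = y 1 1) : x = y := by
  ext i j
  fin_cases i <;> fin_cases j
  · exact h00
  · exact h01
  · exact h10
  · exact h11

theorem one00 : (1 : Mt F) 0 0 = 1 := rfl
theorem one01 : (1 : Mt F) 0 1 = 0 := rfl
theorem one10 : (1 : Mt F) 1 0 = 0 := rfl
theorem one11 : (1 : Mt F) 1 1 = 1 := rfl

theorem comm_entries {x y : Mt F} (h : x * y = y * x) :
    x 0 1 * y 1 0 = y 0 1 * x 1 0 ∧ (x 0 0 - x 1 1) * y 0 1 = (y 0 0 - y 1 1) * x 0 1 ∧
      (x 0 0 - x 1 1) * y 1 0 = (y 0 0 - y 1 1) * x 1 0 := by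
  have h00 := congrFun (congrFun h 0) 0
  have h01 := congrFun (congrFun h 0) 1
  have h10 := congrFun (congrFun h 1) 0
  rw [mul00, mul00] at h00
  rw [mul01, mul01] at h01
  rw [mul10, mul10] at h10
  refine ⟨?_, ?_, ?_⟩
  · linear_combination h00
  · linear_combination h01
  · linear_combination -h10

theorem comm_form {x y : Mt F} (hx : ¬ Sc x) (h : x * y = y * x) :
    ∃ a b : F, y = a • (1 : Mt F) + b • x := by
  obtain ⟨h1, h2, h3⟩ := comm_entries h
  have key : ∃ b : F, y 0 1 = b * x 0 1 ∧ y 1 0 = b * x 1 0 ∧ y 0 0 - y 1 1 = b * (x 0 0 - x 1 1) := by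
    by_cases c1 : x 0 1 = 0
    · by_cases c2 : x 1 0 = 0
      · have c3 : x 0 0 - x 1 1 ≠ 0 := by
          intro h0
          exact hx ⟨c1, c2, sub_eq_zero.1 h0⟩
        refine ⟨(y 0 0 - y 1 1) / (x 0 0 - x 1 1), ?_, ?_, ?_⟩
        · field_simp
          linear_combination h2
        · field_simp
          linear_combination h3
        · field_simp
      · refine ⟨y 1 0 / x 1 0, ?_, ?_, ?_⟩
        · field_simp
          linear_combination -h1
        · field_simp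
        · field_simp
          linear_combination -h3
    · refine ⟨y 0 1 / x 0 1, ?_, ?_, ?_⟩
      · field_simp
      · field_simp
        linear_combination h1
      · field_simp
        linear_combination -h2
  obtain ⟨b, k1, k2, k3⟩ := key
  refine ⟨y 0 0 - b * x 0 0, b, ?_⟩
  apply mt_ext
  · simp [one00]
  · simp [one01, k1]
  · simp [one10, k2]
  · simp [one11]
    linear_combination -k3

theorem comm_trans {x y z : Mt F} (hy : ¬ Sc y) (h1 : x * y = y * x) (h2 : y * z = z * y) :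
    x * z = z * x := by
  obtain ⟨a, b, rfl⟩ := comm_form hy h1.symm
  obtain ⟨c, d, rfl⟩ := comm_form hy h2
  simp only [add_mul, mul_add, smul_mul_assoc, mul_smul_comm, one_mul, mul_one]
  simp only [smul_add, smul_smul]
  rw [mul_comm c a, mul_comm c b, mul_comm d a, mul_comm d b]
  abel

theorem nl_entries {x : Mt F} (h : x * x = 0) : x 1 1 = - x 0 0 ∧ x 0 0 * x 0 0 + x 0 1 * x 1 0 = 0 := by
  have h00 := congrFun (congrFun h 0) 0
  have h01 := congrFun (congrFun h 0) 1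
  have h10 := congrFun (congrFun h 1) 0
  have h11 := congrFun (congrFun h 1) 1
  rw [mul00] at h00
  rw [mul01] at h01
  rw [mul10] at h10
  rw [mul11] at h11
  change _ = (0 : F) at h00
  change _ = (0 : F) at h01
  change _ = (0 : F) at h10
  change _ = (0 : F) at h11
  refine ⟨?_, h00⟩
  by_contra hne
  have ht : x 0 0 + x 1 1 ≠ 0 := fun h0 => hne (by linear_combination h0)
  have e01 : x 0 1 = 0 := by
    have : x 0 1 * (x 0 0 + x 1 1) = 0 := by linear_combination h01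
    exact (mul_eq_zero.1 this).resolve_right ht
  have e10 : x 1 0 = 0 := by
    have : x 1 0 * (x 0 0 + x 1 1) = 0 := by linear_combination h10
    exact (mul_eq_zero.1 this).resolve_right ht
  rw [e01, zero_mul, add_zero] at h00
  rw [e01, mul_zero, zero_add] at h11
  have e00 : x 0 0 = 0 := mul_self_eq_zero.1 h00
  have e11 : x 1 1 = 0 := mul_self_eq_zero.1 h11
  apply ht
  rw [e00, e11, add_zero]

theorem nl_of {x : Mt F} (h1 : tc x = 0) (h2 : dt x = 0) : x * x = 0 := by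
  unfold tc at h1
  unfold dt at h2
  apply mt_ext
  · rw [mul00]
    change _ = (0 : F)
    linear_combination x 0 0 * h1 - h2
  · rw [mul01]
    change _ = (0 : F)
    linear_combination x 0 1 * h1
  · rw [mul10]
    change _ = (0 : F)
    linear_combination x 1 0 * h1
  · rw [mul11]
    change _ = (0 : F)
    linear_combination x 1 1 * h1 - h2

theorem Nl.not_sc {x : Mt F} (h : Nl x) : ¬ Sc x := by
  rintro ⟨h1, h2, h3⟩
  obtain ⟨h4, h5⟩ := nl_entries h.2
  rw [h1, zero_mul, add_zero] at h5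
  have h6 : x 0 0 = 0 := mul_self_eq_zero.1 h5
  apply h.1
  apply mt_ext
  · exact h6
  · exact h1
  · exact h2
  · rw [h4, h6, neg_zero]; rfl

theorem nl_comm {x y : Mt F} (hx : x * x = 0) (hy : y * y = 0) (h : tc (x * y) = 0) :
    x * y = y * x := by
  obtain ⟨a1, a2⟩ := nl_entries hx
  obtain ⟨b1, b2⟩ := nl_entries hy
  unfold tc at h
  rw [mul00, mul11, a1, b1] at h
  have k1 : x 0 1 * y 1 0 - y 0 1 * x 1 0 = 0 := by
    have : (x 0 1 * y 1 0 - y 0 1 * x 1 0) * (x 0 1 * y 1 0 - y 0 1 * x 1 0) = 0 := by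
      linear_combination (x 0 1 * y 1 0 + x 1 0 * y 0 1 - 2 * x 0 0 * y 0 0) * h +
        4 * y 0 0 * y 0 0 * a2 - 4 * x 0 1 * x 1 0 * b2
    exact mul_self_eq_zero.1 this
  have k2 : x 0 0 * y 0 1 - y 0 0 * x 0 1 = 0 := by
    have : (x 0 0 * y 0 1 - y 0 0 * x 0 1) * (x 0 0 * y 0 1 - y 0 0 * x 0 1) = 0 := by
      linear_combination (-(x 0 1 * y 0 1)) * h + y 0 1 * y 0 1 * a2 + x 0 1 * x 0 1 * b2
    exact mul_self_eq_zero.1 this
  have k3 : x 0 0 * y 1 0 - y 0 0 * x 1 0 = 0 := by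
    have : (x 0 0 * y 1 0 - y 0 0 * x 1 0) * (x 0 0 * y 1 0 - y 0 0 * x 1 0) = 0 := by
      linear_combination (-(x 1 0 * y 1 0)) * h + y 1 0 * y 1 0 * a2 + x 1 0 * x 1 0 * b2
    exact mul_self_eq_zero.1 this
  apply mt_ext
  · rw [mul00, mul00]
    linear_combination k1
  · rw [mul01, mul01, a1, b1]
    linear_combination 2 * k2
  · rw [mul10, mul10, a1, b1]
    linear_combination -2 * k3
  · rw [mul11, mul11, a1, b1]
    linear_combination -k1

/-- a matrix which is not scalar preserves at most two lines -/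
theorem three {g x y z : Mt F} (hg : ¬ Sc g) (hx : x * x = 0) (hy : y * y = 0) (hz : z * z = 0)
    (h1 : tc (g * x) = 0) (h2 : tc (g * y) = 0) (h3 : tc (g * z) = 0) :
    x * y = y * x ∨ y * z = z * y ∨ x * z = z * x := by
  obtain ⟨a1, a2⟩ := nl_entries hx
  obtain ⟨b1, b2⟩ := nl_entries hy
  obtain ⟨c1, c2⟩ := nl_entries hz
  have h1' := h1
  have h2' := h2
  have h3' := h3
  unfold tc at h1' h2' h3'
  rw [mul00, mul11, a1] at h1'
  rw [mul00, mul11, b1] at h2'
  rw [mul00, mul11, c1] at h3'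
  -- the determinant of the three vectors vanishes
  obtain ⟨D, hD⟩ : ∃ D, D = x 0 0 * (y 0 1 * z 1 0 - y 1 0 * z 0 1) -
    x 0 1 * (y 0 0 * z 1 0 - y 1 0 * z 0 0) + x 1 0 * (y 0 0 * z 0 1 - y 0 1 * z 0 0) := ⟨_, rfl⟩
  have hD0 : D = 0 := by
    have d1 : D * (g 0 0 - g 1 1) = 0 := by
      rw [hD]
      linear_combination (y 0 1 * z 1 0 - y 1 0 * z 0 1) * h1' -
        (x 0 1 * z 1 0 - x 1 0 * z 0 1) * h2' + (x 0 1 * y 1 0 - x 1 0 * y 0 1) * h3'
    have d2 : D * g 0 1 = 0 := by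
      rw [hD]
      linear_combination (y 0 0 * z 0 1 - y 0 1 * z 0 0) * h1' -
        (x 0 0 * z 0 1 - x 0 1 * z 0 0) * h2' + (x 0 0 * y 0 1 - x 0 1 * y 0 0) * h3'
    have d3 : D * g 1 0 = 0 := by
      rw [hD]
      linear_combination -(y 0 0 * z 1 0 - y 1 0 * z 0 0) * h1' +
        (x 0 0 * z 1 0 - x 1 0 * z 0 0) * h2' - (x 0 0 * y 1 0 - x 1 0 * y 0 0) * h3'
    by_contra hne
    apply hg
    refine ⟨(mul_eq_zero.1 d2).resolve_left hne, (mul_eq_zero.1 d3).resolve_left hne, ?_⟩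
    exact sub_eq_zero.1 ((mul_eq_zero.1 d1).resolve_left hne)
  -- the Gram determinant
  have hprod : tc (x * y) * tc (y * z) * tc (x * z) = 0 := by
    have e1 : tc (x * y) = 2 * x 0 0 * y 0 0 + x 0 1 * y 1 0 + x 1 0 * y 0 1 := by
      unfold tc
      rw [mul00, mul11, a1, b1]
      ring
    have e2 : tc (y * z) = 2 * y 0 0 * z 0 0 + y 0 1 * z 1 0 + y 1 0 * z 0 1 := by
      unfold tc
      rw [mul00, mul11, b1, c1]
      ring
    have e3 : tc (x * z) = 2 * x 0 0 * z 0 0 + x 0 1 * z 1 0 + x 1 0 * z 0 1 := by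
      unfold tc
      rw [mul00, mul11, a1, c1]
      ring
    have e4 : tc (x * y) * tc (y * z) * tc (x * z) = - D ^ 2 := by
      rw [e1, e2, e3, hD]
      linear_combination ((2 * y 0 0 * z 0 0 + y 0 1 * z 1 0 + y 1 0 * z 0 1) ^ 2 -
        4 * (y 0 0 * y 0 0 + y 0 1 * y 1 0) * (z 0 0 * z 0 0 + z 0 1 * z 1 0)) * a2 +
        (2 * x 0 0 * z 0 0 + x 0 1 * z 1 0 + x 1 0 * z 0 1) ^ 2 * b2 +
        (2 * x 0 0 * y 0 0 + x 0 1 * y 1 0 + x 1 0 * y 0 1) ^ 2 * c2
    rw [e4, hD0]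
    ring
  rcases mul_eq_zero.1 hprod with h | h
  · rcases mul_eq_zero.1 h with h | h
    · exact Or.inl (nl_comm hx hy h)
    · exact Or.inr (Or.inl (nl_comm hy hz h))
  · exact Or.inr (Or.inr (nl_comm hx hz h))

end Pool.Agent.J4.H41.GT
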