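import Pool.Agent.J4.H41.GT.Dg
import Pool.Agent.Y430.SS.Lf

/-!
# Linear groups over algebraic extensions
-/

set_option autoImplicit false

namespace Pool.Agent.J4.H41.GT

open Pool.Agent.Y110.FJ (ClosedE)
open Pool.Agent.R941.FJ (C_equiv C_le C_cyc mem_sup_normal)

section lg

variable {Cl : ∀ (G : Type) [Group G], Prop} (k₀ : Type) [Field k₀]

/-- restriction of scalars for matrices -/
noncomputable def rsHom (L : Type) [Field L] [Algebra k₀ L] [Module.Finite k₀ L] (n : Type)
    [Fintype n] [DecidableEq n] : Matrix n n L →* Matrix (Fin (Module.finrank k₀ (n → L)))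
      (Fin (Module.finrank k₀ (n → L))) k₀ where
  toFun M := LinearMap.toMatrixAlgEquiv (Module.finBasis k₀ (n → L))
    ((Matrix.toLin' M).restrictScalars k₀)
  map_one' := by
    rw [Matrix.toLin'_one]
    exact map_one (LinearMap.toMatrixAlgEquiv (Module.finBasis k₀ (n → L)))
  map_mul' M N := by
    rw [Matrix.toLin'_mul, ← map_mul]
    rfl

theorem rsHom_injective (L : Type) [Field L] [Algebra k₀ L] [Module.Finite k₀ L] (n : Type)
    [Fintype n] [DecidableEq n] : Function.Injective (rsHom k₀ L n) := by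
  intro M N h
  have h1 := (LinearMap.toMatrixAlgEquiv (Module.finBasis k₀ (n → L))).injective h
  have h2 := LinearMap.restrictScalars_injective k₀ h1
  exact Matrix.toLin'.injective h2

theorem C_fld (hC : ClosedE Cl) (hL : ∀ m : ℕ, Cl (Matrix.GeneralLinearGroup (Fin m) k₀))
    (L : Type) [Field L] [Algebra k₀ L] [Module.Finite k₀ L] (n : Type) [Fintype n]
    [DecidableEq n] : Cl (Matrix n n L)ˣ :=
  hC.base.of_injective _ _ (Units.map (rsHom k₀ L n)) (Units.map_injective (rsHom_injective k₀ L n))
    (hL _)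

/-- matrices with entries in a subfield -/
theorem ent_mem {K : Type} [Field K] [Algebra k₀ K] (L : IntermediateField k₀ K) (n : Type)
    [Fintype n] [DecidableEq n] (S : Set (Matrix n n K)ˣ)
    (hS : ∀ s ∈ S, ∀ i j, s.val i j ∈ L ∧ (s⁻¹).val i j ∈ L) (x : (Matrix n n K)ˣ)
    (hx : x ∈ Subgroup.closure S) : ∀ i j, x.val i j ∈ L ∧ (x⁻¹).val i j ∈ L := by
  induction hx using Subgroup.closure_induction with
  | mem y hy => exact hS y hy
  | one =>
    intro i j
    rw [inv_one]
    have : (1 : Matrix n n K) i j ∈ L := by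
      by_cases h : i = j
      · subst h
        rw [Matrix.one_apply_eq]
        exact one_mem _
      · rw [Matrix.one_apply_ne h]
        exact zero_mem _
    exact ⟨this, this⟩
  | mul a b _ _ ha hb =>
    intro i j
    rw [mul_inv_rev]
    constructor
    · change (a.val * b.val) i j ∈ L
      rw [Matrix.mul_apply]
      exact sum_mem fun l _ => mul_mem (ha i l).1 (hb l j).1
    · change ((b⁻¹).val * (a⁻¹).val) i j ∈ L
      rw [Matrix.mul_apply]
      exact sum_mem fun l _ => mul_mem (hb i l).2 (ha l j).2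
  | inv a _ ha =>
    intro i j
    rw [inv_inv]
    exact ⟨(ha i j).2, (ha i j).1⟩

/-- linear groups over algebraic extensions -/
theorem C_alg (hC : ClosedE Cl) (hL : ∀ m : ℕ, Cl (Matrix.GeneralLinearGroup (Fin m) k₀))
    (K : Type) [Field K] [Algebra k₀ K] (hK : Algebra.IsAlgebraic k₀ K) (n : Type) [Fintype n]
    [DecidableEq n] : Cl (Matrix n n K)ˣ := by
  classical
  refine Pool.Agent.N509.TX.of_fg hC fun H hH => ?_
  rw [Group.fg_iff_subgroup_fg] at hH
  obtain ⟨S, hS⟩ := hH
  obtain ⟨T, hT⟩ : ∃ T : Finset K, ∀ s ∈ S, ∀ i j, s.val i j ∈ T ∧ (s⁻¹).val i j ∈ T := by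
    refine ⟨S.biUnion fun s => Finset.univ.biUnion fun i : n =>
      Finset.univ.biUnion fun j : n => {s.val i j, (s⁻¹).val i j}, fun s hs i j => ⟨?_, ?_⟩⟩
    · simp only [Finset.mem_biUnion, Finset.mem_univ, true_and, Finset.mem_insert,
        Finset.mem_singleton]
      exact ⟨s, hs, i, j, Or.inl rfl⟩
    · simp only [Finset.mem_biUnion, Finset.mem_univ, true_and, Finset.mem_insert,
        Finset.mem_singleton]
      exact ⟨s, hs, i, j, Or.inr rfl⟩
  have hfin : Module.Finite k₀ (IntermediateField.adjoin k₀ (T : Set K)) :=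
    IntermediateField.finiteDimensional_adjoin fun x _ => (hK.isAlgebraic x).isIntegral
  obtain ⟨L, hLdef⟩ : ∃ L : IntermediateField k₀ K, L = IntermediateField.adjoin k₀ (T : Set K) :=
    ⟨_, rfl⟩
  rw [← hLdef] at hfin
  have hent : ∀ x ∈ H, ∀ i j, x.val i j ∈ L ∧ (x⁻¹).val i j ∈ L := by
    intro x hx
    rw [← hS] at hx
    have hsub : ∀ c ∈ T, c ∈ L := by
      intro c hc
      rw [hLdef]
      exact IntermediateField.subset_adjoin _ _ hc
    exact ent_mem k₀ L n (S : Set (Matrix n n K)ˣ)
      (fun s hs i j => ⟨hsub _ (hT s hs i j).1, hsub _ (hT s hs i j).2⟩) x hx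
  have hι : Function.Injective (algebraMap L K) := (algebraMap L K).injective
  have hmi : Function.Injective (Units.map (((algebraMap L K).mapMatrix :
      Matrix n n L →+* Matrix n n K).toMonoidHom)) := by
    apply Units.map_injective
    intro A B h
    exact Matrix.map_injective hι h
  have hle : H ≤ (Units.map (((algebraMap L K).mapMatrix :
      Matrix n n L →+* Matrix n n K).toMonoidHom)).range := by
    intro x hx
    let A : Matrix n n L := Matrix.of fun i j => ⟨x.val i j, (hent x hx i j).1⟩
    let B : Matrix n n L := Matrix.of fun i j => ⟨(x⁻¹).val i j, (hent x hx i j).2⟩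
    have hA : (algebraMap L K).mapMatrix A = x.val := by
      ext i j; rfl
    have hB : (algebraMap L K).mapMatrix B = (x⁻¹).val := by
      ext i j; rfl
    have hmm : Function.Injective ((algebraMap L K).mapMatrix : Matrix n n L →+* Matrix n n K) := by
      intro A B h
      exact Matrix.map_injective hι h
    refine ⟨⟨A, B, ?_, ?_⟩, ?_⟩
    · apply hmm
      rw [map_mul, hA, hB, map_one]
      exact x.mul_inv
    · apply hmm
      rw [map_mul, hA, hB, map_one]
      exact x.inv_mul
    · apply Units.ext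
      exact hA
  refine C_le hC.base hle ?_
  exact C_equiv hC.base (MonoidHom.ofInjective hmi).symm (C_fld k₀ hC hL L n)

/-- linear groups over algebraic extensions of finite fields and of fields as above -/
theorem C_alg' (hC : ClosedE Cl)
    (hL : Finite k₀ ∨ ∀ m : ℕ, Cl (Matrix.GeneralLinearGroup (Fin m) k₀))
    (K : Type) [Field K] [Algebra k₀ K] (hK : Algebra.IsAlgebraic k₀ K) (n : Type) [Fintype n]
    [DecidableEq n] : Cl (Matrix n n K)ˣ := by
  refine C_alg k₀ hC ?_ K hK n
  rcases hL with h | h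
  · intro m
    have : Finite (Matrix (Fin m) (Fin m) k₀) := inferInstanceAs (Finite (Fin m → Fin m → k₀))
    exact Pool.Agent.Y430.SS.of_finite hC.base _ inferInstance
  · exact h

/-- matrices of size two as matrices of size four -/
def blk : Matrix (Fin 2) (Fin 2) k₀ →* Matrix (Fin 2 ⊕ Fin 2) (Fin 2 ⊕ Fin 2) k₀ where
  toFun A := Matrix.fromBlocks A 0 0 1
  map_one' := Matrix.fromBlocks_one
  map_mul' A B := by
    rw [Matrix.fromBlocks_multiply]
    simp

theorem C_two (hC : ClosedE Cl) (h : Cl (Matrix.GeneralLinearGroup (Fin 4) k₀)) :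
    Cl (Matrix.GeneralLinearGroup (Fin 2) k₀) := by
  let f : Matrix (Fin 2) (Fin 2) k₀ →* Matrix (Fin 4) (Fin 4) k₀ :=
    ((Matrix.reindexAlgEquiv k₀ k₀ (finSumFinEquiv (m := 2) (n := 2))).toMulEquiv.toMonoidHom).comp
      (blk k₀)
  have hf : Function.Injective f := by
    intro A B hAB
    have h1 := (Matrix.reindexAlgEquiv k₀ k₀ (finSumFinEquiv (m := 2) (n := 2))).injective hAB
    exact (Matrix.fromBlocks_inj.1 h1).1
  exact hC.base.of_injective _ _ (Units.map f) (Units.map_injective hf) h

end lg

end Pool.Agent.J4.H41.GT
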