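import Pool.Agent.J4.H41.GT.Act
import Pool.Agent.Y529.FJ.Ext

/-!
# Groups in the class
-/

set_option autoImplicit false

namespace Pool.Agent.J4.H41.GT

open Pool.Agent.Y110.FJ (ClosedE)
open Pool.Agent.R941.FJ (C_equiv C_le C_cyc mem_sup_normal)

variable {Cl : ∀ (G : Type) [Group G], Prop}

/-- extensions with abelian kernels -/
theorem C_abker (hC : ClosedE Cl) (hM : ∀ (G : Type) [Group G], derivedSeries G 2 = ⊥ → Cl G)
    {G H : Type} [Group G] [Group H] (f : G →* H)
    (hab : ∀ x y, f x = 1 → f y = 1 → x * y = y * x) (hH : Cl H) : Cl G := by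
  have hN : Cl f.ker := hM _ (Pool.Agent.N509.TK.metab ⊤
    (fun x _ y _ => Subtype.ext (hab x y x.2 y.2)) (fun x y => Subgroup.mem_top _))
  refine Pool.Agent.Y529.FJ.t_ext Cl hC G f.ker hN ?_ ?_
  · exact hC.base.of_injective _ _ (QuotientGroup.kerLift f) (QuotientGroup.kerLift_injective f) hH
  · intro g _
    refine hM _ (Pool.Agent.N509.TK.metab (f.ker.subgroupOf _)
      (fun x hx y hy => Subtype.ext (hab x y hx hy)) (fun x y => ?_))
    obtain ⟨x, hx⟩ := x
    obtain ⟨y, hy⟩ := y
    change f (x * y * x⁻¹ * y⁻¹) = 1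
    rw [← commutatorElement_def, map_commutatorElement, commutatorElement_eq_one_iff_mul_comm]
    have key : ∀ z ∈ f.ker ⊔ Subgroup.zpowers g, f z ∈ Subgroup.zpowers (f g) := by
      intro z hz
      have h1 : (f.ker ⊔ Subgroup.zpowers g).map f = Subgroup.zpowers (f g) := by
        rw [Subgroup.map_sup, MonoidHom.map_zpowers]
        rw [(Subgroup.map_eq_bot_iff f.ker).2 le_rfl, bot_sup_eq]
      rw [← h1]
      exact ⟨z, hz, rfl⟩
    obtain ⟨m, hm⟩ := key x hx
    obtain ⟨n, hn⟩ := key y hy
    rw [← hm, ← hn]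
    exact (Commute.refl (f g)).zpow_zpow m n

theorem C_commg (hM : ∀ (G : Type) [Group G], derivedSeries G 2 = ⊥ → Cl G) (A : Type) [Group A]
    (h : ∀ x y : A, x * y = y * x) : Cl A := hM _ (Pool.Agent.N509.TK.metab ⊤
    (fun x _ y _ => h x y) (fun x y => Subgroup.mem_top _))

/-- homomorphisms to the affine group with abelian kernels -/
theorem C_tri (hC : ClosedE Cl) (hM : ∀ (G : Type) [Group G], derivedSeries G 2 = ⊥ → Cl G)
    {K F : Type} [Group K] [Field F] (f : K →* Mt F) (hf : ∀ p, ∃ a b : F, f p = !![1, a; 0, b])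
    (hab : ∀ p q, f p = 1 → f q = 1 → p * q = q * p) : Cl K := by
  have h1 : Cl f.toHomUnits.range := by
    let d : (Mt F)ˣ →* Fˣ := Units.map Matrix.detMonoidHom
    refine C_abker hC hM (d.comp f.toHomUnits.range.subtype) ?_ (C_commg hM _ mul_comm)
    have key : ∀ x : f.toHomUnits.range, d x = 1 → ∃ c : F,
        (x : (Mt F)ˣ).val = !![1, c; 0, 1] := by
      rintro ⟨_, φ, rfl⟩ hx
      obtain ⟨a, b, hab⟩ := hf φ
      have h2 : (f φ).det = 1 := congrArg (fun u : Fˣ => (u : F)) hx
      rw [hab, Matrix.det_fin_two_of] at h2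
      simp only [one_mul, mul_zero, sub_zero] at h2
      refine ⟨a, ?_⟩
      change f φ = _
      rw [hab, h2]
    intro x y hx hy
    obtain ⟨c, hc⟩ := key x hx
    obtain ⟨c', hc'⟩ := key y hy
    apply Subtype.ext
    apply Units.ext
    change (x : (Mt F)ˣ).val * (y : (Mt F)ˣ).val = (y : (Mt F)ˣ).val * (x : (Mt F)ˣ).val
    rw [hc, hc', Matrix.mul_fin_two, Matrix.mul_fin_two]
    simp [add_comm]
  refine C_abker hC hM f.toHomUnits.rangeRestrict ?_ h1
  intro x y hx hy
  exact hab x y (congrArg (fun u => u.1.val) hx) (congrArg (fun u => u.1.val) hy)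

section norm

open DV

variable {F : Type} [Field F] {V : DV F} {Rs : Subring F}

theorem cP_lin (g : (Mt F)ˣ) (a b : F) (x : Mt F) :
    cP g (a • (1 : Mt F) + b • x) = a • (1 : Mt F) + b • cP g x := by
  rw [cP_apply, cP_apply, mul_add, add_mul, mul_smul_comm, mul_one, smul_mul_assoc, g.mul_inv,
    mul_smul_comm, smul_mul_assoc]

theorem coef_unique {x : Mt F} (hx : ¬ Sc x) {a b c d : F}
    (h : a • (1 : Mt F) + b • x = c • (1 : Mt F) + d • x) : a = c ∧ b = d := by
  have h00 := congrFun (congrFun h 0) 0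
  have h01 := congrFun (congrFun h 0) 1
  have h10 := congrFun (congrFun h 1) 0
  have h11 := congrFun (congrFun h 1) 1
  simp [one00, one01, one10, one11] at h00 h01 h10 h11
  have hbd : b = d := by
    rcases h01 with h01 | h01
    · exact h01
    rcases h10 with h10 | h10
    · exact h10
    by_contra hne
    apply hx
    refine ⟨h01, h10, ?_⟩
    have h1 : (b - d) * (x 0 0 - x 1 1) = 0 := by linear_combination h00 - h11
    exact sub_eq_zero.1 ((mul_eq_zero.1 h1).resolve_left (sub_ne_zero.2 hne))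
  subst hbd
  refine ⟨?_, rfl⟩
  linear_combination h00

/-- groups which normalize a torus or a line -/
theorem C_norm (hC : ClosedE Cl) (hM : ∀ (G : Type) [Group G], derivedSeries G 2 = ⊥ → Cl G)
    (K : Subgroup (PG Rs)) (x : Mt F) (hx : ¬ Sc x) (hK : ∀ p ∈ K, x * p.1 x = p.1 x * x) : Cl K := by
  have hK' : ∀ p : K, ∃ a b : F, p.1.1 x = a • (1 : Mt F) + b • x := fun p =>
    comm_form hx (hK p.1 p.2)
  choose α β hαβ using hK'
  let f : K →* Mt F :=
    { toFun := fun p => !![1, α p; 0, β p]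
      map_one' := by
        have h1 := hαβ 1
        have h2 : ((1 : K).1.1 : Equiv.Perm (Mt F)) x = (0 : F) • (1 : Mt F) + (1 : F) • x := by
          change x = _
          rw [zero_smul, zero_add, one_smul]
        rw [h2] at h1
        obtain ⟨h3, h4⟩ := coef_unique hx h1
        change !![1, α 1; 0, β 1] = 1
        rw [← h3, ← h4, Matrix.one_fin_two]
      map_mul' := by
        intro p q
        obtain ⟨g, -, hg⟩ := PG_rep p.1
        have h1 : (p * q).1.1 x = p.1.1 (q.1.1 x) := rfl
        rw [hαβ (p * q), hαβ q, hg, cP_lin, ← hg, hαβ p] at h1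
        have h2 : α q • (1 : Mt F) + β q • (α p • (1 : Mt F) + β p • x) =
            (α q + β q * α p) • (1 : Mt F) + (β q * β p) • x := by
          rw [smul_add, smul_smul, smul_smul, ← add_assoc, add_smul]
        rw [h2] at h1
        obtain ⟨h3, h4⟩ := coef_unique hx h1
        change !![1, α (p * q); 0, β (p * q)] = !![1, α p; 0, β p] * !![1, α q; 0, β q]
        rw [h3, h4, Matrix.mul_fin_two]
        simp
        constructor <;> ring }
  refine C_tri hC hM f (fun p => ⟨_, _, rfl⟩) ?_
  have key : ∀ p : K, f p = 1 → p.1.1 x = x := by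
    intro p hp
    have h1 : !![1, α p; 0, β p] = (1 : Mt F) := hp
    have h2 := congrFun (congrFun h1 0) 1
    have h3 := congrFun (congrFun h1 1) 1
    simp at h2 h3
    rw [hαβ p, h2, h3, zero_smul, zero_add, one_smul]
  intro p q hp hq
  have hp' := key p hp
  have hq' := key q hq
  obtain ⟨g, -, hg⟩ := PG_rep p.1
  obtain ⟨h, -, hh⟩ := PG_rep q.1
  rw [hg, cP_apply] at hp'
  rw [hh, cP_apply] at hq'
  have c1 : g.val * x = x * g.val := by
    have e2 : (g⁻¹).val * g.val = 1 := g.inv_mul
    calc g.val * x = g.val * x * ((g⁻¹).val * g.val) := by rw [e2, mul_one]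
      _ = (g.val * x * (g⁻¹).val) * g.val := by simp only [mul_assoc]
      _ = x * g.val := by rw [hp']
  have c2 : h.val * x = x * h.val := by
    have e2 : (h⁻¹).val * h.val = 1 := h.inv_mul
    calc h.val * x = h.val * x * ((h⁻¹).val * h.val) := by rw [e2, mul_one]
      _ = (h.val * x * (h⁻¹).val) * h.val := by simp only [mul_assoc]
      _ = x * h.val := by rw [hq']
  have c3 : g * h = h * g := Units.ext (comm_trans hx c1 c2.symm)
  apply Subtype.ext
  apply Subtype.ext
  change p.1.1 * q.1.1 = q.1.1 * p.1.1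
  rw [hg, hh, ← map_mul, c3, map_mul]

end norm

end Pool.Agent.J4.H41.GT
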