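import Pool.Agent.J4.H41.GT.Stab3

/-!
# Cylinders
-/

set_option autoImplicit false

namespace Pool.Agent.J4.H41.GT

open DV SimpleGraph
open Pool.Agent.Y110.FJ (ClosedE)
open Pool.Agent.N509.TK (LR Cyl cy lk cs Mem Dt Mem_cy Mem_cy' cy_symm cy_rel Pres cyAct St St_exists
  St_smul St_unique f1 BB BB_tree BB_cases)
open Pool.Agent.N509.TX (AcylF C_edge C_stab of_fg)
open Pool.Agent.R941.FJ (C_equiv C_le C_cyc mem_sup_normal)

variable {Cl : ∀ (G : Type) [Group G], Prop}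
variable {F : Type} [Field F] {V : DV F} {Rs : Subring F}

/-- groups which act through the projective group -/
structure Thr (V : DV F) (Rs : Subring F) (G : Type) [Group G] [MulAction G (Vx V)]
    (φ : G →* PG Rs) : Prop where
  comm : ∀ x y : G, φ x = 1 → φ y = 1 → x * y = y * x
  card : ∀ A : Finset G, (∀ g ∈ A, φ g = 1) → A.card ≤ 2
  sm : ∀ (g : G) (S : Vx V), g • S = φ g • S

variable {G : Type} [Group G] [MulAction G (Vx V)] {φ : G →* PG Rs}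

theorem Thr.hact (hφ : Thr V Rs G φ) (g : G) (u v : Vx V) (h : (Gr V).Adj u v) :
    (Gr V).Adj (g • u) (g • v) := by
  rw [hφ.sm, hφ.sm]
  exact GT.hact (φ g) u v h

theorem Thr.lr (hφ : Thr V Rs G φ) (hR : Str V Rs) : LR G (Gr V) (rl Rs) where
  refl := (GT.lr hR).refl
  symm := (GT.lr hR).symm
  trans := (GT.lr hR).trans
  eqv := by
    intro g w a b h
    rw [hφ.sm, hφ.sm, hφ.sm]
    exact (GT.lr hR).eqv (φ g) w a b h

/-- the stabilizers of the cylinders -/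
theorem C_cylst (hC : ClosedE Cl) (hM : ∀ (G : Type) [Group G], derivedSeries G 2 = ⊥ → Cl G)
    (hR : Str V Rs) (hφ : Thr V Rs G φ) (hV : ∀ S : Vx V, Cl (MulAction.stabilizer G S))
    (y : Cyl (Gr V) (rl Rs)) (K : Subgroup G) (hK : ∀ g ∈ K, Pres hφ.hact y g) : Cl K := by
  obtain ⟨⟨⟨v0, a0⟩, h0⟩, hy⟩ := Quotient.exists_rep y
  have h0 : (Gr V).Adj v0 a0 := h0
  have hy : cy (rl Rs) h0 = y := hy
  have hE : ∀ g ∈ K, (((g • v0, g • a0) = (v0, a0)) ∨ ((g • v0, g • a0) = (a0, v0))) ∨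
      Rel (Ae Rs (g • v0) (g • a0)) (Ae Rs v0 a0) := fun g hg =>
    Er_cy hR (hφ.hact g v0 a0 h0) h0 ((hK g hg v0 a0 h0 hy).trans hy.symm)
  have hEA : ∀ g : G, (((g • v0, g • a0) = (v0, a0)) ∨ ((g • v0, g • a0) = (a0, v0))) →
      Ae Rs (g • v0) (g • a0) = Ae Rs v0 a0 := by
    rintro g (h | h)
    · have e1 : g • v0 = v0 := congrArg Prod.fst h
      have e2 : g • a0 = a0 := congrArg Prod.snd h
      rw [e1, e2]
    · have e1 : g • v0 = a0 := congrArg Prod.fst h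
      have e2 : g • a0 = v0 := congrArg Prod.snd h
      rw [e1, e2, Ae_symm]
  have hto : ∀ (x : Mt F), ¬ Sc x → (∀ p ∈ K.map φ, x * p.1 x = p.1 x * x) → Cl K := by
    intro x hx hp
    refine C_abker hC hM (φ.subgroupMap K) ?_ (C_norm hC hM (K.map φ) x hx hp)
    intro a b ha hb
    apply Subtype.ext
    exact hφ.comm a b (congrArg Subtype.val ha) (congrArg Subtype.val hb)
  have hmv : ∀ (g : G) (h : (Mt F)ˣ), h ∈ GR Rs → (φ g).1 = cP h → ∀ x ∈ Ae Rs v0 a0,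
      cP h x ∈ Ae Rs (g • v0) (g • a0) := by
    intro g h hh hgh x hx
    rw [hφ.sm, hφ.sm]
    exact mem_Ae_smul hh hgh hx
  by_cases hn : HN (Ae Rs v0 a0)
  · obtain ⟨x, hx, hnx⟩ := hn
    refine hto x hnx.not_sc ?_
    rintro _ ⟨g, hg, rfl⟩
    obtain ⟨h, hh, hgh⟩ := PG_rep (φ g)
    rw [hgh]
    have hx' := hmv g h hh hgh x hx
    have hnx' : Nl (cP h x) := cP_Nl h hnx
    rcases hE g hg with he | he
    · rw [hEA g he] at hx'
      exact F1c hR h0 hx hx' hnx.2 hnx'.2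
    · rcases he with ⟨z, hz, w, hw, k1, k2, k3⟩ | ⟨-, k2, -⟩
      · have c1 := F1c hR (hφ.hact g v0 a0 h0) hx' hz hnx'.2 k1.2
        have c2 := F1c hR h0 hw hx k2.2 hnx.2
        exact (comm_trans k2.not_sc (comm_trans k1.not_sc c1 k3) c2).symm
      · exact absurd ⟨x, hx, hnx⟩ k2
  · by_cases hs : ∃ x ∈ Ae Rs v0 a0, ¬ Sc x
    · obtain ⟨x, hx, hsx⟩ := hs
      refine hto x hsx ?_
      rintro _ ⟨g, hg, rfl⟩
      obtain ⟨h, hh, hgh⟩ := PG_rep (φ g)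
      rw [hgh]
      have hx' := hmv g h hh hgh x hx
      rcases hE g hg with he | he
      · rw [hEA g he] at hx'
        exact F2 hR h0 hn hx hx'
      · rcases he with ⟨z, hz, w, hw, k1, k2, k3⟩ | ⟨k1, k2, z, hz, w, hw, k3, k4, k5⟩
        · exact absurd ⟨w, hw, k2⟩ hn
        · have c1 := F2 hR (hφ.hact g v0 a0 h0) k1 hx' hz
          have c2 := F2 hR h0 k2 hw hx
          exact (comm_trans k4 (comm_trans k3 c1 k5) c2).symm
    · push Not at hs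
      refine C_edge hC v0 a0 (hV v0) K fun g hg => ?_
      rcases hE g hg with (he | he) | he
      · exact Or.inl ⟨congrArg Prod.fst he, congrArg Prod.snd he⟩
      · exact Or.inr ⟨congrArg Prod.fst he, congrArg Prod.snd he⟩
      · rcases he with ⟨z, hz, w, hw, k1, k2, k3⟩ | ⟨k1, k2, z, hz, w, hw, k3, k4, k5⟩
        · exact absurd (hs w hw) k2.not_sc
        · exact absurd (hs w hw) k4

/-- the cylinder contains a nilpotent matrix which `h` normalizes -/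
def Qn (h : Mt F) (y : Cyl (Gr V) (rl Rs)) : Prop :=
  ∃ (a b : Vx V) (hab : (Gr V).Adj a b) (N : Mt F), cy (rl Rs) hab = y ∧ N ∈ Ae Rs a b ∧ Nl N ∧
    tc (h * N) = 0

/-- at most two cylinders -/
theorem Qn_three {h : Mt F} (hh : ¬ Sc h) {y0 y1 y2 : Cyl (Gr V) (rl Rs)} (h0 : Qn h y0)
    (h1 : Qn h y1) (h2 : Qn h y2) : y0 = y1 ∨ y1 = y2 ∨ y0 = y2 := by
  obtain ⟨a0, b0, e0, x, rfl, hx, nx, tx⟩ := h0
  obtain ⟨a1, b1, e1, y, rfl, hy, ny, ty⟩ := h1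
  obtain ⟨a2, b2, e2, z, rfl, hz, nz, tz⟩ := h2
  rcases three hh nx.2 ny.2 nz.2 tx ty tz with h | h | h
  · exact Or.inl (cy_of_comm nx ny h e0 e1 hx hy)
  · exact Or.inr (Or.inl (cy_of_comm ny nz h e1 e2 hy hz))
  · exact Or.inr (Or.inr (cy_of_comm nx nz h e0 e2 hx hz))

/-- two neighbouring cylinders -/
theorem Qn_or (hR : Str V Rs) (hφ : Thr V Rs G φ) {g : G} {h : (Mt F)ˣ} (hh : h ∈ GR Rs)
    (hgh : (φ g).1 = cP h) (hs : ¬ Sc h.val) {v0 v1 v2 : Vx V} {y0 y1 : Cyl (Gr V) (rl Rs)}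
    (h01 : v0 ≠ v1) (h12 : v1 ≠ v2) (hy : y0 ≠ y1) (m00 : Mem y0 v0) (m01 : Mem y0 v1)
    (m11 : Mem y1 v1) (m12 : Mem y1 v2) (hg0 : g • v0 = v0) (hg1 : g • v1 = v1)
    (hg2 : g • v2 = v2) : Qn h.val y0 ∨ Qn h.val y1 := by
  have hT := tree V
  have hr := hφ.lr hR
  obtain ⟨s, hs0⟩ := St_exists hT h01.symm
  obtain ⟨t, ht⟩ := St_exists hT h12
  have hs1 := f1 hT hr m01 m00 hs0
  have ht1 := f1 hT hr m11 m12 ht
  have hgs : g • s = s := by
    have := St_smul hφ.hact g hs0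
    rw [hg0, hg1] at this
    exact St_unique hT.isAcyclic this hs0
  have hgt : g • t = t := by
    have := St_smul hφ.hact g ht
    rw [hg1, hg2] at this
    exact St_unique hT.isAcyclic this ht
  have hm : ∀ S : Vx V, g • S = S → h.val ∈ S.1 := fun S hS =>
    mem_of_fix hR hh hgh S (by rw [← hφ.sm, hS])
  have hA : h.val ∈ Ae Rs v1 s := ⟨hm _ hg1, hm _ hgs, hh.1⟩
  have hB : h.val ∈ Ae Rs v1 t := ⟨hm _ hg1, hm _ hgt, hh.1⟩
  have hrel : ¬ Rel (Ae Rs v1 s) (Ae Rs v1 t) := by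
    intro hr'
    apply hy
    rw [← hs1, ← ht1]
    exact cy_rel hs0.1 ht.1 (Or.inr hr')
  by_cases c1 : HN (Ae Rs v1 s)
  · obtain ⟨N, hN, hn⟩ := c1
    exact Or.inl ⟨v1, s, hs0.1, N, hs1, hN, hn, F1 hR hs0.1 hA hN hn.2⟩
  · by_cases c2 : HN (Ae Rs v1 t)
    · obtain ⟨N, hN, hn⟩ := c2
      exact Or.inr ⟨v1, t, ht.1, N, ht1, hN, hn, F1 hR ht.1 hB hN hn.2⟩
    · exact absurd (Or.inr ⟨c1, c2, h.val, hA, h.val, hB, hs, hs, rfl⟩) hrel

end Pool.Agent.J4.H41.GT
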