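import Pool.Agent.J4.H41.GT.Main

/-!
# Degree functions
-/

set_option autoImplicit false

namespace Pool.Agent.J4.H41.GT

open DV

/-- degree functions -/
structure Dg {R : Type} [CommRing R] (deg : R → ℕ) : Prop where
  mul : ∀ x y : R, x ≠ 0 → y ≠ 0 → deg (x * y) = deg x + deg y
  add : ∀ x y : R, x ≠ 0 → y ≠ 0 → x + y ≠ 0 → deg (x + y) ≤ max (deg x) (deg y)

section dg

variable {R : Type} [CommRing R] [IsDomain R] {deg : R → ℕ}

theorem Dg.one (hd : Dg deg) : deg 1 = 0 := by
  have h := hd.mul 1 1 one_ne_zero one_ne_zero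
  rw [mul_one] at h
  omega

variable (deg) in
/-- minus the degree of a fraction -/
noncomputable def wt (z : FractionRing R) : ℤ :=
  (deg ((IsLocalization.sec (nonZeroDivisors R) z).2 : R) : ℤ) -
    deg (IsLocalization.sec (nonZeroDivisors R) z).1

theorem wt_frac (hd : Dg deg) {x y : R} (hx : x ≠ 0) (hy : y ≠ 0) :
    wt deg (algebraMap R (FractionRing R) x / algebraMap R (FractionRing R) y) =
      (deg y : ℤ) - deg x := by
  obtain ⟨z, hz⟩ : ∃ z, z = algebraMap R (FractionRing R) x / algebraMap R (FractionRing R) y :=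
    ⟨_, rfl⟩
  rw [← hz]
  obtain ⟨s, hs⟩ : ∃ s, s = IsLocalization.sec (nonZeroDivisors R) z := ⟨_, rfl⟩
  have hinj : Function.Injective (algebraMap R (FractionRing R)) :=
    IsFractionRing.injective R (FractionRing R)
  have hy' : algebraMap R (FractionRing R) y ≠ 0 := fun h => hy (hinj (by rw [h, map_zero]))
  have h1 : z * algebraMap R (FractionRing R) s.2 = algebraMap R (FractionRing R) s.1 := by
    rw [hs]
    exact IsLocalization.sec_spec (nonZeroDivisors R) z
  have h2 : x * s.2 = s.1 * y := by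
    apply hinj
    rw [map_mul, map_mul, ← h1, hz]
    field_simp
  have hs2 : (s.2 : R) ≠ 0 := nonZeroDivisors.ne_zero s.2.2
  have hs1 : s.1 ≠ 0 := by
    intro h0
    rw [h0, zero_mul] at h2
    exact mul_ne_zero hx hs2 h2
  have h3 := hd.mul x s.2 hx hs2
  have h4 := hd.mul s.1 y hs1 hy
  rw [h2] at h3
  unfold wt
  rw [← hs]
  omega

theorem frac (z : FractionRing R) (hz : z ≠ 0) : ∃ x y : R, x ≠ 0 ∧ y ≠ 0 ∧
    z = algebraMap R (FractionRing R) x / algebraMap R (FractionRing R) y := by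
  obtain ⟨x, y, hy, h⟩ := IsFractionRing.div_surjective (A := R) z
  refine ⟨x, y, ?_, nonZeroDivisors.ne_zero hy, h.symm⟩
  rintro rfl
  rw [map_zero, zero_div] at h
  exact hz h.symm

theorem wt_mul (hd : Dg deg) {z z' : FractionRing R} (hz : z ≠ 0) (hz' : z' ≠ 0) :
    wt deg (z * z') = wt deg z + wt deg z' := by
  obtain ⟨x, y, hx, hy, rfl⟩ := frac z hz
  obtain ⟨x', y', hx', hy', rfl⟩ := frac z' hz'
  rw [div_mul_div_comm, ← map_mul, ← map_mul, wt_frac hd (mul_ne_zero hx hx') (mul_ne_zero hy hy'),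
    wt_frac hd hx hy, wt_frac hd hx' hy', hd.mul _ _ hx hx', hd.mul _ _ hy hy']
  push_cast
  ring

theorem wt_add (hd : Dg deg) {z z' : FractionRing R} (hz : z ≠ 0) (hz' : z' ≠ 0)
    (h : z + z' ≠ 0) : min (wt deg z) (wt deg z') ≤ wt deg (z + z') := by
  have hinj : Function.Injective (algebraMap R (FractionRing R)) :=
    IsFractionRing.injective R (FractionRing R)
  obtain ⟨x, y, hx, hy, rfl⟩ := frac z hz
  obtain ⟨x', y', hx', hy', rfl⟩ := frac z' hz'
  have hyy : algebraMap R (FractionRing R) y ≠ 0 := fun h => hy (hinj (by rw [h, map_zero]))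
  have hyy' : algebraMap R (FractionRing R) y' ≠ 0 := fun h => hy' (hinj (by rw [h, map_zero]))
  have e : algebraMap R (FractionRing R) x / algebraMap R (FractionRing R) y +
      algebraMap R (FractionRing R) x' / algebraMap R (FractionRing R) y' =
      algebraMap R (FractionRing R) (x * y' + y * x') / algebraMap R (FractionRing R) (y * y') := by
    rw [div_add_div _ _ hyy hyy', map_add, map_mul, map_mul, map_mul]
  have hs : x * y' + y * x' ≠ 0 := by
    intro h0
    rw [e, h0, map_zero, zero_div] at h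
    exact h rfl
  rw [e, wt_frac hd hs (mul_ne_zero hy hy'), wt_frac hd hx hy, wt_frac hd hx' hy',
    hd.mul _ _ hy hy']
  have h1 := hd.add (x * y') (y * x') (mul_ne_zero hx hy') (mul_ne_zero hy hx') hs
  rw [hd.mul _ _ hx hy', hd.mul _ _ hy hx'] at h1
  push_cast
  rcases le_total (deg x + deg y') (deg y + deg x') with h2 | h2
  · rw [max_eq_right h2] at h1
    apply min_le_iff.2
    right
    omega
  · rw [max_eq_left h2] at h1
    apply min_le_iff.2
    left
    omega

/-- the valuation of a degree function -/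
theorem exists_DV (hd : Dg deg) {t : R} (ht : t ≠ 0) (ht' : deg t ≠ 0) :
    ∃ (V : DV (FractionRing R)) (e : ℤ), 0 < e ∧ ∀ z, z ≠ 0 → wt deg z = e * V.v z := by
  have h1 : wt deg (1 : FractionRing R) = 0 := by
    have := wt_mul hd (one_ne_zero (α := FractionRing R)) one_ne_zero
    rw [mul_one] at this
    omega
  let Λ : AddSubgroup ℤ :=
    { carrier := {n | ∃ z, z ≠ 0 ∧ wt deg z = n}
      zero_mem' := ⟨1, one_ne_zero, h1⟩
      add_mem' := by
        rintro _ _ ⟨z, hz, rfl⟩ ⟨z', hz', rfl⟩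
        exact ⟨z * z', mul_ne_zero hz hz', wt_mul hd hz hz'⟩
      neg_mem' := by
        rintro _ ⟨z, hz, rfl⟩
        refine ⟨z⁻¹, inv_ne_zero hz, ?_⟩
        have := wt_mul hd hz (inv_ne_zero hz)
        rw [mul_inv_cancel₀ hz, h1] at this
        omega }
  obtain ⟨d, hΛ⟩ := Int.subgroup_cyclic Λ
  have hmem : ∀ n, n ∈ Λ ↔ ∃ m : ℤ, m • d = n := by
    intro n
    rw [hΛ, AddSubgroup.mem_closure_singleton]
  have hinj : Function.Injective (algebraMap R (FractionRing R)) :=
    IsFractionRing.injective R (FractionRing R)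
  have hd0 : d ≠ 0 := by
    rintro rfl
    have h2 : ((0 : ℤ) - deg t) ∈ Λ := by
      refine ⟨algebraMap R (FractionRing R) t / algebraMap R (FractionRing R) 1, ?_, ?_⟩
      · rw [map_one, div_one]
        intro h
        exact ht (hinj (by rw [h, map_zero]))
      · rw [wt_frac hd ht one_ne_zero, hd.one]
        rfl
    rw [hmem] at h2
    obtain ⟨m, hm⟩ := h2
    rw [smul_zero] at hm
    omega
  have hdvd : ∀ z, z ≠ 0 → |d| ∣ wt deg z := by
    intro z hz
    have h2 : wt deg z ∈ Λ := ⟨z, hz, rfl⟩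
    rw [hmem] at h2
    obtain ⟨m, hm⟩ := h2
    rw [abs_dvd, ← hm]
    exact ⟨m, by rw [smul_eq_mul, mul_comm]⟩
  have hpos : 0 < |d| := abs_pos.2 hd0
  have hsurj : ∃ z, z ≠ 0 ∧ wt deg z = |d| := by
    have h2 : |d| ∈ Λ := by
      rw [hmem]
      rcases abs_choice d with h | h
      · exact ⟨1, by rw [one_smul, h]⟩
      · exact ⟨-1, by rw [neg_smul, one_smul, h]⟩
    exact h2
  refine ⟨⟨fun z => wt deg z / |d|, ?_, ?_, ?_⟩, |d|, hpos, ?_⟩
  · intro x y hx hy
    rw [wt_mul hd hx hy, Int.add_ediv_of_dvd_left (hdvd x hx)]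
  · intro x y hx hy hxy
    have h2 := wt_add hd hx hy hxy
    rcases min_le_iff.1 h2 with h3 | h3
    · exact min_le_iff.2 (Or.inl (Int.ediv_le_ediv hpos h3))
    · exact min_le_iff.2 (Or.inr (Int.ediv_le_ediv hpos h3))
  · obtain ⟨z, hz, h2⟩ := hsurj
    refine ⟨z, hz, ?_⟩
    change wt deg z / |d| = 1
    rw [h2, Int.ediv_self hpos.ne']
  · intro z hz
    exact (Int.mul_ediv_cancel' (hdvd z hz)).symm

/-- the ring has one place at infinity -/
theorem str_of (hd : Dg deg) {V : DV (FractionRing R)} {e : ℤ} (he : 0 < e)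
    (hV : ∀ z, z ≠ 0 → wt deg z = e * V.v z) {r : R} (hr : r ≠ 0) :
    (deg r : ℤ) = - e * V.v (algebraMap R (FractionRing R) r) := by
  have hinj : Function.Injective (algebraMap R (FractionRing R)) :=
    IsFractionRing.injective R (FractionRing R)
  have h1 : algebraMap R (FractionRing R) r ≠ 0 := fun h => hr (hinj (by rw [h, map_zero]))
  have h2 := wt_frac hd hr one_ne_zero
  rw [map_one, div_one, hV _ h1, hd.one] at h2
  push_cast at h2
  linarith

theorem str_R (hd : Dg deg) {V : DV (FractionRing R)} {e : ℤ} (he : 0 < e)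
    (hV : ∀ z, z ≠ 0 → wt deg z = e * V.v z) :
    Str V (algebraMap R (FractionRing R)).range := by
  refine ⟨?_⟩
  rintro _ ⟨r, rfl⟩ h
  by_cases hr : r = 0
  · rw [hr, map_zero]
  rcases h with h | h
  · exact h
  · have h1 := str_of hd he hV hr
    have h2 : (0 : ℤ) ≤ deg r := Int.natCast_nonneg _
    nlinarith

end dg

end Pool.Agent.J4.H41.GT
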