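import Pool.Agent.J4.H41.GT.Ord

/-!
# The tree of the maximal orders
-/

set_option autoImplicit false

namespace Pool.Agent.J4.H41.GT

open DV SimpleGraph

variable {F : Type} [Field F] (V : DV F)

/-- the vertices: the maximal orders -/
def Vx : Type := {S : Set (Mt F) // ∃ h : (Mt F)ˣ, S = cj h (S0 V)}

variable {V}

theorem coord (S : Vx V) : ∃ a n, S.1 = ord V a n := by
  obtain ⟨S, h, rfl⟩ := S
  obtain ⟨a, b, d, ha, hd, κ, rfl, h1, h2⟩ := iwasawa V h
  refine ⟨(a * 0 + b) / d, 0 + V.v a - V.v d, ?_⟩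
  rw [← cj_up ha hd, ord00]
  change cj _ _ = _
  rw [cj_mul, cj_of_units S0_mul h1 h2]

variable (V) in
theorem exists_up (a : F) (n : ℤ) : ∃ h : (Mt F)ˣ, ∀ m, cj h (ord V 0 m) = ord V a (m + n) := by
  obtain ⟨t, ht, hv⟩ := exists_v (V := V) n
  refine ⟨up t a 1 ht one_ne_zero, fun m => ?_⟩
  rw [cj_up, hv, v_one, mul_zero, zero_add, div_one, sub_zero]

variable (V) in
/-- the vertex with given coordinates -/
def vx (a : F) (n : ℤ) : Vx V := ⟨ord V a n, by
  obtain ⟨h, hh⟩ := exists_up V a n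
  refine ⟨h, ?_⟩
  have := hh 0
  rw [ord00, zero_add] at this
  exact this.symm⟩

theorem vx_eq {a b : F} {n m : ℤ} (h : vx V a n = vx V b m) : n = m ∧ V.B n (a - b) :=
  ord_inj (congrArg Subtype.val h)

theorem vx_eq_of {a b : F} {n : ℤ} (h : V.B n (a - b)) : vx V a n = vx V b n :=
  Subtype.ext (ord_eq_of h)

theorem vx_surj (S : Vx V) : ∃ a n, S = vx V a n := by
  obtain ⟨a, n, h⟩ := coord S
  exact ⟨a, n, Subtype.ext h⟩

variable (V) in
/-- the graph of the maximal orders -/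
def Gr : SimpleGraph (Vx V) where
  Adj S S' := (∃ h, S.1 = cj h (S0 V) ∧ S'.1 = cj h (S1 V)) ∨
    (∃ h, S'.1 = cj h (S0 V) ∧ S.1 = cj h (S1 V))
  symm := ⟨fun S S' h => h.symm⟩
  loopless := ⟨by
    have key : ∀ (h : (Mt F)ˣ), cj h (S0 V) ≠ cj h (S1 V) := by
      intro h h1
      have h2 : cj h⁻¹ (cj h (S0 V)) = cj h⁻¹ (cj h (S1 V)) := by rw [h1]
      rw [← cj_mul, ← cj_mul, inv_mul_cancel, cj_one, cj_one, ← ord00, ← ord01] at h2
      have := (ord_inj h2).1
      omega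
    rintro S (⟨h, h1, h2⟩ | ⟨h, h1, h2⟩)
    · exact key h (h1.symm.trans h2)
    · exact key h (h1.symm.trans h2)⟩

theorem adj_coord {S S' : Vx V} (h : ∃ h, S.1 = cj h (S0 V) ∧ S'.1 = cj h (S1 V)) :
    ∃ a n, (S = vx V a n ∧ S' = vx V a (n + 1)) ∨ (S' = vx V a n ∧ S = vx V a (n + 1)) := by
  obtain ⟨h, h1, h2⟩ := h
  obtain ⟨a, b, d, ha, hd, κ, rfl, k1, k2⟩ := iwasawa V h
  rw [cj_mul, cj_of_units S0_mul k1 k2] at h1
  replace h1 := (h1.trans (congrArg (cj (up a b d ha hd)) ord00.symm)).trans (cj_up ha hd 0 0)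
  rw [cj_mul] at h2
  rcases kappa k1 k2 with ⟨c, hc, h3⟩ | h3
  · rw [h3, cj_up] at h2
    refine ⟨(a * c + b) / d, V.v a - V.v d, Or.inl ⟨?_, ?_⟩⟩
    · apply Subtype.ext
      rw [h1]
      have e : 0 + V.v a - V.v d = V.v a - V.v d := by ring
      rw [e]
      apply ord_eq_of
      have e2 : (a * 0 + b) / d - (a * c + b) / d = -((a / d) * c) := by field_simp; ring
      rw [e2]
      apply B_neg
      have e3 : V.v (a / d) = V.v a - V.v d := v_div ha hd
      exact (B_mul_iff (div_ne_zero ha hd) (n := 0) (by rw [e3]; ring)).2 hc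
    · apply Subtype.ext
      rw [h2]
      have e : 1 + V.v a - V.v d = V.v a - V.v d + 1 := by ring
      rw [e]
      rfl
  · rw [h3, cj_up] at h2
    refine ⟨(a * 0 + b) / d, V.v a - V.v d - 1, Or.inr ⟨?_, ?_⟩⟩
    · apply Subtype.ext
      rw [h2]
      have e : -1 + V.v a - V.v d = V.v a - V.v d - 1 := by ring
      rw [e]
      rfl
    · apply Subtype.ext
      rw [h1]
      have e : 0 + V.v a - V.v d = V.v a - V.v d - 1 + 1 := by ring
      rw [e]
      rfl

theorem adj_iff {S S' : Vx V} : (Gr V).Adj S S' ↔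
    ∃ a n, (S = vx V a n ∧ S' = vx V a (n + 1)) ∨ (S' = vx V a n ∧ S = vx V a (n + 1)) := by
  have key : ∀ (a : F) (n : ℤ), ∃ h, (vx V a n).1 = cj h (S0 V) ∧ (vx V a (n + 1)).1 = cj h (S1 V) := by
    intro a n
    obtain ⟨h, hh⟩ := exists_up V a n
    refine ⟨h, ?_, ?_⟩
    · have := hh 0
      rw [ord00, zero_add] at this
      exact this.symm
    · have := hh 1
      rw [ord01, add_comm] at this
      exact this.symm
  constructor
  · rintro (h | h)
    · exact adj_coord h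
    · obtain ⟨a, n, h1 | h1⟩ := adj_coord h
      · exact ⟨a, n, Or.inr h1⟩
      · exact ⟨a, n, Or.inl h1⟩
  · rintro ⟨a, n, ⟨rfl, rfl⟩ | ⟨rfl, rfl⟩⟩
    · exact Or.inl (key a n)
    · exact Or.inr (key a n)

/-- a graph with a height function such that every vertex has at most one neighbour which is not higher
is acyclic -/
theorem acyclic_of_height {V : Type*} (T : SimpleGraph V) (l : V → ℤ)
    (h : ∀ v u u', T.Adj v u → T.Adj v u' → l u ≤ l v → l u' ≤ l v → u = u') : T.IsAcyclic := by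
  classical
  intro v c hc
  obtain ⟨w, hw, hmax⟩ : ∃ w ∈ c.support, ∀ u ∈ c.support, l u ≤ l w := by
    have hne : c.support.toFinset.Nonempty := ⟨v, by simp⟩
    obtain ⟨w, hw, h⟩ := c.support.toFinset.exists_max_image l hne
    exact ⟨w, by simpa using hw, fun u hu => h u (by simpa using hu)⟩
  have hc' : (c.rotate w hw).IsCycle := hc.rotate hw
  have hmem : ∀ u, u ∈ (c.rotate w hw).support → u ∈ c.support := by
    intro u hu
    rwa [Walk.mem_support_rotate_iff] at hu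
  have hnn : ¬ (c.rotate w hw).Nil := hc'.not_nil
  have h1 := (c.rotate w hw).adj_snd hnn
  have h2 := ((c.rotate w hw).adj_penultimate hnn).symm
  have h3 := h w _ _ h1 h2 (hmax _ (hmem _ (Walk.getVert_mem_support _ _)))
    (hmax _ (hmem _ (Walk.getVert_mem_support _ _)))
  exact hc'.snd_ne_penultimate h3

/-- the height -/
noncomputable def hgt (S : Vx V) : ℤ := (vx_surj S).choose_spec.choose

theorem hgt_vx (a : F) (n : ℤ) : hgt (vx V a n) = n := by
  have h := (vx_surj (vx V a n)).choose_spec.choose_spec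
  exact (vx_eq h).1.symm

theorem hgt_unique (v u u' : Vx V) (h : (Gr V).Adj v u) (h' : (Gr V).Adj v u')
    (hl : hgt u ≤ hgt v) (hl' : hgt u' ≤ hgt v) : u = u' := by
  obtain ⟨a, n, ⟨rfl, rfl⟩ | ⟨rfl, rfl⟩⟩ := adj_iff.1 h
  · rw [hgt_vx, hgt_vx] at hl
    omega
  · obtain ⟨b, m, ⟨h1, rfl⟩ | ⟨rfl, h1⟩⟩ := adj_iff.1 h'
    · obtain ⟨h2, h3⟩ := vx_eq h1
      rw [hgt_vx, hgt_vx] at hl'
      omega
    · obtain ⟨h2, h3⟩ := vx_eq h1
      have h4 : n = m := by omega
      subst h4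
      exact vx_eq_of (B_mono (by omega) h3)

/-- a walk down among the orders which contain `x` -/
theorem walk_down (P : Vx V → Prop) (a : F) (j : ℤ) (m : ℕ)
    (hP : ∀ i : ℤ, j ≤ i → i ≤ j + m → P (vx V a i)) :
    ∃ p : (Gr V).Walk (vx V a (j + m)) (vx V a j), ∀ z ∈ p.support, P z := by
  induction m with
  | zero =>
    have e : j + ((0 : ℕ) : ℤ) = j := by simp
    rw [e]
    refine ⟨Walk.nil, ?_⟩
    intro z hz
    rw [Walk.support_nil, List.mem_singleton] at hz
    rw [hz]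
    exact hP j le_rfl (by simp)
  | succ m ih =>
    obtain ⟨p, hp⟩ := ih fun i h1 h2 => hP i h1 (by push_cast; omega)
    have hadj : (Gr V).Adj (vx V a (j + ((m + 1 : ℕ) : ℤ))) (vx V a (j + m)) := by
      rw [adj_iff]
      refine ⟨a, j + m, Or.inr ⟨rfl, ?_⟩⟩
      congr 1
      push_cast
      ring
    refine ⟨Walk.cons hadj p, ?_⟩
    intro z hz
    rw [Walk.support_cons, List.mem_cons] at hz
    rcases hz with rfl | hz
    · exact hP _ (by push_cast; omega) (by push_cast; omega)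
    · exact hp z hz

theorem walk_join (P : Vx V → Prop) (a b : F) (l n m : ℤ) (hln : l ≤ n) (hlm : l ≤ m)
    (hab : V.B l (a - b)) (ha : ∀ i, l ≤ i → i ≤ n → P (vx V a i))
    (hb : ∀ i, l ≤ i → i ≤ m → P (vx V b i)) :
    ∃ p : (Gr V).Walk (vx V a n) (vx V b m), ∀ z ∈ p.support, P z := by
  obtain ⟨c, hc⟩ := Int.eq_ofNat_of_zero_le (show 0 ≤ n - l by omega)
  obtain ⟨d, hd⟩ := Int.eq_ofNat_of_zero_le (show 0 ≤ m - l by omega)
  have hn : n = l + c := by omega
  have hm : m = l + d := by omega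
  subst hn hm
  have hp' := walk_down P a l c ha
  rw [vx_eq_of hab] at hp'
  obtain ⟨p, hp⟩ := hp'
  obtain ⟨q, hq⟩ := walk_down P b l d hb
  refine ⟨p.append q.reverse, ?_⟩
  intro z hz
  rw [Walk.mem_support_append_iff, Walk.support_reverse, List.mem_reverse] at hz
  rcases hz with hz | hz
  · exact hp z hz
  · exact hq z hz

theorem connected : (Gr V).Connected := by
  have h1 : Nonempty (Vx V) := ⟨vx V 0 0⟩
  refine ⟨fun S S' => ?_⟩
  obtain ⟨a, n, rfl⟩ := vx_surj S
  obtain ⟨b, m, rfl⟩ := vx_surj S'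
  obtain ⟨p, -⟩ := walk_join (fun _ => True) a b (min (min n m) (V.v (a - b))) n m
    (by omega) (by omega) (B_mono (min_le_right _ _) (B_self (V := V) (a - b))) (fun _ _ _ => trivial)
    (fun _ _ _ => trivial)
  exact ⟨p⟩

variable (V) in
/-- the graph of the maximal orders is a tree -/
theorem tree : (Gr V).IsTree := ⟨connected, acyclic_of_height _ hgt hgt_unique⟩

/-- the orders which contain a given matrix form a subtree -/
theorem walk_mem (x : Mt F) (S S' : Vx V) (h : x ∈ S.1) (h' : x ∈ S'.1) :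
    ∃ p : (Gr V).Walk S S', ∀ z ∈ p.support, x ∈ z.1 := by
  obtain ⟨a, n, rfl⟩ := vx_surj S
  obtain ⟨b, m, rfl⟩ := vx_surj S'
  have hx : x ∈ ord V a n := h
  have hx' : x ∈ ord V b m := h'
  obtain ⟨h1, h2, h3, h4⟩ := hx
  obtain ⟨g1, g2, g3, g4⟩ := hx'
  obtain ⟨l, hln, hlm, hab, hl⟩ : ∃ l, l ≤ n ∧ l ≤ m ∧ V.B l (a - b) ∧ V.B (-l) (x 1 0) := by
    by_cases hc : V.B (min n m) (a - b)
    · refine ⟨min n m, min_le_left _ _, min_le_right _ _, hc, ?_⟩
      rcases le_total n m with h | h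
      · rw [min_eq_left h]; exact h3
      · rw [min_eq_right h]; exact g3
    · have hd0 : a - b ≠ 0 := fun h0 => hc (Or.inl h0)
      have hlt : V.v (a - b) < min n m := by
        by_contra hcon
        exact hc (Or.inr (by omega))
      refine ⟨V.v (a - b), by omega, by omega, B_self _, ?_⟩
      have e1 : V.B (min n m) ((a - b) * ((x 0 0 - x 1 1) - x 1 0 * (a + b))) := by
        have : (a - b) * ((x 0 0 - x 1 1) - x 1 0 * (a + b)) =
            (x 0 1 + (x 0 0 - x 1 1) * a - x 1 0 * a ^ 2) -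
            (x 0 1 + (x 0 0 - x 1 1) * b - x 1 0 * b ^ 2) := by ring
        rw [this]
        exact B_sub (B_mono (by omega) h4) (B_mono (by omega) g4)
      rw [B_mul_iff hd0 (n := min n m - V.v (a - b)) (by ring)] at e1
      have e2 : V.B 0 ((a - b) * x 1 0) := by
        have : (a - b) * x 1 0 = ((x 0 0 - x 1 1) - x 1 0 * (a + b)) -
            ((x 0 0 - a * x 1 0) - (x 1 1 + a * x 1 0)) := by ring
        rw [this]
        exact B_sub (B_mono (by omega) e1) (B_sub h1 h2)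
      rwa [B_mul_iff hd0 (n := -V.v (a - b)) (by ring)] at e2
  refine walk_join (fun z => x ∈ z.1) a b l n m hln hlm hab ?_ ?_
  · intro i hi1 hi2
    exact ⟨h1, h2, B_mono (by omega) hl, B_mono hi2 h4⟩
  · intro i hi1 hi2
    exact ⟨g1, g2, B_mono (by omega) hl, B_mono hi2 g4⟩

end Pool.Agent.J4.H41.GT
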