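import Pool.Agent.J4.H41.GT.Alg
import Pool.Agent.J4.H41.GT.Tree

/-!
# Matrices over a ring with a degree function in the stabilizers of the edges
-/

set_option autoImplicit false

namespace Pool.Agent.J4.H41.GT

open DV

variable {F : Type} [Field F] {V : DV F}

theorem tc_eq (x : Mt F) : tc x = Matrix.trace x := (Matrix.trace_fin_two x).symm
theorem dt_eq (x : Mt F) : dt x = Matrix.det x := (Matrix.det_fin_two x).symm

theorem tc_comm (x y : Mt F) : tc (x * y) = tc (y * x) := by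
  rw [tc_eq, tc_eq, Matrix.trace_mul_comm]

theorem tc_conj (h : (Mt F)ˣ) (x : Mt F) : tc ((h⁻¹).val * x * h.val) = tc x := by
  rw [tc_comm, ← mul_assoc, h.mul_inv, one_mul]

theorem dt_mul (x y : Mt F) : dt (x * y) = dt x * dt y := by
  rw [dt_eq, dt_eq, dt_eq, Matrix.det_mul]

theorem dt_conj (h : (Mt F)ˣ) (x : Mt F) : dt ((h⁻¹).val * x * h.val) = dt x := by
  have h1 : dt (h⁻¹).val * dt h.val = 1 := by
    rw [← dt_mul, h.inv_mul, dt_eq, Matrix.det_one]
  rw [dt_mul, dt_mul]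
  linear_combination dt x * h1

theorem conj_mul' (h : (Mt F)ˣ) (x y : Mt F) :
    (h⁻¹).val * (x * y) * h.val = ((h⁻¹).val * x * h.val) * ((h⁻¹).val * y * h.val) := by
  have e1 : h.val * (h⁻¹).val = 1 := h.mul_inv
  calc (h⁻¹).val * (x * y) * h.val = (h⁻¹).val * x * 1 * y * h.val := by
        simp only [mul_assoc, mul_one, one_mul]
    _ = _ := by rw [← e1]; simp only [mul_assoc]

theorem conj_sub' (h : (Mt F)ˣ) (x y : Mt F) :
    (h⁻¹).val * (x - y) * h.val = ((h⁻¹).val * x * h.val) - ((h⁻¹).val * y * h.val) := by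
  rw [mul_sub, sub_mul]

theorem conj_zero' (h : (Mt F)ˣ) : (h⁻¹).val * (0 : Mt F) * h.val = 0 := by
  rw [mul_zero, zero_mul]

/-- traces of products with nilpotent elements -/
theorem E1_std {x y : Mt F} (hx : x ∈ S0 V) (hx' : x ∈ S1 V) (hy : y ∈ S0 V) (hy' : y ∈ S1 V)
    (hyy : y * y = 0) : V.B 1 (tc (x * y)) := by
  obtain ⟨a1, a2⟩ := nl_entries hyy
  have h01 : V.B 1 (y 0 1) := hy'.2.2.2
  have h00 : V.B 1 (y 0 0) := by
    apply B_sq_one
    have : y 0 0 * y 0 0 = -(y 0 1 * y 1 0) := by linear_combination a2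
    rw [this]
    exact B_neg (B_mul (m := 1) (n := 0) (by omega) h01 (hy 1 0))
  have h11 : V.B 1 (y 1 1) := by rw [a1]; exact B_neg h00
  unfold tc
  rw [mul00, mul11]
  refine B_add (B_add ?_ ?_) (B_add ?_ ?_)
  · exact B_mul (m := 0) (n := 1) (by omega) (hx 0 0) h00
  · exact B_mul (m := 1) (n := 0) (by omega) hx'.2.2.2 (hy 1 0)
  · exact B_mul (m := 0) (n := 1) (by omega) (hx 1 0) h01
  · exact B_mul (m := 0) (n := 1) (by omega) (hx 1 1) h11

theorem E2_std {x y : Mt F} (hx : x ∈ S0 V) (hx' : x ∈ S1 V) (hy : y ∈ S0 V) (hy' : y ∈ S1 V) :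
    V.B 1 (dt (x * y - y * x)) := by
  have e00 : (x * y - y * x) 0 0 = x 0 1 * y 1 0 - y 0 1 * x 1 0 := by
    rw [Matrix.sub_apply, mul00, mul00]; ring
  have e11 : (x * y - y * x) 1 1 = -(x 0 1 * y 1 0 - y 0 1 * x 1 0) := by
    rw [Matrix.sub_apply, mul11, mul11]; ring
  have e01 : (x * y - y * x) 0 1 = (x 0 0 * y 0 1 + x 0 1 * y 1 1) - (y 0 0 * x 0 1 + y 0 1 * x 1 1) := by
    rw [Matrix.sub_apply, mul01, mul01]
  have e10 : (x * y - y * x) 1 0 = (x 1 0 * y 0 0 + x 1 1 * y 1 0) - (y 1 0 * x 0 0 + y 1 1 * x 1 0) := by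
    rw [Matrix.sub_apply, mul10, mul10]
  have g00 : V.B 1 (x 0 1 * y 1 0 - y 0 1 * x 1 0) :=
    B_sub (B_mul (m := 1) (n := 0) (by omega) hx'.2.2.2 (hy 1 0))
      (B_mul (m := 1) (n := 0) (by omega) hy'.2.2.2 (hx 1 0))
  have g01 : V.B 1 ((x 0 0 * y 0 1 + x 0 1 * y 1 1) - (y 0 0 * x 0 1 + y 0 1 * x 1 1)) :=
    B_sub (B_add (B_mul (m := 0) (n := 1) (by omega) (hx 0 0) hy'.2.2.2)
      (B_mul (m := 1) (n := 0) (by omega) hx'.2.2.2 (hy 1 1)))
      (B_add (B_mul (m := 0) (n := 1) (by omega) (hy 0 0) hx'.2.2.2)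
      (B_mul (m := 1) (n := 0) (by omega) hy'.2.2.2 (hx 1 1)))
  have g10 : V.B 0 ((x 1 0 * y 0 0 + x 1 1 * y 1 0) - (y 1 0 * x 0 0 + y 1 1 * x 1 0)) :=
    B_sub (B_add (B_mul (by omega) (hx 1 0) (hy 0 0)) (B_mul (by omega) (hx 1 1) (hy 1 0)))
      (B_add (B_mul (by omega) (hy 1 0) (hx 0 0)) (B_mul (by omega) (hy 1 1) (hx 1 0)))
  unfold dt
  rw [e00, e11, e01, e10]
  refine B_sub (B_mul (m := 1) (n := 0) (by omega) g00 (B_neg (B_mono (by omega) g00))) ?_
  exact B_mul (m := 1) (n := 0) (by omega) g01 g10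

theorem E1 {S S' : Vx V} (h : (Gr V).Adj S S') {x y : Mt F} (hx : x ∈ S.1) (hx' : x ∈ S'.1)
    (hy : y ∈ S.1) (hy' : y ∈ S'.1) (hyy : y * y = 0) : V.B 1 (tc (x * y)) := by
  have key : ∀ {S S' : Vx V}, (∃ h, S.1 = cj h (S0 V) ∧ S'.1 = cj h (S1 V)) → x ∈ S.1 → x ∈ S'.1 →
      y ∈ S.1 → y ∈ S'.1 → V.B 1 (tc (x * y)) := by
    rintro S S' ⟨h, h1, h2⟩ hx hx' hy hy'
    rw [h1, mem_cj] at hx hy
    rw [h2, mem_cj] at hx' hy'
    rw [← tc_conj h, conj_mul']
    refine E1_std hx hx' hy hy' ?_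
    rw [← conj_mul', hyy, conj_zero']
  rcases h with h | h
  · exact key h hx hx' hy hy'
  · exact key h hx' hx hy' hy

theorem E2 {S S' : Vx V} (h : (Gr V).Adj S S') {x y : Mt F} (hx : x ∈ S.1) (hx' : x ∈ S'.1)
    (hy : y ∈ S.1) (hy' : y ∈ S'.1) : V.B 1 (dt (x * y - y * x)) := by
  have key : ∀ {S S' : Vx V}, (∃ h, S.1 = cj h (S0 V) ∧ S'.1 = cj h (S1 V)) → x ∈ S.1 → x ∈ S'.1 →
      y ∈ S.1 → y ∈ S'.1 → V.B 1 (dt (x * y - y * x)) := by
    rintro S S' ⟨h, h1, h2⟩ hx hx' hy hy'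
    rw [h1, mem_cj] at hx hy
    rw [h2, mem_cj] at hx' hy'
    rw [← dt_conj h, conj_sub', conj_mul', conj_mul']
    exact E2_std hx hx' hy hy'
  rcases h with h | h
  · exact key h hx hx' hy hy'
  · exact key h hx' hx hy' hy

/-! ### the orders are rings -/

theorem vx_mul (S : Vx V) {x y : Mt F} (hx : x ∈ S.1) (hy : y ∈ S.1) : x * y ∈ S.1 := by
  obtain ⟨S, h, rfl⟩ := S
  change (h⁻¹).val * (x * y) * h.val ∈ S0 V
  rw [conj_mul']
  exact S0_mul _ hx _ hy

theorem vx_sub (S : Vx V) {x y : Mt F} (hx : x ∈ S.1) (hy : y ∈ S.1) : x - y ∈ S.1 := by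
  obtain ⟨S, h, rfl⟩ := S
  change (h⁻¹).val * (x - y) * h.val ∈ S0 V
  rw [conj_sub']
  exact fun i j => B_sub (hx i j) (hy i j)

theorem vx_one (S : Vx V) : (1 : Mt F) ∈ S.1 := by
  obtain ⟨S, h, rfl⟩ := S
  change (h⁻¹).val * 1 * h.val ∈ S0 V
  rw [mul_one, h.inv_mul]
  intro i j
  fin_cases i <;> fin_cases j
  · exact B_one
  · exact B_zero 0
  · exact B_zero 0
  · exact B_one

theorem vx_smul (S : Vx V) {c : F} {x : Mt F} (hc : V.B 0 c) (hx : x ∈ S.1) : c • x ∈ S.1 := by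
  obtain ⟨S, h, rfl⟩ := S
  change (h⁻¹).val * (c • x) * h.val ∈ S0 V
  rw [mul_smul_comm, smul_mul_assoc]
  exact fun i j => B_mul (m := 0) (n := 0) (by omega) hc (hx i j)

theorem vx_tc (S : Vx V) {x : Mt F} (hx : x ∈ S.1) : V.B 0 (tc x) := by
  obtain ⟨S, h, rfl⟩ := S
  rw [← tc_conj h]
  exact B_add (hx 0 0) (hx 1 1)

theorem vx_dt (S : Vx V) {x : Mt F} (hx : x ∈ S.1) : V.B 0 (dt x) := by
  obtain ⟨S, h, rfl⟩ := S
  rw [← dt_conj h]
  exact B_sub (B_mul (by omega) (hx 0 0) (hx 1 1)) (B_mul (by omega) (hx 0 1) (hx 1 0))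

/-- the adjugate -/
theorem inv_formula (g : (Mt F)ˣ) : dt g.val • (g⁻¹).val = tc g.val • (1 : Mt F) - g.val := by
  have h1 : g.val * (g⁻¹).val = 1 := g.mul_inv
  have h2 : dt g.val • (1 : Mt F) = g.val * (tc g.val • (1 : Mt F) - g.val) := by
    unfold dt tc
    apply mt_ext
    · rw [mul00]; simp [one00, one10]; ring
    · rw [mul01]; simp [one01, one11]; ring
    · rw [mul10]; simp [one00, one10]; ring
    · rw [mul11]; simp [one01, one11]; ring
  have h3 : (g⁻¹).val * g.val = 1 := g.inv_mul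
  calc dt g.val • (g⁻¹).val = (g⁻¹).val * (dt g.val • (1 : Mt F)) := by
        rw [mul_smul_comm, mul_one]
    _ = ((g⁻¹).val * g.val) * (tc g.val • (1 : Mt F) - g.val) := by rw [h2, mul_assoc]
    _ = _ := by rw [h3, one_mul]

theorem fix0 {g : (Mt F)ˣ} (hd : V.v (dt g.val) = 0) (h : cj g (S0 V) = S0 V) : g.val ∈ S0 V := by
  have hd0 : dt g.val ≠ 0 := by
    intro h0
    have h1 : dt g.val * dt (g⁻¹).val = 1 := by
      rw [← dt_mul, g.mul_inv, dt_eq, Matrix.det_one]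
    rw [h0, zero_mul] at h1
    exact zero_ne_one h1
  have h1 : ∀ x ∈ S0 V, g.val * x * (g⁻¹).val ∈ S0 V := by
    intro x hx
    rw [← h, mem_cj]
    have e1 : (g⁻¹).val * (g.val * x * (g⁻¹).val) * g.val = x := by
      have e2 : (g⁻¹).val * g.val = 1 := g.inv_mul
      calc (g⁻¹).val * (g.val * x * (g⁻¹).val) * g.val
          = ((g⁻¹).val * g.val) * x * ((g⁻¹).val * g.val) := by simp only [mul_assoc]
        _ = x := by rw [e2, one_mul, mul_one]
    rw [e1]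
    exact hx
  have h2 : ∀ x ∈ S0 V, g.val * x * (tc g.val • (1 : Mt F) - g.val) ∈ S0 V := by
    intro x hx
    rw [← inv_formula, mul_smul_comm]
    intro i j
    exact B_mul (m := 0) (n := 0) (by omega) (Or.inr hd.ge) (h1 x hx i j)
  have h3 : (!![0, 1; 0, 0] : Mt F) ∈ S0 V := by
    intro i j
    fin_cases i <;> fin_cases j
    · exact B_zero 0
    · exact B_one
    · exact B_zero 0
    · exact B_zero 0
  have h4 : (!![0, 0; 1, 0] : Mt F) ∈ S0 V := by
    intro i j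
    fin_cases i <;> fin_cases j
    · exact B_zero 0
    · exact B_zero 0
    · exact B_one
    · exact B_zero 0
  have h5 := h2 _ h3
  have h6 := h2 _ h4
  have e00 : V.B 0 (g.val 0 0) := by
    apply B_sq
    have := h5 0 1
    rw [mul01, mul00, mul01] at this
    unfold tc at this
    simp [one01, one11] at this
    exact this
  have e10 : V.B 0 (g.val 1 0) := by
    apply B_sq
    have := h5 1 0
    rw [mul10, mul10, mul11] at this
    unfold tc at this
    simp [one00, one10] at this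
    have := B_neg this
    simpa using this
  have e01 : V.B 0 (g.val 0 1) := by
    apply B_sq
    have := h6 0 1
    rw [mul01, mul00, mul01] at this
    unfold tc at this
    simp [one01, one11] at this
    have := B_neg this
    simpa using this
  have e11 : V.B 0 (g.val 1 1) := by
    apply B_sq
    have := h6 1 0
    rw [mul10, mul10, mul11] at this
    unfold tc at this
    simp [one00, one10] at this
    exact this
  intro i j
  fin_cases i <;> fin_cases j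
  · exact e00
  · exact e01
  · exact e10
  · exact e11

theorem fix {g : (Mt F)ˣ} (hd : V.v (dt g.val) = 0) (S : Vx V) (h : cj g S.1 = S.1) : g.val ∈ S.1 := by
  obtain ⟨S, k, rfl⟩ := S
  change cj g (cj k (S0 V)) = cj k (S0 V) at h
  have h1 : cj (k⁻¹ * g * k) (S0 V) = S0 V := by
    rw [cj_mul, cj_mul, h, ← cj_mul, inv_mul_cancel, cj_one]
  have h2 := fix0 (g := k⁻¹ * g * k) (by
    have : (k⁻¹ * g * k).val = (k⁻¹).val * g.val * k.val := rfl
    rw [this, dt_conj]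
    exact hd) h1
  exact h2

end Pool.Agent.J4.H41.GT
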