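import Pool.Agent.J4.H41.GT.Red

/-!
# The final statement
-/

set_option autoImplicit false

namespace Pool.Agent.J4.H41.GT

open DV
open Pool.Agent.Y110.FJ (ClosedE)
open Pool.Agent.N509.TX (AcylF C_stab of_fg)
open Pool.Agent.R941.FJ (C_equiv C_le C_cyc mem_sup_normal)

variable {Cl : ∀ (G : Type) [Group G], Prop}

section hom

variable (R : Type) [CommRing R] [IsDomain R]

/-- matrices over the ring as matrices over the field of fractions -/
noncomputable def mp : Matrix.GeneralLinearGroup (Fin 2) R →* (Mt (FractionRing R))ˣ :=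
  Matrix.GeneralLinearGroup.map (algebraMap R (FractionRing R))

theorem mp_apply (g : Matrix.GeneralLinearGroup (Fin 2) R) (i j : Fin 2) :
    (mp R g).val i j = algebraMap R (FractionRing R) (g.val i j) := rfl

theorem mp_mem (g : Matrix.GeneralLinearGroup (Fin 2) R) :
    mp R g ∈ GR (algebraMap R (FractionRing R)).range := by
  refine ⟨fun i j => ⟨_, (mp_apply R g i j).symm⟩, fun i j => ?_⟩
  rw [← map_inv]
  exact ⟨_, (mp_apply R g⁻¹ i j).symm⟩

/-- the action on the matrices -/
noncomputable def psi : Matrix.GeneralLinearGroup (Fin 2) R →*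
    PG (algebraMap R (FractionRing R)).range :=
  (cP.comp (mp R)).codRestrict _ fun g => ⟨mp R g, mp_mem R g, rfl⟩

theorem psi_val (g : Matrix.GeneralLinearGroup (Fin 2) R) : (psi R g).1 = cP (mp R g) := rfl

theorem psi_one {g : Matrix.GeneralLinearGroup (Fin 2) R} (h : psi R g = 1) :
    g.val = g.val 0 0 • (1 : Matrix (Fin 2) (Fin 2) R) := by
  have hinj : Function.Injective (algebraMap R (FractionRing R)) :=
    IsFractionRing.injective R (FractionRing R)
  have h1 : cP (mp R g) = 1 := congrArg Subtype.val h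
  obtain ⟨h2, h3, h4⟩ := sc_of_cP h1
  rw [mp_apply] at h2 h3 h4
  rw [mp_apply] at h4
  have k2 : g.val 0 1 = 0 := hinj (by rw [h2, map_zero])
  have k3 : g.val 1 0 = 0 := hinj (by rw [h3, map_zero])
  have k4 : g.val 0 0 = g.val 1 1 := hinj h4
  ext i j
  fin_cases i <;> fin_cases j
  · simp
  · simp [k2]
  · simp [k3]
  · simp [k4]

theorem psi_one_comm {g : Matrix.GeneralLinearGroup (Fin 2) R} (h : psi R g = 1)
    (x : Matrix.GeneralLinearGroup (Fin 2) R) : g * x = x * g := by
  apply Units.ext
  change g.val * x.val = x.val * g.val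
  rw [psi_one R h, smul_mul_assoc, one_mul, mul_smul_comm, mul_one]

/-- the action on the tree -/
noncomputable instance actT (V : DV (FractionRing R)) :
    MulAction (Matrix.GeneralLinearGroup (Fin 2) R) (Vx V) :=
  MulAction.compHom (Vx V) (psi R)

theorem smul_psi {V : DV (FractionRing R)} (g : Matrix.GeneralLinearGroup (Fin 2) R) (S : Vx V) :
    g • S = psi R g • S := rfl

end hom

section main

variable {R : Type} [CommRing R] [IsDomain R] {deg : R → ℕ}

/-- groups of matrices of determinant one -/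
theorem C_SL (hC : ClosedE Cl) (hM : ∀ (G : Type) [Group G], derivedSeries G 2 = ⊥ → Cl G)
    (hA : AcylF Cl) {V : DV (FractionRing R)} (hR : Str V (algebraMap R (FractionRing R)).range)
    (G : Subgroup (Matrix.GeneralLinearGroup (Fin 2) R))
    (hG : ∀ g ∈ G, Matrix.GeneralLinearGroup.det g = 1)
    (hV : ∀ S : Vx V, Cl (MulAction.stabilizer G S)) : Cl G := by
  classical
  refine of_fg hC fun L hL => ?_
  refine C_fg (φ := (psi R).comp ((Subgroup.subtype G).comp (Subgroup.subtype L))) hC hM hA hR
    ⟨?_, ?_, ?_⟩ hL fun S => C_stab hC L S (hV S)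
  · intro x y hx _
    apply Subtype.ext
    apply Subtype.ext
    exact psi_one_comm R hx _
  · intro A hA
    have key : ∀ g ∈ A, ((g : G) : Matrix.GeneralLinearGroup (Fin 2) R) ∈
        ({1, -1} : Finset (Matrix.GeneralLinearGroup (Fin 2) R)) := by
      intro g hg
      have h1 := psi_one R (hA g hg)
      obtain ⟨c, hc⟩ : ∃ c, c = ((g : G) : Matrix.GeneralLinearGroup (Fin 2) R).val 0 0 := ⟨_, rfl⟩
      change ((g : G) : Matrix.GeneralLinearGroup (Fin 2) R).val = _ at h1
      have h2 : ((g : G) : Matrix.GeneralLinearGroup (Fin 2) R).val =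
          c • (1 : Matrix (Fin 2) (Fin 2) R) := by rw [hc]; exact h1
      have h3 : ((g : G) : Matrix.GeneralLinearGroup (Fin 2) R).val.det = 1 :=
        congrArg Units.val (hG (g : G) (g : G).2)
      rw [h2, Matrix.det_smul, Matrix.det_one, mul_one, Fintype.card_fin, sq_eq_one_iff] at h3
      rw [Finset.mem_insert, Finset.mem_singleton]
      rcases h3 with h3 | h3
      · left
        apply Units.ext
        rw [h2, h3, one_smul]
        rfl
      · right
        apply Units.ext
        rw [h2, h3, neg_smul, one_smul]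
        rfl
    have h1 : (A.image ((Subgroup.subtype G).comp (Subgroup.subtype L))).card ≤ 2 :=
      (Finset.card_le_card (Finset.image_subset_iff.2 key)).trans Finset.card_le_two
    rwa [Finset.card_image_of_injective] at h1
    intro a b hab
    exact Subtype.ext (Subtype.ext hab)
  · intro g S
    rfl

theorem B_all {F : Type} [Field F] {V : DV F} (m : Mt F) : ∃ M : ℤ, ∀ i j, V.B M (m i j) := by
  refine ⟨min (min (V.v (m 0 0)) (V.v (m 0 1))) (min (V.v (m 1 0)) (V.v (m 1 1))), ?_⟩
  intro i j
  refine B_mono ?_ (B_self (m i j))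
  fin_cases i <;> fin_cases j <;> simp

theorem bdd_order {F : Type} [Field F] {V : DV F} (S : Vx V) :
    ∃ M : ℤ, ∀ x ∈ S.1, ∀ i j, V.B M (x i j) := by
  obtain ⟨S, k, rfl⟩ := S
  obtain ⟨M, hM⟩ := B_all (V := V) k.val
  obtain ⟨M', hM'⟩ := B_all (V := V) (k⁻¹).val
  refine ⟨M + M', ?_⟩
  intro x hx i j
  obtain ⟨y, hy⟩ : ∃ y, y = (k⁻¹).val * x * k.val := ⟨_, rfl⟩
  have hy0 : y ∈ S0 V := by
    rw [hy]
    exact hx
  have e : x = k.val * y * (k⁻¹).val := by
    rw [hy]
    have e1 : k.val * (k⁻¹).val = 1 := k.mul_inv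
    calc x = (k.val * (k⁻¹).val) * x * (k.val * (k⁻¹).val) := by rw [e1, one_mul, mul_one]
      _ = _ := by simp only [mul_assoc]
  have h1 : ∀ i j, V.B M ((k.val * y) i j) := by
    intro i j
    rw [Matrix.mul_apply, Fin.sum_univ_two]
    exact B_add (B_mul (m := M) (n := 0) (by omega) (hM i 0) (hy0 0 j))
      (B_mul (m := M) (n := 0) (by omega) (hM i 1) (hy0 1 j))
  rw [e, Matrix.mul_apply, Fin.sum_univ_two]
  exact B_add (B_mul (m := M) (n := M') (by omega) (h1 i 0) (hM' 0 j))
    (B_mul (m := M) (n := M') (by omega) (h1 i 1) (hM' 1 j))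

/-- the case of bounded subgroups -/
theorem caseA (hC : ClosedE Cl) (hM : ∀ (G : Type) [Group G], derivedSeries G 2 = ⊥ → Cl G)
    (hA : AcylF Cl) (hd : Dg deg) (G : Subgroup (Matrix.GeneralLinearGroup (Fin 2) R))
    (hG : ∀ g ∈ G, Matrix.GeneralLinearGroup.det g = 1)
    (h : ∀ H : Subgroup (Matrix.GeneralLinearGroup (Fin 2) R), H ≤ G →
      (∃ n : ℕ, ∀ g ∈ H, ∀ i j, deg (g.val i j) ≤ n) → Cl H) : Cl G := by
  by_cases ht : ∃ t : R, t ≠ 0 ∧ deg t ≠ 0
  · obtain ⟨t, ht, ht'⟩ := ht
    obtain ⟨V, e, he, hV⟩ := exists_DV hd ht ht'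
    have hR := str_R hd he hV
    refine C_SL (V := V) hC hM hA hR G hG ?_
    intro S
    obtain ⟨M, hMb⟩ := bdd_order S
    have hbdd : ∃ n : ℕ, ∀ g ∈ G ⊓ MulAction.stabilizer (Matrix.GeneralLinearGroup (Fin 2) R) S,
        ∀ i j, deg (g.val i j) ≤ n := by
      refine ⟨(max (-(e * M)) 0).toNat + deg 0, ?_⟩
      rintro g ⟨-, hg⟩ i j
      have hg' : psi R g • S = S := hg
      have h1 := hMb _ (mem_of_fix hR (mp_mem R g) (psi_val R g) S hg') i j
      rw [mp_apply] at h1
      by_cases h0 : g.val i j = 0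
      · rw [h0]
        omega
      · have h2 := str_of hd he hV h0
        rcases h1 with h1 | h1
        · exfalso
          apply h0
          apply IsFractionRing.injective R (FractionRing R)
          rw [h1, map_zero]
        · have h3 : e * M ≤ e * V.v (algebraMap R (FractionRing R) (g.val i j)) :=
            mul_le_mul_of_nonneg_left h1 he.le
          have h4 : (deg (g.val i j) : ℤ) ≤ -(e * M) := by
            rw [h2]
            linarith
          omega
    have h1 := h _ inf_le_left hbdd
    refine hC.base.of_injective _ _ (((Subgroup.subtype G).comp (Subgroup.subtype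
      (MulAction.stabilizer G S))).codRestrict
      (G ⊓ MulAction.stabilizer (Matrix.GeneralLinearGroup (Fin 2) R) S) ?_) ?_ h1
    · rintro ⟨⟨g, hg⟩, h2⟩
      exact ⟨hg, h2⟩
    · intro a b hab
      have h1 := congrArg Subtype.val hab
      exact Subtype.ext (Subtype.ext h1)
  · push Not at ht
    refine h G le_rfl ⟨deg 0, fun g _ i j => ?_⟩
    by_cases h0 : g.val i j = 0
    · rw [h0]
    · rw [ht _ h0]
      omega

/-- linear groups as matrices over a field -/
theorem sl_emb (hC : ClosedE Cl) {L : Type} [Field L] (ε : R →+* L)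
    (hL : Cl (Matrix.SpecialLinearGroup (Fin 2) L)) {K : Type} [Group K]
    (f : K →* Matrix.GeneralLinearGroup (Fin 2) R)
    (hf : ∀ x, Matrix.GeneralLinearGroup.det (f x) = 1)
    (hinj : ∀ x, Matrix.GeneralLinearGroup.map (n := Fin 2) ε (f x) = 1 → x = 1) : Cl K := by
  let φ : K →* Matrix.SpecialLinearGroup (Fin 2) L :=
    { toFun := fun x => ⟨(Matrix.GeneralLinearGroup.map (n := Fin 2) ε (f x)).val, by
        have h1 : (f x).val.det = 1 := congrArg Units.val (hf x)
        change (ε.mapMatrix (f x).val).det = 1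
        rw [← RingHom.map_det, h1, map_one]⟩
      map_one' := by
        apply Subtype.ext
        change (Matrix.GeneralLinearGroup.map (n := Fin 2) ε (f 1)).val = 1
        rw [map_one, map_one]
        rfl
      map_mul' := by
        intro x y
        apply Subtype.ext
        change (Matrix.GeneralLinearGroup.map (n := Fin 2) ε (f (x * y))).val = _
        rw [map_mul, map_mul]
        rfl }
  refine hC.base.of_injective _ _ φ ?_ hL
  rw [injective_iff_map_eq_one]
  intro x hx
  apply hinj
  apply Units.ext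
  exact congrArg Subtype.val hx

/-- the case of a field of constants -/
theorem caseB (hC : ClosedE Cl) (hM : ∀ (G : Type) [Group G], derivedSeries G 2 = ⊥ → Cl G)
    (hA : AcylF Cl) (hd : Dg deg) (hu : ∀ x : R, x ≠ 0 → deg x = 0 → IsUnit x)
    {L : Type} [Field L] (ε : R →+* L) (hL : Cl (Matrix.SpecialLinearGroup (Fin 2) L))
    (G : Subgroup (Matrix.GeneralLinearGroup (Fin 2) R))
    (hG : ∀ g ∈ G, Matrix.GeneralLinearGroup.det g = 1) : Cl G := by
  by_cases ht : ∃ t : R, t ≠ 0 ∧ deg t ≠ 0
  · obtain ⟨t, ht, ht'⟩ := ht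
    obtain ⟨V, e, he, hV⟩ := exists_DV hd ht ht'
    have hR := str_R hd he hV
    have hinj : Function.Injective (algebraMap R (FractionRing R)) :=
      IsFractionRing.injective R (FractionRing R)
    -- the constants
    have hcst : ∀ r : R, V.B 0 (algebraMap R (FractionRing R) r) → r ≠ 0 → IsUnit r := by
      intro r hx hr
      have h1 := str_of hd he hV hr
      rcases hx with hx | hx
      · exact absurd (hinj (by rw [hx, map_zero])) hr
      · have h3 : 0 ≤ e * V.v (algebraMap R (FractionRing R) r) := mul_nonneg he.le hx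
        have h4 : (deg r : ℤ) ≤ 0 := by
          rw [h1]
          linarith
        exact hu r hr (by omega)
    have hRU : StrU V (algebraMap R (FractionRing R)).range := by
      refine ⟨hR, ?_⟩
      rintro _ ⟨r, rfl⟩ h0 hB
      have hr : r ≠ 0 := by
        rintro rfl
        exact h0 (map_zero _)
      obtain ⟨u, hu'⟩ := hcst r hB hr
      refine ⟨(u⁻¹ : Rˣ), ?_⟩
      apply eq_inv_of_mul_eq_one_left
      rw [← hu', ← map_mul, Units.inv_mul, map_one]
    refine C_SL (V := V) hC hM hA hR G hG ?_
    intro S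
    by_cases hcase : ∃ x ∈ AS hRU S, ∃ y ∈ AS hRU S, dt (x * y - y * x) ≠ 0
    · obtain ⟨x, hx, y, hy, h⟩ := hcase
      have hi := indep h
      have hmem : ∀ i, ![(1 : Mt (FractionRing R)), x, y, x * y] i ∈ AS hRU S := by
        intro i
        fin_cases i
        · exact ⟨vx_one S, MR_one⟩
        · exact hx
        · exact hy
        · exact ⟨vx_mul S hx.1 hy.1, MR_mul hx.2 hy.2⟩
      refine sl_emb hC ε hL ((Subgroup.subtype G).comp (Subgroup.subtype
        (MulAction.stabilizer G S))) (fun g => hG _ g.1.2) ?_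
      rintro ⟨⟨g, hgG⟩, hgS⟩ hg1
      have hg1 : Matrix.GeneralLinearGroup.map (n := Fin 2) ε g = 1 := hg1
      have hgS' : psi R g • S = S := hgS
      have hgA : (mp R g).val ∈ AS hRU S :=
        ⟨mem_of_fix hR (mp_mem R g) (psi_val R g) S hgS', (mp_mem R g).1⟩
      -- the difference is zero
      obtain ⟨z, hz⟩ : ∃ z : Matrix (Fin 2) (Fin 2) R, z = g.val - 1 := ⟨_, rfl⟩
      have hεz : ∀ i j, ε (z i j) = 0 := by
        intro i j
        have h1 : (Matrix.GeneralLinearGroup.map (n := Fin 2) ε g).val i j =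
            (1 : Matrix (Fin 2) (Fin 2) L) i j := by rw [hg1]; rfl
        have h2 : ε (g.val i j) = (1 : Matrix (Fin 2) (Fin 2) L) i j := h1
        rw [hz, Matrix.sub_apply, map_sub, h2, Matrix.one_apply, Matrix.one_apply]
        split_ifs
        · rw [map_one, sub_self]
        · rw [map_zero, sub_self]
      have hzA : (mp R g).val - 1 ∈ AS hRU S :=
        ⟨vx_sub S hgA.1 (vx_one S), MR_sub hgA.2 MR_one⟩
      have hze : ∀ i j, ((mp R g).val - 1) i j = algebraMap R (FractionRing R) (z i j) := by
        intro i j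
        rw [Matrix.sub_apply, mp_apply, hz, Matrix.sub_apply, map_sub, Matrix.one_apply,
          Matrix.one_apply]
        split_ifs
        · rw [map_one]
        · rw [map_zero]
      have hz0 : (mp R g).val - 1 = 0 := by
        apply tc_nondeg hi
        intro i
        obtain ⟨a, ha⟩ : ∃ a, a = ![(1 : Mt (FractionRing R)), x, y, x * y] i := ⟨_, rfl⟩
        have haA := hmem i
        rw [← ha] at haA ⊢
        have h1 : V.B 0 (tc (a * ((mp R g).val - 1))) := vx_tc S (vx_mul S haA.1 hzA.1)
        have hex : ∀ i j, ∃ r : R, algebraMap R (FractionRing R) r = a i j := fun i j => haA.2 i j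
        choose b hb using hex
        have h2 : tc (a * ((mp R g).val - 1)) = algebraMap R (FractionRing R)
            (b 0 0 * z 0 0 + b 0 1 * z 1 0 + (b 1 0 * z 0 1 + b 1 1 * z 1 1)) := by
          unfold tc
          rw [mul00, mul11, hze, hze, hze, hze, ← hb, ← hb, ← hb, ← hb]
          simp only [map_add, map_mul]
        rw [h2] at h1 ⊢
        by_contra hne
        have hne' : b 0 0 * z 0 0 + b 0 1 * z 1 0 + (b 1 0 * z 0 1 + b 1 1 * z 1 1) ≠ 0 := by
          intro h0
          rw [h0, map_zero] at hne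
          exact hne rfl
        have h3 := (hcst _ h1 hne').map ε
        apply h3.ne_zero
        simp only [map_add, map_mul, hεz, mul_zero, add_zero]
      apply Subtype.ext
      apply Subtype.ext
      change g = 1
      apply Units.ext
      ext i j
      have h1 := hze i j
      rw [hz0] at h1
      have h2 : z i j = 0 := hinj (by rw [← h1, map_zero]; rfl)
      rw [hz, Matrix.sub_apply, sub_eq_zero] at h2
      exact h2
    · push Not at hcase
      have h1 := C_vert hC hM hRU S hcase
      have h2 : Cl (MulAction.stabilizer (Matrix.GeneralLinearGroup (Fin 2) R) S) := by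
        refine C_abker hC hM (((psi R).comp (Subgroup.subtype _)).codRestrict
          (MulAction.stabilizer (PG (algebraMap R (FractionRing R)).range) S)
          (fun g => g.2)) ?_ h1
        intro a b ha _
        apply Subtype.ext
        exact psi_one_comm R (congrArg Subtype.val ha) _
      exact C_stab hC G S h2
  · push Not at ht
    have hunit : ∀ x : R, x ≠ 0 → IsUnit x := fun x hx => hu x hx (ht x hx)
    have hεi : Function.Injective ε := by
      rw [injective_iff_map_eq_zero]
      intro x hx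
      by_contra hne
      exact ((hunit x hne).map ε).ne_zero hx
    refine sl_emb hC ε hL (Subgroup.subtype G) (fun g => hG _ g.2) ?_
    rintro ⟨g, hgG⟩ hg1
    have hg1 : Matrix.GeneralLinearGroup.map (n := Fin 2) ε g = 1 := hg1
    apply Subtype.ext
    change g = 1
    have h1 : Function.Injective (Matrix.GeneralLinearGroup.map (n := Fin 2) ε) := by
      apply Units.map_injective
      intro A B hAB
      exact Matrix.map_injective hεi hAB
    exact h1 (by rw [hg1, map_one])

end main

theorem final (Cl : ∀ (G : Type) [Group G], Prop) (hC : ClosedE Cl)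
    (hM : ∀ (G : Type) [Group G], derivedSeries G 2 = ⊥ → Cl G) (hA : AcylF Cl)
    (R : Type) [CommRing R] [IsDomain R] (deg : R → ℕ)
    (hmul : ∀ x y : R, x ≠ 0 → y ≠ 0 → deg (x * y) = deg x + deg y)
    (hadd : ∀ x y : R, x ≠ 0 → y ≠ 0 → x + y ≠ 0 → deg (x + y) ≤ max (deg x) (deg y))
    (Γ : Subgroup (Matrix.GeneralLinearGroup (Fin 2) R))
    (h : (∀ H : Subgroup (Matrix.GeneralLinearGroup (Fin 2) R),
        (∀ g ∈ H, g.val.det = 1 ∧ ∃ u : Rˣ, ∃ γ ∈ Γ, g.val = (u : R) • γ.val) →
        (∃ n : ℕ, ∀ g ∈ H, ∀ i j, deg (g.val i j) ≤ n) → Cl H) ∨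
      ((∀ x : R, x ≠ 0 → deg x = 0 → IsUnit x) ∧
        ∃ (L : Type) (_ : Field L) (_ : R →+* L), Cl (Matrix.SpecialLinearGroup (Fin 2) L) ∨
          ∃ (k₀ : Type) (_ : Field k₀) (_ : Algebra k₀ L), Algebra.IsAlgebraic k₀ L ∧
            (Finite k₀ ∨ ∀ m : ℕ, Cl (Matrix.GeneralLinearGroup (Fin m) k₀)))) :
    Cl Γ := by
  have hd : Dg deg := ⟨hmul, hadd⟩
  refine red hC hM Γ fun G hG1 hG2 => ?_
  rcases h with h | ⟨hu, L, _, ε, h⟩
  · refine caseA hC hM hA hd G hG1 fun H hH hb => h H (fun g hg => ⟨?_, ?_⟩) hb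
    · exact congrArg Units.val (hG1 g (hH hg))
    · obtain ⟨u, γ, hγ, e⟩ := hG2 g (hH hg)
      refine ⟨u, γ, hγ, ?_⟩
      rw [e]
      change Matrix.scalar (Fin 2) (u : R) * γ.val = _
      rw [Matrix.scalar_apply, ← Matrix.smul_one_eq_diagonal, smul_mul_assoc, one_mul]
  · have hL : Cl (Matrix.SpecialLinearGroup (Fin 2) L) := by
      rcases h with h | ⟨k₀, _, _, halg, h⟩
      · exact h
      · exact hC.base.of_injective _ _ Matrix.SpecialLinearGroup.toGL
          Matrix.SpecialLinearGroup.toGL_injective (C_alg' k₀ hC h L halg (Fin 2))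
    exact caseB hC hM hA hd hu ε hL G hG1

end Pool.Agent.J4.H41.GT
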