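import Pool.Agent.J4.H41.GT.Cyl

/-!
# The action is acylindrical
-/

set_option autoImplicit false

namespace Pool.Agent.J4.H41.GT

open DV SimpleGraph
open Pool.Agent.Y110.FJ (ClosedE)
open Pool.Agent.N509.TK (LR Cyl cy lk cs Mem Dt Mem_cy Mem_cy' cy_symm cy_rel Pres cyAct St St_exists
  St_smul St_unique f1 BB BB_tree BB_cases)
open Pool.Agent.N509.TX (AcylF C_edge C_stab of_fg)
open Pool.Agent.R941.FJ (C_equiv C_le C_cyc mem_sup_normal)

variable {Cl : ∀ (G : Type) [Group G], Prop}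
variable {F : Type} [Field F] {V : DV F} {Rs : Subring F}
variable {G : Type} [Group G] [MulAction G (Vx V)] {φ : G →* PG Rs}

/-- two neighbouring cylinders of a path -/
theorem pr (hR : Str V Rs) (hφ : Thr V Rs G φ) {g : G} {h : (Mt F)ˣ} (hh : h ∈ GR Rs)
    (hgh : (φ g).1 = cP h) (hs : ¬ Sc h.val) {x0 x1 x2 x3 x4 : Vx V ⊕ Cyl (Gr V) (rl Rs)}
    {v0 : Vx V} (h0 : x0 = Sum.inl v0)
    (h01 : (BB (Gr V) (rl Rs)).Adj x0 x1) (h12 : (BB (Gr V) (rl Rs)).Adj x1 x2)
    (h23 : (BB (Gr V) (rl Rs)).Adj x2 x3) (h34 : (BB (Gr V) (rl Rs)).Adj x3 x4)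
    (n02 : x0 ≠ x2) (n13 : x1 ≠ x3) (n24 : x2 ≠ x4)
    (f0 : ∀ v, x0 = Sum.inl v → g • v = v) (f2 : ∀ v, x2 = Sum.inl v → g • v = v)
    (f4 : ∀ v, x4 = Sum.inl v → g • v = v) :
    (∃ v, x4 = Sum.inl v) ∧ ∃ y, (x1 = Sum.inr y ∨ x3 = Sum.inr y) ∧ Qn h.val y := by
  subst h0
  rcases BB_cases h01 with ⟨_, y0, h, rfl, m00⟩ | ⟨_, _, _, h, _⟩
  swap
  · exact absurd h (by simp)
  cases h
  rcases BB_cases h12 with ⟨_, _, h, _, _⟩ | ⟨v1, _, rfl, h, m01⟩
  · exact absurd h (by simp)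
  cases h
  rcases BB_cases h23 with ⟨_, y1, h, rfl, m11⟩ | ⟨_, _, _, h, _⟩
  swap
  · exact absurd h (by simp)
  cases h
  rcases BB_cases h34 with ⟨_, _, h, _, _⟩ | ⟨v2, _, rfl, h, m12⟩
  · exact absurd h (by simp)
  cases h
  refine ⟨⟨v2, rfl⟩, ?_⟩
  rcases Qn_or hR hφ hh hgh hs (fun e => n02 (by rw [e])) (fun e => n24 (by rw [e]))
    (fun e => n13 (by rw [e])) m00 m01 m11 m12 (f0 _ rfl) (f2 _ rfl) (f4 _ rfl) with h | h
  · exact ⟨y0, Or.inl rfl, h⟩
  · exact ⟨y1, Or.inr rfl, h⟩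

/-- finitely generated groups -/
theorem C_fg (hC : ClosedE Cl) (hM : ∀ (G : Type) [Group G], derivedSeries G 2 = ⊥ → Cl G)
    (hA : AcylF Cl) (hR : Str V Rs) (hφ : Thr V Rs G φ) (hfg : Group.FG G)
    (hV : ∀ S : Vx V, Cl (MulAction.stabilizer G S)) : Cl G := by
  have hT := tree V
  have hr := hφ.lr hR
  let _ := cyAct hφ.hact hr
  have hcy : ∀ (g : G) {v a : Vx V} (h : (Gr V).Adj v a),
      g • (cy (rl Rs) h) = cy (rl Rs) (hφ.hact g v a h) := fun g {v a} h => rfl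
  refine hA G (Vx V ⊕ Cyl (Gr V) (rl Rs)) (BB (Gr V) (rl Rs)) hfg (BB_tree hT hr) ?_ ?_
    ⟨13, 2, ?_⟩ ?_
  · intro g x x' h
    have hmem : ∀ (v : Vx V) (y : Cyl (Gr V) (rl Rs)), Mem y v → Mem (g • y) (g • v) := by
      rintro v _ ⟨a, ha, rfl⟩
      exact ⟨g • a, hφ.hact g v a ha, (hcy g ha).symm⟩
    rcases BB_cases h with ⟨v, y, rfl, rfl, h1⟩ | ⟨v, y, rfl, rfl, h1⟩
    · exact Or.inl ⟨g • v, g • y, rfl, rfl, hmem v y h1⟩
    · exact Or.inr ⟨g • v, g • y, rfl, rfl, hmem v y h1⟩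
  · rintro g x x' h ⟨h1, _⟩
    rcases BB_cases h with ⟨v, y, rfl, rfl, _⟩ | ⟨v, y, rfl, rfl, _⟩
    · exact absurd h1 (by simp)
    · exact absurd h1 (by simp)
  · -- acylindricity
    intro x x' p hp hlen Fi hFi
    refine hφ.card Fi fun g hg => ?_
    · by_contra hne
      obtain ⟨h, hh, hgh⟩ := PG_rep (φ g)
      have hs : ¬ Sc h.val := by
        intro hs
        apply hne
        apply Subtype.ext
        rw [hgh, cP_sc hs]
        rfl
      obtain ⟨f, hf⟩ : ∃ f : ℕ → Vx V ⊕ Cyl (Gr V) (rl Rs), f = p.getVert := ⟨_, rfl⟩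
      have hadj : ∀ i, i < 13 → (BB (Gr V) (rl Rs)).Adj (f i) (f (i + 1)) := by
        intro i hi
        rw [hf]
        exact p.adj_getVert_succ (by omega)
      have hinj : ∀ i j, i ≤ 13 → j ≤ 13 → f i = f j → i = j := by
        intro i j hi hj hij
        rw [hf] at hij
        exact hp.getVert_injOn (by simp; omega) (by simp; omega) hij
      have hfix : ∀ i v, f i = Sum.inl v → g • v = v := by
        intro i v hv
        have h1 := hFi g hg (f i) (by rw [hf]; exact p.getVert_mem_support i)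
        rw [hv] at h1
        exact Sum.inl_injective h1
      have step : ∀ i, i + 4 ≤ 13 → (∃ v, f i = Sum.inl v) → (∃ v, f (i + 4) = Sum.inl v) ∧
          ∃ y j, i < j ∧ j < i + 4 ∧ f j = Sum.inr y ∧ Qn h.val y := by
        rintro i hi ⟨v, hv⟩
        obtain ⟨h1, y, h2, h3⟩ := pr hR hφ hh hgh hs hv (hadj i (by omega))
          (hadj (i + 1) (by omega)) (hadj (i + 2) (by omega)) (hadj (i + 3) (by omega))
          (fun e => by have := hinj _ _ (by omega) (by omega) e; omega)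
          (fun e => by have := hinj _ _ (by omega) (by omega) e; omega)
          (fun e => by have := hinj _ _ (by omega) (by omega) e; omega)
          (hfix i) (hfix (i + 2)) (hfix (i + 4))
        refine ⟨h1, y, ?_⟩
        rcases h2 with h2 | h2
        · exact ⟨i + 1, by omega, by omega, h2, h3⟩
        · exact ⟨i + 3, by omega, by omega, h2, h3⟩
      have start : ∃ i, i ≤ 1 ∧ ∃ v, f i = Sum.inl v := by
        rcases BB_cases (hadj 0 (by omega)) with ⟨v, _, h1, _, _⟩ | ⟨v, _, h1, _, _⟩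
        · exact ⟨0, by omega, v, h1⟩
        · exact ⟨1, by omega, v, h1⟩
      obtain ⟨i, hi, h1⟩ := start
      obtain ⟨k1, y0, j0, a0, b0, c0, q0⟩ := step i (by omega) h1
      obtain ⟨k2, y1, j1, a1, b1, c1, q1⟩ := step (i + 4) (by omega) k1
      obtain ⟨k3, y2, j2, a2, b2, c2, q2⟩ := step (i + 4 + 4) (by omega) k2
      rcases Qn_three hs q0 q1 q2 with e | e | e
      · have := hinj j0 j1 (by omega) (by omega) (by rw [c0, c1, e])
        omega
      · have := hinj j1 j2 (by omega) (by omega) (by rw [c1, c2, e])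
        omega
      · have := hinj j0 j2 (by omega) (by omega) (by rw [c0, c2, e])
        omega
  · rintro (v | y)
    · refine C_le hC.base (H := MulAction.stabilizer G (Sum.inl v : Vx V ⊕ Cyl (Gr V) (rl Rs)))
        (K := MulAction.stabilizer G v) ?_ (hV v)
      intro g hg
      exact Sum.inl_injective hg
    · refine C_cylst hC hM hR hφ hV y _ ?_
      intro g hg v a h hya
      have h1 : g • y = y := Sum.inr_injective hg
      rw [← hcy g h, hya, h1]

end Pool.Agent.J4.H41.GT
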