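import Pool.Agent.J4.H41.GT.Val

/-!
# Maximal orders
-/

set_option autoImplicit false

namespace Pool.Agent.J4.H41.GT

open DV

/-- matrices -/
abbrev Mt (F : Type) : Type := Matrix (Fin 2) (Fin 2) F

variable {F : Type} [Field F]

/-- the conjugate of a set of matrices -/
def cj (g : (Mt F)ˣ) (S : Set (Mt F)) : Set (Mt F) := {x | (g⁻¹).val * x * g.val ∈ S}

theorem mem_cj {g : (Mt F)ˣ} {S : Set (Mt F)} {x : Mt F} :
    x ∈ cj g S ↔ (g⁻¹).val * x * g.val ∈ S := Iff.rfl

theorem cj_mul (g h : (Mt F)ˣ) (S : Set (Mt F)) : cj (g * h) S = cj g (cj h S) := by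
  ext x
  rw [mem_cj, mem_cj, mem_cj, mul_inv_rev, Units.val_mul, Units.val_mul]
  simp only [mul_assoc]

theorem cj_one (S : Set (Mt F)) : cj 1 S = S := by
  ext x
  rw [mem_cj]
  simp

theorem cj_of_units {g : (Mt F)ˣ} {S : Set (Mt F)} (hS : ∀ x ∈ S, ∀ y ∈ S, x * y ∈ S)
    (h : g.val ∈ S) (h' : (g⁻¹).val ∈ S) : cj g S = S := by
  ext x
  rw [mem_cj]
  constructor
  · intro hx
    have h1 := hS _ (hS _ h _ hx) _ h'
    have h2 : g.val * ((g⁻¹).val * x * g.val) * (g⁻¹).val = x := by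
      have e1 : g.val * (g⁻¹).val = 1 := g.mul_inv
      calc g.val * ((g⁻¹).val * x * g.val) * (g⁻¹).val
          = (g.val * (g⁻¹).val) * x * (g.val * (g⁻¹).val) := by simp only [mul_assoc]
        _ = x := by rw [e1, one_mul, mul_one]
    rwa [h2] at h1
  · intro hx
    exact hS _ (hS _ h' _ hx) _ h

variable (V : DV F)

/-- the standard maximal order -/
def S0 : Set (Mt F) := {x | ∀ i j, V.B 0 (x i j)}

/-- a neighbour of the standard maximal order -/
def S1 : Set (Mt F) :=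
  {x | V.B 0 (x 0 0) ∧ V.B 0 (x 1 1) ∧ V.B (-1) (x 1 0) ∧ V.B 1 (x 0 1)}

/-- the maximal orders -/
def ord (a : F) (n : ℤ) : Set (Mt F) :=
  {x | V.B 0 (x 0 0 - a * x 1 0) ∧ V.B 0 (x 1 1 + a * x 1 0) ∧ V.B (-n) (x 1 0) ∧
    V.B n (x 0 1 + (x 0 0 - x 1 1) * a - x 1 0 * a ^ 2)}

variable {V}

theorem mul00 (x y : Mt F) : (x * y) 0 0 = x 0 0 * y 0 0 + x 0 1 * y 1 0 := by
  rw [Matrix.mul_apply, Fin.sum_univ_two]
theorem mul01 (x y : Mt F) : (x * y) 0 1 = x 0 0 * y 0 1 + x 0 1 * y 1 1 := by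
  rw [Matrix.mul_apply, Fin.sum_univ_two]
theorem mul10 (x y : Mt F) : (x * y) 1 0 = x 1 0 * y 0 0 + x 1 1 * y 1 0 := by
  rw [Matrix.mul_apply, Fin.sum_univ_two]
theorem mul11 (x y : Mt F) : (x * y) 1 1 = x 1 0 * y 0 1 + x 1 1 * y 1 1 := by
  rw [Matrix.mul_apply, Fin.sum_univ_two]

theorem ord00 : ord V 0 0 = S0 V := by
  ext x
  constructor
  · rintro ⟨h1, h2, h3, h4⟩ i j
    simp only [zero_mul, sub_zero, add_zero, mul_zero, neg_zero, ne_eq, OfNat.ofNat_ne_zero,
      not_false_eq_true, zero_pow] at h1 h2 h3 h4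
    fin_cases i <;> fin_cases j
    · exact h1
    · exact h4
    · exact h3
    · exact h2
  · intro h
    refine ⟨?_, ?_, ?_, ?_⟩
    · simpa using h 0 0
    · simpa using h 1 1
    · simpa using h 1 0
    · simpa using h 0 1

theorem ord01 : ord V 0 1 = S1 V := by
  ext x
  constructor
  · rintro ⟨h1, h2, h3, h4⟩
    simp only [zero_mul, sub_zero, add_zero, mul_zero, ne_eq, OfNat.ofNat_ne_zero,
      not_false_eq_true, zero_pow] at h1 h2 h3 h4
    exact ⟨h1, h2, h3, h4⟩
  · rintro ⟨h1, h2, h3, h4⟩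
    refine ⟨?_, ?_, ?_, ?_⟩
    · simpa using h1
    · simpa using h2
    · simpa using h3
    · simpa using h4

theorem S0_mul (x : Mt F) (hx : x ∈ S0 V) (y : Mt F) (hy : y ∈ S0 V) : x * y ∈ S0 V := by
  intro i j
  rw [Matrix.mul_apply, Fin.sum_univ_two]
  exact B_add (B_mul (by omega) (hx i 0) (hy 0 j)) (B_mul (by omega) (hx i 1) (hy 1 j))

theorem S1_mul (x : Mt F) (hx : x ∈ S1 V) (y : Mt F) (hy : y ∈ S1 V) : x * y ∈ S1 V := by
  obtain ⟨h1, h2, h3, h4⟩ := hx
  obtain ⟨g1, g2, g3, g4⟩ := hy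
  refine ⟨?_, ?_, ?_, ?_⟩
  · rw [mul00]
    exact B_add (B_mul (by omega) h1 g1) (B_mul (by omega) h4 g3)
  · rw [mul11]
    exact B_add (B_mul (by omega) h3 g4) (B_mul (by omega) h2 g2)
  · rw [mul10]
    exact B_add (B_mul (by omega) h3 g1) (B_mul (by omega) h2 g3)
  · rw [mul01]
    exact B_add (B_mul (by omega) h1 g4) (B_mul (by omega) h4 g2)

/-- upper triangular matrices -/
def up (a b d : F) (ha : a ≠ 0) (hd : d ≠ 0) : (Mt F)ˣ where
  val := !![a, b; 0, d]
  inv := !![a⁻¹, -(b / (a * d)); 0, d⁻¹]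
  val_inv := by
    rw [Matrix.mul_fin_two, Matrix.one_fin_two]
    congr 1
    simp only [mul_zero, add_zero, zero_mul, zero_add, mul_neg]
    rw [mul_inv_cancel₀ ha, mul_inv_cancel₀ hd]
    have : -(a * (b / (a * d))) + b * d⁻¹ = 0 := by field_simp; ring
    rw [this]
    simp
  inv_val := by
    rw [Matrix.mul_fin_two, Matrix.one_fin_two]
    congr 1
    simp only [mul_zero, add_zero, zero_mul]
    rw [inv_mul_cancel₀ ha, inv_mul_cancel₀ hd]
    have : a⁻¹ * b + -(b / (a * d)) * d = 0 := by field_simp; ring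
    rw [this]
    simp

theorem up_val (a b d : F) (ha hd) : (up a b d ha hd).val = !![a, b; 0, d] := rfl
theorem up_inv (a b d : F) (ha hd) :
    ((up a b d ha hd)⁻¹).val = !![a⁻¹, -(b / (a * d)); 0, d⁻¹] := rfl

theorem cj_up {α β δ : F} (hα : α ≠ 0) (hδ : δ ≠ 0) (a : F) (n : ℤ) :
    cj (up α β δ hα hδ) (ord V a n) = ord V ((α * a + β) / δ) (n + V.v α - V.v δ) := by
  ext x
  rw [mem_cj, up_val, up_inv]
  obtain ⟨y, hy⟩ : ∃ y : Mt F, y = !![α⁻¹, -(β / (α * δ)); 0, δ⁻¹] * x * !![α, β; 0, δ] := ⟨_, rfl⟩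
  rw [← hy]
  have e00 : y 0 0 = x 0 0 - (β / δ) * x 1 0 := by
    rw [hy, mul00, mul00, mul01]
    simp
    field_simp
    ring
  have e10 : y 1 0 = (α / δ) * x 1 0 := by
    rw [hy, mul10, mul10, mul11]
    simp
    field_simp
  have e11 : y 1 1 = x 1 1 + (β / δ) * x 1 0 := by
    rw [hy, mul11, mul10, mul11]
    simp
    field_simp
    ring
  have e01 : y 0 1 = (δ / α) * (x 0 1 + (x 0 0 - x 1 1) * (β / δ) - x 1 0 * (β / δ) ^ 2) := by
    rw [hy, mul01, mul00, mul01]
    simp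
    field_simp
    ring
  have f1 : y 0 0 - a * y 1 0 = x 0 0 - (α * a + β) / δ * x 1 0 := by
    rw [e00, e10]; field_simp; ring
  have f2 : y 1 1 + a * y 1 0 = x 1 1 + (α * a + β) / δ * x 1 0 := by
    rw [e11, e10]; field_simp; ring
  have f3 : y 0 1 + (y 0 0 - y 1 1) * a - y 1 0 * a ^ 2 =
      (δ / α) * (x 0 1 + (x 0 0 - x 1 1) * ((α * a + β) / δ) - x 1 0 * ((α * a + β) / δ) ^ 2) := by
    rw [e01, e00, e11, e10]; field_simp; ring
  have hαδ : α / δ ≠ 0 := div_ne_zero hα hδ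
  have hδα : δ / α ≠ 0 := div_ne_zero hδ hα
  have v1 : V.v (α / δ) = V.v α - V.v δ := v_div hα hδ
  have v2 : V.v (δ / α) = V.v δ - V.v α := v_div hδ hα
  have g1 : V.B (-n) (y 1 0) ↔ V.B (-(n + V.v α - V.v δ)) (x 1 0) := by
    rw [e10]
    exact B_mul_iff hαδ (by rw [v1]; ring)
  have g2 : V.B n (y 0 1 + (y 0 0 - y 1 1) * a - y 1 0 * a ^ 2) ↔
      V.B (n + V.v α - V.v δ) (x 0 1 + (x 0 0 - x 1 1) * ((α * a + β) / δ) -
        x 1 0 * ((α * a + β) / δ) ^ 2) := by
    rw [f3]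
    exact B_mul_iff hδα (by rw [v2]; ring)
  constructor
  · rintro ⟨h1, h2, h3, h4⟩
    rw [f1] at h1
    rw [f2] at h2
    exact ⟨h1, h2, g1.1 h3, g2.1 h4⟩
  · rintro ⟨h1, h2, h3, h4⟩
    refine ⟨?_, ?_, g1.2 h3, g2.2 h4⟩
    · rw [f1]; exact h1
    · rw [f2]; exact h2

theorem ord_eq_of {a b : F} {n : ℤ} (h : V.B n (a - b)) : ord V a n = ord V b n := by
  have key : ∀ {a b : F}, V.B n (a - b) → ∀ x ∈ ord V a n, x ∈ ord V b n := by
    intro a b h x hx
    obtain ⟨h1, h2, h3, h4⟩ := hx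
    have h5 : V.B 0 ((a - b) * x 1 0) := B_mul (m := n) (n := -n) (by omega) h h3
    refine ⟨?_, ?_, h3, ?_⟩
    · have : x 0 0 - b * x 1 0 = (x 0 0 - a * x 1 0) + (a - b) * x 1 0 := by ring
      rw [this]
      exact B_add h1 h5
    · have : x 1 1 + b * x 1 0 = (x 1 1 + a * x 1 0) - (a - b) * x 1 0 := by ring
      rw [this]
      exact B_sub h2 h5
    · have : x 0 1 + (x 0 0 - x 1 1) * b - x 1 0 * b ^ 2 =
          (x 0 1 + (x 0 0 - x 1 1) * a - x 1 0 * a ^ 2) -
          (a - b) * ((x 0 0 - a * x 1 0) - (x 1 1 + a * x 1 0)) - (a - b) * ((a - b) * x 1 0) := by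
        ring
      rw [this]
      exact B_sub (B_sub h4 (B_mul (m := n) (n := 0) (by omega) h (B_sub h1 h2)))
        (B_mul (m := n) (n := 0) (by omega) h h5)
  have h' : V.B n (b - a) := by
    have : b - a = -(a - b) := by ring
    rw [this]
    exact B_neg h
  exact Set.Subset.antisymm (key h) (key h')

theorem ord_inj {a b : F} {n m : ℤ} (h : ord V a n = ord V b m) : n = m ∧ V.B n (a - b) := by
  have key : ∀ {a b : F} {n m : ℤ}, ord V a n = ord V b m → m ≤ n := by
    intro a b n m h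
    obtain ⟨t, ht, hv⟩ := exists_v (V := V) n
    have h1 : (!![0, t; 0, 0] : Mt F) ∈ ord V a n := by
      refine ⟨?_, ?_, ?_, ?_⟩ <;> simp [B_zero]
      right; omega
    rw [h] at h1
    obtain ⟨-, -, -, h4⟩ := h1
    simp at h4
    rcases h4 with h4 | h4
    · exact absurd h4 ht
    · omega
  have hnm : n = m := le_antisymm (key h.symm) (key h)
  refine ⟨hnm, ?_⟩
  subst hnm
  have h1 : (!![1, -a; 0, 0] : Mt F) ∈ ord V a n := by
    refine ⟨?_, ?_, ?_, ?_⟩ <;> simp [B_zero, B_one]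
  rw [h] at h1
  obtain ⟨-, -, -, h4⟩ := h1
  simp at h4
  have : a - b = -(-a + b) := by ring
  rw [this]
  exact B_neg h4

/-- Iwasawa decomposition -/
theorem iwasawa (V : DV F) (h : (Mt F)ˣ) : ∃ (a b d : F) (ha : a ≠ 0) (hd : d ≠ 0) (κ : (Mt F)ˣ),
    h = up a b d ha hd * κ ∧ κ.val ∈ S0 V ∧ (κ⁻¹).val ∈ S0 V := by
  obtain ⟨p, q, r, s, hpq⟩ : ∃ p q r s, h.val = !![p, q; r, s] :=
    ⟨_, _, _, _, Matrix.eta_fin_two _⟩
  have hdet : p * s - q * r ≠ 0 := by
    have h1 : IsUnit h.val.det := (Matrix.isUnit_iff_isUnit_det _).1 h.isUnit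
    rw [hpq, Matrix.det_fin_two_of] at h1
    exact h1.ne_zero
  have hrs : ¬ (r = 0 ∧ s = 0) := by
    rintro ⟨rfl, rfl⟩
    simp at hdet
  rcases B_or (V := V) r s hrs with ⟨hs, h1⟩ | ⟨hr, h1⟩
  · have ha : p - q * r / s ≠ 0 := by
      intro h0
      apply hdet
      field_simp at h0
      linear_combination h0
    let κ : (Mt F)ˣ := ⟨!![1, 0; r / s, 1], !![1, 0; -(r / s), 1],
      by rw [Matrix.mul_fin_two, Matrix.one_fin_two]; simp,
      by rw [Matrix.mul_fin_two, Matrix.one_fin_two]; simp⟩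
    refine ⟨p - q * r / s, q, s, ha, hs, κ, ?_, ?_, ?_⟩
    · apply Units.ext
      rw [Units.val_mul, up_val, hpq]
      change _ = !![p - q * r / s, q; 0, s] * !![1, 0; r / s, 1]
      rw [Matrix.mul_fin_two]
      congr 1
      have e1 : (p - q * r / s) * 1 + q * (r / s) = p := by field_simp; ring
      have e2 : 0 * 1 + s * (r / s) = r := by field_simp; ring
      rw [e1, e2]
      simp
    · intro i j
      change V.B 0 ((!![1, 0; r / s, 1] : Mt F) i j)
      fin_cases i <;> fin_cases j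
      · exact B_one
      · exact B_zero 0
      · exact h1
      · exact B_one
    · intro i j
      change V.B 0 ((!![1, 0; -(r / s), 1] : Mt F) i j)
      fin_cases i <;> fin_cases j
      · exact B_one
      · exact B_zero 0
      · exact B_neg h1
      · exact B_one
  · have ha : q - p * s / r ≠ 0 := by
      intro h0
      apply hdet
      field_simp at h0
      linear_combination -h0
    let κ : (Mt F)ˣ := ⟨!![0, 1; 1, s / r], !![-(s / r), 1; 1, 0],
      by rw [Matrix.mul_fin_two, Matrix.one_fin_two]; simp,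
      by rw [Matrix.mul_fin_two, Matrix.one_fin_two]; simp⟩
    have h2 : V.B 0 (s / r) := B_mono (by omega) h1
    refine ⟨q - p * s / r, p, r, ha, hr, κ, ?_, ?_, ?_⟩
    · apply Units.ext
      rw [Units.val_mul, up_val, hpq]
      change _ = !![q - p * s / r, p; 0, r] * !![0, 1; 1, s / r]
      rw [Matrix.mul_fin_two]
      congr 1
      have e1 : (q - p * s / r) * 1 + p * (s / r) = q := by field_simp; ring
      have e2 : 0 * 1 + r * (s / r) = s := by field_simp; ring
      rw [e1, e2]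
      simp
    · intro i j
      change V.B 0 ((!![0, 1; 1, s / r] : Mt F) i j)
      fin_cases i <;> fin_cases j
      · exact B_zero 0
      · exact B_one
      · exact B_one
      · exact h2
    · intro i j
      change V.B 0 ((!![-(s / r), 1; 1, 0] : Mt F) i j)
      fin_cases i <;> fin_cases j
      · exact B_neg h2
      · exact B_one
      · exact B_one
      · exact B_zero 0

/-- the neighbours of the standard order -/
theorem kappa {κ : (Mt F)ˣ} (h : κ.val ∈ S0 V) (h' : (κ⁻¹).val ∈ S0 V) :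
    (∃ c, V.B 0 c ∧ cj κ (S1 V) = ord V c 1) ∨ cj κ (S1 V) = ord V 0 (-1) := by
  obtain ⟨p, q, r, s, hpq⟩ : ∃ p q r s, κ.val = !![p, q; r, s] :=
    ⟨_, _, _, _, Matrix.eta_fin_two _⟩
  obtain ⟨p', q', r', s', hpq'⟩ : ∃ p q r s, (κ⁻¹).val = !![p, q; r, s] :=
    ⟨_, _, _, _, Matrix.eta_fin_two _⟩
  have m1 : κ.val * (κ⁻¹).val = 1 := κ.mul_inv
  have m2 : (κ⁻¹).val * κ.val = 1 := κ.inv_mul
  rw [hpq, hpq', Matrix.mul_fin_two, Matrix.one_fin_two] at m1 m2
  have a00 := congrFun (congrFun m1 0) 0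
  have a01 := congrFun (congrFun m1 0) 1
  have a10 := congrFun (congrFun m1 1) 0
  have a11 := congrFun (congrFun m1 1) 1
  have b00 := congrFun (congrFun m2 0) 0
  have b01 := congrFun (congrFun m2 0) 1
  have b10 := congrFun (congrFun m2 1) 0
  have b11 := congrFun (congrFun m2 1) 1
  simp at a00 a01 a10 a11 b00 b01 b10 b11
  have hp : V.B 0 p := by have := h 0 0; rwa [hpq] at this
  have hq : V.B 0 q := by have := h 0 1; rwa [hpq] at this
  have hr : V.B 0 r := by have := h 1 0; rwa [hpq] at this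
  have hs : V.B 0 s := by have := h 1 1; rwa [hpq] at this
  have hp' : V.B 0 p' := by have := h' 0 0; rwa [hpq'] at this
  have hq' : V.B 0 q' := by have := h' 0 1; rwa [hpq'] at this
  have hr' : V.B 0 r' := by have := h' 1 0; rwa [hpq'] at this
  have hs' : V.B 0 s' := by have := h' 1 1; rwa [hpq'] at this
  by_cases hs1 : V.B 1 s
  · right
    let w : (Mt F)ˣ := ⟨!![0, 1; 1, 0], !![0, 1; 1, 0],
      by rw [Matrix.mul_fin_two, Matrix.one_fin_two]; simp,
      by rw [Matrix.mul_fin_two, Matrix.one_fin_two]; simp⟩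
    have hw : cj w (S1 V) = ord V 0 (-1) := by
      ext x
      rw [mem_cj]
      change (!![0, 1; 1, 0] * x * !![0, 1; 1, 0] : Mt F) ∈ S1 V ↔ _
      obtain ⟨y, hy⟩ : ∃ y : Mt F, y = !![0, 1; 1, 0] * x * !![0, 1; 1, 0] := ⟨_, rfl⟩
      rw [← hy]
      have e00 : y 0 0 = x 1 1 := by rw [hy, mul00, mul00, mul01]; simp
      have e01 : y 0 1 = x 1 0 := by rw [hy, mul01, mul00, mul01]; simp
      have e10 : y 1 0 = x 0 1 := by rw [hy, mul10, mul10, mul11]; simp
      have e11 : y 1 1 = x 0 0 := by rw [hy, mul11, mul10, mul11]; simp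
      constructor
      · rintro ⟨h1, h2, h3, h4⟩
        rw [e00] at h1
        rw [e11] at h2
        rw [e10] at h3
        rw [e01] at h4
        refine ⟨?_, ?_, ?_, ?_⟩
        · simpa using h2
        · simpa using h1
        · simpa using h4
        · simpa using h3
      · rintro ⟨h1, h2, h3, h4⟩
        simp at h1 h2 h3 h4
        refine ⟨?_, ?_, ?_, ?_⟩
        · rw [e00]; exact h2
        · rw [e11]; exact h1
        · rw [e10]; exact h4
        · rw [e01]; exact h3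
    have e : κ = w * (w⁻¹ * κ) := by group
    rw [e, cj_mul]
    have h1 : (w⁻¹ * κ).val = !![r, s; p, q] := by
      rw [Units.val_mul, hpq]
      change !![0, 1; 1, 0] * !![p, q; r, s] = _
      rw [Matrix.mul_fin_two]
      simp
    have h2 : ((w⁻¹ * κ)⁻¹).val = !![q', p'; s', r'] := by
      rw [mul_inv_rev, inv_inv, Units.val_mul, hpq']
      change !![p', q'; r', s'] * !![0, 1; 1, 0] = _
      rw [Matrix.mul_fin_two]
      simp
    rw [cj_of_units S1_mul ?_ ?_, hw]
    · rw [h1]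
      exact ⟨hr, hq, B_mono (by omega) hp, hs1⟩
    · rw [h2]
      refine ⟨hq', hr', B_mono (by omega) hs', ?_⟩
      have : p' = (p' * s' - q' * r') * s := by linear_combination (-p') * a11 + q' * a10
      change V.B 1 p'
      rw [this]
      exact B_mul (m := 0) (n := 1) (by omega) (B_sub (B_mul (by omega) hp' hs')
        (B_mul (by omega) hq' hr')) hs1
  · left
    have hs0 : s ≠ 0 := fun h0 => hs1 (Or.inl h0)
    have hvs : V.v s = 0 := by
      rcases hs with h0 | h0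
      · exact absurd h0 hs0
      · by_contra hne
        exact hs1 (Or.inr (by omega))
    have hc : V.B 0 (q / s) := by
      rw [div_eq_mul_inv]
      exact B_mul (m := 0) (n := 0) (by omega) hq (Or.inr (by rw [v_inv hs0]; omega))
    refine ⟨q / s, hc, ?_⟩
    have e : κ = up 1 (q / s) 1 one_ne_zero one_ne_zero *
        ((up 1 (q / s) 1 one_ne_zero one_ne_zero)⁻¹ * κ) := by group
    rw [e, cj_mul]
    have h1 : ((up 1 (q / s) 1 one_ne_zero one_ne_zero)⁻¹ * κ).val =
        !![p - q / s * r, 0; r, s] := by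
      rw [Units.val_mul, up_inv, hpq, Matrix.mul_fin_two]
      congr 1
      have e1 : (1 : F)⁻¹ * q + -(q / s / (1 * 1)) * s = 0 := by field_simp; ring
      rw [e1]
      simp
      ring
    have h2 : (((up 1 (q / s) 1 one_ne_zero one_ne_zero)⁻¹ * κ)⁻¹).val =
        !![p', 0; r', r' * (q / s) + s'] := by
      rw [mul_inv_rev, inv_inv, Units.val_mul, up_val, hpq', Matrix.mul_fin_two]
      congr 1
      have e1 : p' * (q / s) + q' * 1 = 0 := by
        field_simp
        linear_combination b01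
      rw [e1]
      simp
    rw [cj_of_units S1_mul ?_ ?_, ← ord01, cj_up]
    · simp [v_one]
    · rw [h1]
      exact ⟨B_sub hp (B_mul (by omega) hc hr), hs, B_mono (by omega) hr, B_zero 1⟩
    · rw [h2]
      exact ⟨hp', B_add (B_mul (by omega) hr' hc) hs', B_mono (by omega) hr', B_zero 1⟩

end Pool.Agent.J4.H41.GT
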