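import Pool.Agent.J4.H41.GT.Alg2

/-!
# Reduction to matrices of determinant one
-/

set_option autoImplicit false

namespace Pool.Agent.J4.H41.GT

open Pool.Agent.Y110.FJ (ClosedE)
open Pool.Agent.R941.FJ (C_equiv C_le C_cyc mem_sup_normal)

theorem fg_map {G H : Type} [Group G] [Group H] (f : G →* H) {P : Subgroup G} (h : P.FG) :
    (P.map f).FG := by
  classical
  obtain ⟨S, rfl⟩ := h
  refine ⟨S.image f, ?_⟩
  rw [Finset.coe_image, ← MonoidHom.map_closure]

theorem exists_exp (A : Type) [CommGroup A] [Group.FG A] :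
    ∃ t : ℕ, 0 < t ∧ ∀ a : A, a ^ (2 * t) = 1 → a ^ t = 1 := by
  have h1 : Module.Finite ℤ (Additive A) := Module.Finite.iff_addGroup_fg.mpr inferInstance
  have h2 : IsNoetherian ℤ (Additive A) := isNoetherian_of_isNoetherianRing_of_finite ℤ (Additive A)
  have h4 : (CommGroup.torsion A).FG := by
    rw [Subgroup.fg_iff_add_fg, ← AddSubgroup.toIntSubmodule_toAddSubgroup
      (Subgroup.toAddSubgroup (CommGroup.torsion A)), ← Submodule.fg_iff_addSubgroup_fg]
    exact IsNoetherian.noetherian _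
  have h5 : Group.FG (CommGroup.torsion A) := (Group.fg_iff_subgroup_fg _).2 h4
  have h6 : Finite (CommGroup.torsion A) := by
    refine CommGroup.finite_of_fg_isMulTorsion _ ?_
    intro x
    exact (Submonoid.isOfFinOrder_coe (H := (CommGroup.torsion A).toSubmonoid) (x := x)).1 x.2
  refine ⟨Nat.card (CommGroup.torsion A), Nat.card_pos, ?_⟩
  intro a ha
  have hmem : a ∈ CommGroup.torsion A := by
    refine isOfFinOrder_iff_pow_eq_one.2 ⟨_, ?_, ha⟩
    have : 0 < Nat.card (CommGroup.torsion A) := Nat.card_pos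
    omega
  have h7 := pow_card_eq_one' (x := (⟨a, hmem⟩ : CommGroup.torsion A))
  exact congrArg Subtype.val h7

section red

variable {Cl : ∀ (G : Type) [Group G], Prop}
variable {R : Type} [CommRing R]

theorem scalar_comm (u : Rˣ) (g : (Matrix.GeneralLinearGroup (Fin 2) R)) :
    Matrix.GeneralLinearGroup.scalar (Fin 2) u * g = g * Matrix.GeneralLinearGroup.scalar (Fin 2) u := by
  apply Units.ext
  change Matrix.scalar (Fin 2) (u : R) * g.val = g.val * Matrix.scalar (Fin 2) (u : R)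
  exact (Matrix.scalar_commute (u : R) (fun r => mul_comm _ _) g.val).eq

theorem det_scalar' (u : Rˣ) :
    Matrix.GeneralLinearGroup.det (Matrix.GeneralLinearGroup.scalar (Fin 2) u) = u ^ 2 := by
  apply Units.ext
  change (Matrix.scalar (Fin 2) (u : R)).det = ((u ^ 2 : Rˣ) : R)
  simp [Matrix.det_diagonal]

/-- a finitely generated group is built from matrices of determinant one -/
theorem red_fg (hC : ClosedE Cl) (hM : ∀ (G : Type) [Group G], derivedSeries G 2 = ⊥ → Cl G)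
    (Γ : Subgroup (Matrix.GeneralLinearGroup (Fin 2) R)) (hfg : Γ.FG)
    (h : ∀ G : Subgroup (Matrix.GeneralLinearGroup (Fin 2) R), (∀ g ∈ G, Matrix.GeneralLinearGroup.det g = 1) →
      (∀ g ∈ G, ∃ u : Rˣ, ∃ γ ∈ Γ, g = Matrix.GeneralLinearGroup.scalar (Fin 2) u * γ) → Cl G) :
    Cl Γ := by
  have hΓfg : Group.FG Γ := (Group.fg_iff_subgroup_fg Γ).2 hfg
  obtain ⟨D, hD⟩ : ∃ D : Subgroup Rˣ, D = Γ.map Matrix.GeneralLinearGroup.det := ⟨_, rfl⟩
  have hDfg : Group.FG D := by
    rw [Group.fg_iff_subgroup_fg, hD]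
    exact fg_map _ hfg
  obtain ⟨t, ht, hexp⟩ := exists_exp D
  -- the pairs
  let N' : Subgroup ((Matrix.GeneralLinearGroup (Fin 2) R) × Rˣ) :=
    { carrier := {x | x.1 ∈ Γ ∧ x.2 ∈ D ∧ Matrix.GeneralLinearGroup.det x.1 = x.2 ^ (2 * t)}
      mul_mem' := by
        rintro a b ⟨h1, h2, h3⟩ ⟨h4, h5, h6⟩
        refine ⟨mul_mem h1 h4, mul_mem h2 h5, ?_⟩
        change Matrix.GeneralLinearGroup.det (a.1 * b.1) = (a.2 * b.2) ^ (2 * t)
        rw [map_mul, h3, h6, mul_pow]
      one_mem' := ⟨one_mem _, one_mem _, by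
        change Matrix.GeneralLinearGroup.det (1 : (Matrix.GeneralLinearGroup (Fin 2) R)) = (1 : Rˣ) ^ (2 * t)
        rw [map_one, one_pow]⟩
      inv_mem' := by
        rintro a ⟨h1, h2, h3⟩
        refine ⟨inv_mem h1, inv_mem h2, ?_⟩
        change Matrix.GeneralLinearGroup.det (a.1⁻¹) = (a.2⁻¹) ^ (2 * t)
        rw [map_inv, h3, inv_pow] }
  let f1 : N' →* (Matrix.GeneralLinearGroup (Fin 2) R) := (MonoidHom.fst (Matrix.GeneralLinearGroup (Fin 2) R) Rˣ).comp N'.subtype
  let f3 : N' →* (Matrix.GeneralLinearGroup (Fin 2) R) :=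
    { toFun := fun x => Matrix.GeneralLinearGroup.scalar (Fin 2) ((x.1.2 ^ t)⁻¹) * x.1.1
      map_one' := by
        change Matrix.GeneralLinearGroup.scalar (Fin 2) (((1 : Rˣ) ^ t)⁻¹) * (1 : (Matrix.GeneralLinearGroup (Fin 2) R)) = 1
        rw [one_pow, inv_one, map_one, one_mul]
      map_mul' := by
        intro x y
        change Matrix.GeneralLinearGroup.scalar (Fin 2) (((x.1.2 * y.1.2) ^ t)⁻¹) * (x.1.1 * y.1.1) =
          (Matrix.GeneralLinearGroup.scalar (Fin 2) ((x.1.2 ^ t)⁻¹) * x.1.1) *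
          (Matrix.GeneralLinearGroup.scalar (Fin 2) ((y.1.2 ^ t)⁻¹) * y.1.1)
        rw [mul_pow, mul_inv, map_mul]
        calc _ = Matrix.GeneralLinearGroup.scalar (Fin 2) ((x.1.2 ^ t)⁻¹) *
              (Matrix.GeneralLinearGroup.scalar (Fin 2) ((y.1.2 ^ t)⁻¹) * x.1.1) * y.1.1 := by
              simp only [mul_assoc]
          _ = _ := by rw [scalar_comm ((y.1.2 ^ t)⁻¹) x.1.1]; simp only [mul_assoc] }
  let f2 : N' →* (Matrix.GeneralLinearGroup (Fin 2) R) × Rˣ := f3.prod (((powMonoidHom t).comp (MonoidHom.snd (Matrix.GeneralLinearGroup (Fin 2) R) Rˣ)).comp N'.subtype)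
  have hker : f1.ker = f2.ker := by
    ext ⟨⟨g, d⟩, h1, h2, h3⟩
    rw [MonoidHom.mem_ker, MonoidHom.mem_ker]
    constructor
    · intro h4
      have h4 : g = 1 := h4
      subst h4
      have h5 : d ^ (2 * t) = 1 := by
        rw [← h3]
        exact map_one _
      have h6 : d ^ t = 1 := congrArg Subtype.val (hexp ⟨d, h2⟩ (Subtype.ext h5))
      refine Prod.ext ?_ h6
      change Matrix.GeneralLinearGroup.scalar (Fin 2) ((d ^ t)⁻¹) * (1 : (Matrix.GeneralLinearGroup (Fin 2) R)) = 1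
      rw [h6, inv_one, map_one, one_mul]
    · intro h4
      have h5 : Matrix.GeneralLinearGroup.scalar (Fin 2) ((d ^ t)⁻¹) * g = 1 := congrArg Prod.fst h4
      have h6 : d ^ t = 1 := congrArg Prod.snd h4
      rw [h6, inv_one, map_one, one_mul] at h5
      exact h5
  -- the determinant one part
  have hG : Cl f3.range := by
    apply h
    · rintro _ ⟨⟨⟨g, d⟩, h1, h2, h3⟩, rfl⟩
      change Matrix.GeneralLinearGroup.det (Matrix.GeneralLinearGroup.scalar (Fin 2) ((d ^ t)⁻¹) * g)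
        = 1
      have h3 : Matrix.GeneralLinearGroup.det g = d ^ (2 * t) := h3
      rw [map_mul, det_scalar', h3, mul_comm 2 t, pow_mul, inv_pow, inv_mul_cancel]
    · rintro _ ⟨⟨⟨g, d⟩, h1, h2, h3⟩, rfl⟩
      exact ⟨(d ^ t)⁻¹, g, h1, rfl⟩
  have hU : Cl Rˣ := C_commg hM _ mul_comm
  have h2 : Cl f2.range := by
    refine C_le hC.base (K := f3.range.prod ⊤) ?_ ?_
    · rintro _ ⟨x, rfl⟩
      exact ⟨⟨x, rfl⟩, Subgroup.mem_top _⟩
    · exact C_equiv hC.base (Subgroup.prodEquiv f3.range ⊤)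
        (hC.base.prod _ _ hG (C_equiv hC.base Subgroup.topEquiv hU))
  have h1 : Cl f1.range := by
    have e : f1.range ≃* f2.range := (QuotientGroup.quotientKerEquivRange f1).symm.trans
      ((QuotientGroup.quotientMulEquivOfEq hker).trans (QuotientGroup.quotientKerEquivRange f2))
    exact C_equiv hC.base e h2
  -- finite index
  let δ : Γ →* D ⧸ (powMonoidHom (α := D) (2 * t)).range :=
    (QuotientGroup.mk' _).comp ((Matrix.GeneralLinearGroup.det.comp Γ.subtype).codRestrict D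
      (fun g => by rw [hD]; exact ⟨g, g.2, rfl⟩))
  have hfin : Finite (D ⧸ (powMonoidHom (α := D) (2 * t)).range) :=
    Subgroup.finiteIndex_iff_finite_quotient.1
      (Subgroup.finiteIndex_range_powMonoidHom_of_fg D (by omega))
  have hδ : δ.ker.FiniteIndex := Subgroup.finiteIndex_ker δ
  refine hC.base.finiteIndex Γ δ.ker hδ ?_
  refine hC.base.of_injective _ f1.range ((Γ.subtype.comp δ.ker.subtype).codRestrict f1.range ?_) ?_ h1
  · rintro ⟨g, hg⟩
    have h3 : ((⟨Matrix.GeneralLinearGroup.det (g : (Matrix.GeneralLinearGroup (Fin 2) R)), by rw [hD]; exact ⟨g, g.2, rfl⟩⟩ : D)) ∈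
        (powMonoidHom (α := D) (2 * t)).range := (QuotientGroup.eq_one_iff _).1 hg
    obtain ⟨d, hd⟩ := h3
    refine ⟨⟨(g, d), g.2, d.2, ?_⟩, rfl⟩
    exact (congrArg Subtype.val hd).symm
  · intro a b hab
    have h1 := congrArg Subtype.val hab
    exact Subtype.ext (Subtype.ext h1)

/-- reduction to matrices of determinant one -/
theorem red (hC : ClosedE Cl) (hM : ∀ (G : Type) [Group G], derivedSeries G 2 = ⊥ → Cl G)
    (Γ : Subgroup (Matrix.GeneralLinearGroup (Fin 2) R))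
    (h : ∀ G : Subgroup (Matrix.GeneralLinearGroup (Fin 2) R), (∀ g ∈ G, Matrix.GeneralLinearGroup.det g = 1) →
      (∀ g ∈ G, ∃ u : Rˣ, ∃ γ ∈ Γ, g = Matrix.GeneralLinearGroup.scalar (Fin 2) u * γ) → Cl G) :
    Cl Γ := by
  refine Pool.Agent.N509.TX.of_fg hC fun L hL => ?_
  have h1 : Cl (L.map Γ.subtype) := by
    refine red_fg hC hM (L.map Γ.subtype) ?_ ?_
    · rw [Group.fg_iff_subgroup_fg] at hL
      exact fg_map _ hL
    · intro G hG1 hG2
      refine h G hG1 fun g hg => ?_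
      obtain ⟨u, γ, hγ, e⟩ := hG2 g hg
      obtain ⟨γ', _, rfl⟩ := hγ
      exact ⟨u, _, γ'.2, e⟩
  exact C_equiv hC.base (L.equivMapOfInjective Γ.subtype Γ.subtype_injective) h1

end red

end Pool.Agent.J4.H41.GT
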