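import Pool.Agent.J4.H41.GT.Cls

/-!
# Stabilizers of vertices
-/

set_option autoImplicit false

namespace Pool.Agent.J4.H41.GT

open DV
open Pool.Agent.Y110.FJ (ClosedE)
open Pool.Agent.R941.FJ (C_equiv C_le C_cyc mem_sup_normal)

variable {Cl : ∀ (G : Type) [Group G], Prop}
variable {F : Type} [Field F] {V : DV F} {Rs : Subring F}

/-- the field of constants -/
def kf (hR : StrU V Rs) : Subfield F where
  carrier := {c | c ∈ Rs ∧ V.B 0 c}
  mul_mem' := fun h1 h2 => ⟨mul_mem h1.1 h2.1, B_mul (m := 0) (n := 0) (by omega) h1.2 h2.2⟩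
  one_mem' := ⟨one_mem _, B_one⟩
  add_mem' := fun h1 h2 => ⟨add_mem h1.1 h2.1, B_add h1.2 h2.2⟩
  zero_mem' := ⟨zero_mem _, B_zero 0⟩
  neg_mem' := fun h1 => ⟨neg_mem h1.1, B_neg h1.2⟩
  inv_mem' := by
    rintro c ⟨hc1, hc2⟩
    by_cases h0 : c = 0
    · subst h0
      rw [inv_zero]
      exact ⟨zero_mem _, B_zero 0⟩
    refine ⟨hR.h2 c hc1 h0 hc2, Or.inr ?_⟩
    rw [v_inv h0]
    by_contra hlt
    exact h0 (hR.h1 c hc1 (Or.inr (by omega)))

theorem vx_zero (S : Vx V) : (0 : Mt F) ∈ S.1 := by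
  have := vx_sub S (vx_one S) (vx_one S)
  rwa [sub_self] at this

theorem vx_add (S : Vx V) {x y : Mt F} (hx : x ∈ S.1) (hy : y ∈ S.1) : x + y ∈ S.1 := by
  have := vx_sub S hx (vx_sub S (vx_zero S) hy)
  rwa [zero_sub, sub_neg_eq_add] at this

/-- the matrices over the ring in a maximal order -/
def AS (hR : StrU V Rs) (S : Vx V) : Submodule (kf hR) (Mt F) where
  carrier := {x | x ∈ S.1 ∧ x ∈ MR Rs}
  add_mem' := fun h1 h2 => ⟨vx_add S h1.1 h2.1, MR_add h1.2 h2.2⟩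
  zero_mem' := ⟨vx_zero S, fun i j => zero_mem _⟩
  smul_mem' := by
    rintro ⟨c, hc1, hc2⟩ x ⟨h1, h2⟩
    exact ⟨vx_smul S hc2 h1, fun i j => mul_mem hc1 (h2 i j)⟩

theorem N_sandwich {N : Mt F} (hN : N * N = 0) (g : Mt F) : N * g * N = tc (g * N) • N := by
  obtain ⟨a1, a2⟩ := nl_entries hN
  have e : ∀ i j, (N * g * N) i j = (N i 0 * g 0 0 + N i 1 * g 1 0) * N 0 j +
      (N i 0 * g 0 1 + N i 1 * g 1 1) * N 1 j := by
    intro i j
    rw [Matrix.mul_apply, Fin.sum_univ_two, Matrix.mul_apply, Matrix.mul_apply, Fin.sum_univ_two,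
      Fin.sum_univ_two]
  apply mt_ext
  · rw [e]
    simp only [Matrix.smul_apply, smul_eq_mul]
    unfold tc
    rw [mul00, mul11, a1]
    linear_combination (g 1 1) * a2
  · rw [e]
    simp only [Matrix.smul_apply, smul_eq_mul]
    unfold tc
    rw [mul00, mul11, a1]
    linear_combination (-(g 0 1)) * a2
  · rw [e]
    simp only [Matrix.smul_apply, smul_eq_mul]
    unfold tc
    rw [mul00, mul11, a1]
    linear_combination (-(g 1 0)) * a2
  · rw [e]
    simp only [Matrix.smul_apply, smul_eq_mul]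
    unfold tc
    rw [mul00, mul11, a1]
    linear_combination (g 0 0) * a2

theorem dt_comm_nl {N : Mt F} (hN : N * N = 0) (g : Mt F) :
    dt (g * N - N * g) = - (tc (g * N)) ^ 2 := by
  obtain ⟨a1, a2⟩ := nl_entries hN
  unfold dt tc
  rw [Matrix.sub_apply, Matrix.sub_apply, Matrix.sub_apply, Matrix.sub_apply, mul00, mul00, mul01,
    mul01, mul10, mul10, mul11, mul11, a1]
  linear_combination ((g 0 0 - g 1 1) ^ 2 + 4 * g 0 1 * g 1 0) * a2

theorem cP_sc {g : (Mt F)ˣ} (h : Sc g.val) : cP g = 1 := by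
  obtain ⟨h1, h2, h3⟩ := h
  have e : g.val = g.val 0 0 • (1 : Mt F) := by
    apply mt_ext
    · simp [one00]
    · simp [one01, h1]
    · simp [one10, h2]
    · simp [one11, h3]
  ext x : 1
  have e1 : g.val * x = x * g.val := by
    rw [e, smul_mul_assoc, one_mul, mul_smul_comm, mul_one]
  rw [cP_apply, e1, mul_assoc, g.mul_inv, mul_one]
  rfl

theorem sc_of_cP {g : (Mt F)ˣ} (h : cP g = 1) : Sc g.val := by
  have key : ∀ x : Mt F, g.val * x = x * g.val := by
    intro x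
    have h1 : cP g x = x := by rw [h]; rfl
    rw [cP_apply] at h1
    have e2 : (g⁻¹).val * g.val = 1 := g.inv_mul
    calc g.val * x = g.val * x * ((g⁻¹).val * g.val) := by rw [e2, mul_one]
      _ = (g.val * x * (g⁻¹).val) * g.val := by simp only [mul_assoc]
      _ = x * g.val := by rw [h1]
  obtain ⟨h1, h2, h3⟩ := comm_entries (key !![0, 1; 0, 0])
  obtain ⟨k1, k2, k3⟩ := comm_entries (key !![0, 0; 1, 0])
  simp at h1 h2 h3 k1 k2 k3
  exact ⟨k1, h1.symm, sub_eq_zero.1 h2⟩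

end Pool.Agent.J4.H41.GT
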