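import Pool.Agent.J4.H41.GT.Stab

/-!
# Stabilizers of vertices, second part
-/

set_option autoImplicit false

namespace Pool.Agent.J4.H41.GT

open DV
open Pool.Agent.Y110.FJ (ClosedE)
open Pool.Agent.R941.FJ (C_equiv C_le C_cyc mem_sup_normal)

variable {Cl : ∀ (G : Type) [Group G], Prop}
variable {F : Type} [Field F] {V : DV F} {Rs : Subring F}

theorem sc_comm {x : Mt F} (h : Sc x) (y : Mt F) : x * y = y * x := by
  obtain ⟨h1, h2, h3⟩ := h
  have e : x = x 0 0 • (1 : Mt F) := by
    apply mt_ext
    · simp [one00]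
    · simp [one01, h1]
    · simp [one10, h2]
    · simp [one11, h3]
  rw [e, smul_mul_assoc, one_mul, mul_smul_comm, mul_one]

/-- if the commutator is invertible the products form a basis -/
theorem indep {x y : Mt F} (h : dt (x * y - y * x) ≠ 0) :
    LinearIndependent F ![(1 : Mt F), x, y, x * y] := by
  have hN : x * y - y * x ≠ 0 := by
    intro h0
    rw [h0] at h
    exact h (by simp [dt])
  have hx : ¬ Sc x := fun hs => hN (by rw [sc_comm hs y, sub_self])
  rw [Fintype.linearIndependent_iff]
  intro g hg
  rw [Fin.sum_univ_four] at hg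
  simp only [Matrix.cons_val] at hg
  have h1 : (g 2 • (1 : Mt F) + g 3 • x) * (x * y - y * x) = 0 := by
    have e : (g 2 • (1 : Mt F) + g 3 • x) * (x * y - y * x) =
        x * (g 0 • (1 : Mt F) + g 1 • x + g 2 • y + g 3 • (x * y)) -
        (g 0 • (1 : Mt F) + g 1 • x + g 2 • y + g 3 • (x * y)) * x := by
      simp only [mul_add, add_mul, mul_sub, smul_mul_assoc, mul_smul_comm, one_mul, mul_one,
        smul_sub, mul_assoc]
      abel
    rw [e, hg, mul_zero, zero_mul, sub_zero]
  have h2 : g 2 • (1 : Mt F) + g 3 • x = 0 := by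
    have hu : IsUnit (x * y - y * x).det := by
      rw [← dt_eq]
      exact isUnit_iff_ne_zero.2 h
    calc g 2 • (1 : Mt F) + g 3 • x
        = (g 2 • (1 : Mt F) + g 3 • x) * ((x * y - y * x) * (x * y - y * x)⁻¹) := by
          rw [Matrix.mul_nonsing_inv _ hu, mul_one]
      _ = 0 := by rw [← mul_assoc, h1, zero_mul]
  have h3 : g 2 • (1 : Mt F) + g 3 • x = (0 : F) • (1 : Mt F) + (0 : F) • x := by
    rw [h2, zero_smul, zero_smul, add_zero]
  obtain ⟨g2, g3⟩ := coef_unique hx h3
  rw [g2, g3, zero_smul, zero_smul, add_zero, add_zero] at hg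
  have h4 : g 0 • (1 : Mt F) + g 1 • x = (0 : F) • (1 : Mt F) + (0 : F) • x := by
    rw [hg, zero_smul, zero_smul, add_zero]
  obtain ⟨g0, g1⟩ := coef_unique hx h4
  intro i
  fin_cases i
  · exact g0
  · exact g1
  · exact g2
  · exact g3

theorem tc_add (x y : Mt F) : tc (x + y) = tc x + tc y := by
  unfold tc
  rw [Matrix.add_apply, Matrix.add_apply]
  ring

theorem tc_smul (c : F) (x : Mt F) : tc (c • x) = c * tc x := by
  unfold tc
  rw [Matrix.smul_apply, Matrix.smul_apply, smul_eq_mul, smul_eq_mul]
  ring

/-- the trace form is nondegenerate -/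
theorem tc_nondeg {v : Fin 4 → Mt F} (hv : LinearIndependent F v) {z : Mt F}
    (h : ∀ i, tc (v i * z) = 0) : z = 0 := by
  have hspan : Submodule.span F (Set.range v) = ⊤ := by
    apply hv.span_eq_top_of_card_eq_finrank'
    rw [Module.finrank_matrix]
    simp
  have key : ∀ w : Mt F, tc (w * z) = 0 := by
    intro w
    have hw : w ∈ Submodule.span F (Set.range v) := by rw [hspan]; exact Submodule.mem_top
    induction hw using Submodule.span_induction with
    | mem x hx =>
      obtain ⟨i, rfl⟩ := hx
      exact h i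
    | zero => rw [zero_mul]; simp [tc]
    | add a b _ _ ha hb => rw [add_mul, tc_add, ha, hb, add_zero]
    | smul c a _ ha => rw [smul_mul_assoc, tc_smul, ha, mul_zero]
  apply mt_ext
  · have := key !![1, 0; 0, 0]
    unfold tc at this
    rw [mul00, mul11] at this
    simpa using this
  · have := key !![0, 0; 1, 0]
    unfold tc at this
    rw [mul00, mul11] at this
    simpa using this
  · have := key !![0, 1; 0, 0]
    unfold tc at this
    rw [mul00, mul11] at this
    simpa using this
  · have := key !![0, 0; 0, 1]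
    unfold tc at this
    rw [mul00, mul11] at this
    simpa using this

end Pool.Agent.J4.H41.GT
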