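import Pool.Agent.J4.H41.GT.Stab2

/-!
# Stabilizers of vertices, third part
-/

set_option autoImplicit false

namespace Pool.Agent.J4.H41.GT

open DV
open Pool.Agent.Y110.FJ (ClosedE)
open Pool.Agent.R941.FJ (C_equiv C_le C_cyc mem_sup_normal)

variable {Cl : ∀ (G : Type) [Group G], Prop}
variable {F : Type} [Field F] {V : DV F} {Rs : Subring F}

/-- representatives of the elements of a stabilizer -/
theorem st_rep (hR : StrU V Rs) {S : Vx V} {p : PG Rs} (h : p • S = S) :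
    ∃ g ∈ GR Rs, p.1 = cP g ∧ g.val ∈ AS hR S ∧ (g⁻¹).val ∈ AS hR S := by
  obtain ⟨g, hg, hp⟩ := PG_rep p
  refine ⟨g, hg, hp, ⟨mem_of_fix hR.toStr hg hp S h, hg.1⟩, ?_, hg.2⟩
  refine mem_of_fix hR.toStr (p := p⁻¹) (g := g⁻¹) ((GR Rs).inv_mem hg) ?_ S ?_
  · rw [map_inv, ← hp]
    rfl
  · rw [inv_smul_eq_iff, h]

/-- the stabilizers of the vertices with degenerate orders are in the class -/
theorem C_vert (hC : ClosedE Cl) (hM : ∀ (G : Type) [Group G], derivedSeries G 2 = ⊥ → Cl G)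
    (hR : StrU V Rs) (S : Vx V)
    (hcase : ∀ x ∈ AS hR S, ∀ y ∈ AS hR S, dt (x * y - y * x) = 0) :
    Cl (MulAction.stabilizer (PG Rs) S) := by
  by_cases hc2 : ∃ x ∈ AS hR S, ∃ y ∈ AS hR S, x * y ≠ y * x
  · obtain ⟨x, hx, y, hy, hxy⟩ := hc2
    obtain ⟨N, hN⟩ : ∃ N, N = x * y - y * x := ⟨_, rfl⟩
    have hN0 : N ≠ 0 := by
      rw [hN]
      exact sub_ne_zero.2 hxy
    have hNA : N ∈ AS hR S := by
      rw [hN]
      exact ⟨vx_sub S (vx_mul S hx.1 hy.1) (vx_mul S hy.1 hx.1),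
        MR_sub (MR_mul hx.2 hy.2) (MR_mul hy.2 hx.2)⟩
    have hNN : N * N = 0 := by
      apply nl_of
      · rw [hN]
        have : tc (x * y - y * x) = tc (x * y) - tc (y * x) := by
          unfold tc
          rw [Matrix.sub_apply, Matrix.sub_apply]
          ring
        rw [this, tc_comm, sub_self]
      · rw [hN]
        exact hcase x hx y hy
    have htc : ∀ g ∈ AS hR S, tc (g * N) = 0 := by
      intro g hg
      have h1 := hcase g hg N hNA
      rw [dt_comm_nl hNN] at h1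
      exact pow_eq_zero_iff (two_ne_zero) |>.1 (neg_eq_zero.1 h1)
    have hnl : Nl N := ⟨hN0, hNN⟩
    refine C_norm hC hM _ N hnl.not_sc ?_
    intro p hp
    obtain ⟨g, hg, hpg, h1, h2⟩ := st_rep hR hp
    have k1 : N * g.val * N = 0 := by rw [N_sandwich hNN, htc _ h1, zero_smul]
    have k2 : N * (g⁻¹).val * N = 0 := by rw [N_sandwich hNN, htc _ h2, zero_smul]
    rw [hpg, cP_apply]
    calc N * (g.val * N * (g⁻¹).val) = (N * g.val * N) * (g⁻¹).val := by
          simp only [mul_assoc]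
      _ = g.val * (N * (g⁻¹).val * N) := by rw [k1, k2, zero_mul, mul_zero]
      _ = (g.val * N * (g⁻¹).val) * N := by simp only [mul_assoc]
  · push Not at hc2
    refine C_commg hM _ ?_
    intro p q
    obtain ⟨g, hg, hpg, h1, h2⟩ := st_rep hR p.2
    obtain ⟨h, hh, hqh, h3, h4⟩ := st_rep hR q.2
    have e : g * h = h * g := Units.ext (hc2 _ h1 _ h3)
    apply Subtype.ext
    apply Subtype.ext
    change p.1.1 * q.1.1 = q.1.1 * p.1.1
    rw [hpg, hqh, ← map_mul, e, map_mul]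

end Pool.Agent.J4.H41.GT
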