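import Mathlib

/-!
# Discrete valuations
-/

set_option autoImplicit false

namespace Pool.Agent.J4.H41.GT

/-- a discrete valuation -/
structure DV (F : Type) [Field F] where
  v : F → ℤ
  mul : ∀ x y, x ≠ 0 → y ≠ 0 → v (x * y) = v x + v y
  add : ∀ x y, x ≠ 0 → y ≠ 0 → x + y ≠ 0 → min (v x) (v y) ≤ v (x + y)
  surj : ∃ p, p ≠ 0 ∧ v p = 1

variable {F : Type} [Field F] (V : DV F)

namespace DV

/-- `x` has valuation at least `n` -/
def B (n : ℤ) (x : F) : Prop := x = 0 ∨ n ≤ V.v x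

variable {V}

theorem v_one : V.v 1 = 0 := by
  have h := V.mul 1 1 one_ne_zero one_ne_zero
  rw [mul_one] at h
  omega

theorem v_neg_one : V.v (-1) = 0 := by
  have h := V.mul (-1) (-1) (neg_ne_zero.2 one_ne_zero) (neg_ne_zero.2 one_ne_zero)
  rw [neg_mul_neg, mul_one, v_one] at h
  omega

theorem v_neg (x : F) : V.v (-x) = V.v x := by
  by_cases hx : x = 0
  · rw [hx, neg_zero]
  · have h := V.mul (-1) x (neg_ne_zero.2 one_ne_zero) hx
    rw [v_neg_one, neg_one_mul, zero_add] at h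
    exact h

theorem v_inv {x : F} (hx : x ≠ 0) : V.v x⁻¹ = - V.v x := by
  have h := V.mul x x⁻¹ hx (inv_ne_zero hx)
  rw [mul_inv_cancel₀ hx, v_one] at h
  omega

theorem v_div {x y : F} (hx : x ≠ 0) (hy : y ≠ 0) : V.v (x / y) = V.v x - V.v y := by
  rw [div_eq_mul_inv, V.mul x y⁻¹ hx (inv_ne_zero hy), v_inv hy]
  ring

theorem exists_v (n : ℤ) : ∃ t : F, t ≠ 0 ∧ V.v t = n := by
  obtain ⟨p, hp, h1⟩ := V.surj
  have key : ∀ m : ℕ, V.v (p ^ m) = m := by
    intro m
    induction m with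
    | zero => simp [v_one]
    | succ m ih =>
      rw [pow_succ, V.mul _ _ (pow_ne_zero m hp) hp, ih, h1]
      push_cast
      rfl
  rcases Int.eq_nat_or_neg n with ⟨m, rfl | rfl⟩
  · exact ⟨p ^ m, pow_ne_zero m hp, key m⟩
  · exact ⟨(p ^ m)⁻¹, inv_ne_zero (pow_ne_zero m hp), by rw [v_inv (pow_ne_zero m hp), key m]⟩

theorem B_zero (n : ℤ) : V.B n 0 := Or.inl rfl

theorem B_mono {m n : ℤ} (h : m ≤ n) {x : F} (hx : V.B n x) : V.B m x :=
  hx.imp id fun h' => h.trans h'

theorem B_neg {n : ℤ} {x : F} (hx : V.B n x) : V.B n (-x) := by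
  rcases hx with rfl | hx
  · exact Or.inl neg_zero
  · right
    rwa [v_neg]

theorem B_add {n : ℤ} {x y : F} (hx : V.B n x) (hy : V.B n y) : V.B n (x + y) := by
  rcases hx with rfl | hx
  · rwa [zero_add]
  rcases hy with rfl | hy
  · rw [add_zero]; exact Or.inr hx
  by_cases h0 : x + y = 0
  · exact Or.inl h0
  by_cases hx0 : x = 0
  · subst hx0
    rw [zero_add]; exact Or.inr hy
  by_cases hy0 : y = 0
  · subst hy0
    rw [add_zero]; exact Or.inr hx
  · exact Or.inr ((le_min hx hy).trans (V.add x y hx0 hy0 h0))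

theorem B_sub {n : ℤ} {x y : F} (hx : V.B n x) (hy : V.B n y) : V.B n (x - y) := by
  rw [sub_eq_add_neg]
  exact B_add hx (B_neg hy)

theorem B_mul {m n k : ℤ} (h : k ≤ m + n) {x y : F} (hx : V.B m x) (hy : V.B n y) :
    V.B k (x * y) := by
  rcases hx with rfl | hx
  · left; rw [zero_mul]
  rcases hy with rfl | hy
  · left; rw [mul_zero]
  by_cases hx0 : x = 0
  · left; rw [hx0, zero_mul]
  by_cases hy0 : y = 0
  · left; rw [hy0, mul_zero]
  right
  rw [V.mul x y hx0 hy0]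
  omega

theorem B_self (x : F) : V.B (V.v x) x := Or.inr le_rfl

theorem B_one : V.B 0 1 := Or.inr (by rw [v_one])

theorem B_mul_iff {n k : ℤ} {t x : F} (ht : t ≠ 0) (h : k = n + V.v t) :
    V.B k (t * x) ↔ V.B n x := by
  constructor
  · intro h1
    have h2 : x = t⁻¹ * (t * x) := by rw [← mul_assoc, inv_mul_cancel₀ ht, one_mul]
    rw [h2]
    refine B_mul (m := - V.v t) (n := k) (by omega) ?_ h1
    rw [← v_inv ht]
    exact B_self _
  · intro h1
    exact B_mul (m := V.v t) (n := n) (by omega) (B_self t) h1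

theorem B_sq_one {x : F} (h : V.B 1 (x * x)) : V.B 1 x := by
  by_cases hx : x = 0
  · exact Or.inl hx
  rcases h with h | h
  · exact absurd h (mul_ne_zero hx hx)
  · right
    rw [V.mul x x hx hx] at h
    omega

theorem B_sq {x : F} (h : V.B 0 (x * x)) : V.B 0 x := by
  by_cases hx : x = 0
  · exact Or.inl hx
  rcases h with h | h
  · exact absurd h (mul_ne_zero hx hx)
  · right
    rw [V.mul x x hx hx] at h
    omega

theorem B_or (x y : F) (hxy : ¬ (x = 0 ∧ y = 0)) :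
    (y ≠ 0 ∧ V.B 0 (x / y)) ∨ (x ≠ 0 ∧ V.B 1 (y / x)) := by
  by_cases hy : y = 0
  · right
    refine ⟨fun h => hxy ⟨h, hy⟩, ?_⟩
    rw [hy, zero_div]
    exact B_zero 1
  by_cases hx : x = 0
  · left
    refine ⟨hy, ?_⟩
    rw [hx, zero_div]
    exact B_zero 0
  rcases le_or_gt (V.v y) (V.v x) with h | h
  · left
    refine ⟨hy, Or.inr ?_⟩
    rw [v_div hx hy]
    omega
  · right
    refine ⟨hx, Or.inr ?_⟩
    rw [v_div hy hx]
    omega

end DV

end Pool.Agent.J4.H41.GT
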